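import Mathlib

/-!
# Differences which cover many labels

A set `U` of points `u : Fin 3 → Fin m → ℝ` covers a label `l : Fin 3 → Fin m` if there are two points
of `U` which differ in each block `r` exactly at the coordinate `l r`. We show that a set of at most
`m ^ 2` points covers at most `1728 |U| m` labels.
-/

set_option autoImplicit false

open Finset

namespace Pool.Agent.J4.H80.Cover

variable {m : ℕ}

/-- points -/
abbrev Vec (m : ℕ) : Type := Fin 3 → Fin m → ℝ

/-- labels -/
abbrev Lab (m : ℕ) : Type := Fin 3 → Fin m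

/-- `u` and `v` differ exactly in the coordinates `l 0`, `l 1`, `l 2` of the three blocks. -/
def Cov (u v : Vec m) (l : Lab m) : Prop := ∀ r a, u r a ≠ v r a ↔ a = l r

lemma Cov.symm {u v : Vec m} {l : Lab m} (h : Cov u v l) : Cov v u l := fun r a => by
  rw [ne_comm]; exact h r a

lemma Cov.unique {u v : Vec m} {l l' : Lab m} (h : Cov u v l) (h' : Cov u v l') : l = l' := by
  funext r
  exact (h' r (l r)).1 ((h r (l r)).2 rfl)

lemma Cov.ne {u v : Vec m} {l : Lab m} (h : Cov u v l) : u ≠ v := by
  rintro rfl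
  exact (h 0 (l 0)).2 rfl rfl

/-- the graph of the pairs which differ in one coordinate, used once for each coordinate, is a
forest -/
lemma forest (W : Finset (Fin m → ℝ)) (C : Finset (Fin m))
    (h : ∀ c ∈ C, ∃ u ∈ W, ∃ v ∈ W, ∀ a, u a ≠ v a ↔ a = c) : C.card ≤ W.card := by
  classical
  have h1 : ∀ c ∈ C, (Pi.single c 1 : Fin m → ℝ) ∈ Submodule.span ℝ (W : Set (Fin m → ℝ)) := by
    intro c hc
    obtain ⟨u, hu, v, hv, huv⟩ := h c hc
    have hne : u c - v c ≠ 0 := sub_ne_zero.2 ((huv c).2 rfl)
    have e : (Pi.single c 1 : Fin m → ℝ) = (u c - v c)⁻¹ • (u - v) := by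
      funext a
      by_cases ha : a = c
      · subst ha
        simp [hne]
      · have : u a = v a := by
          by_contra hcon
          exact ha ((huv a).1 hcon)
        simp [ha, this]
    rw [e]
    exact Submodule.smul_mem _ _ (Submodule.sub_mem _ (Submodule.subset_span hu)
      (Submodule.subset_span hv))
  have h2 : LinearIndependent ℝ (fun c : C => (Pi.single (c : Fin m) 1 : Fin m → ℝ)) := by
    have h3 : LinearIndependent ℝ (fun c : Fin m => (Pi.single c 1 : Fin m → ℝ)) := by
      have := (Pi.basisFun ℝ (Fin m)).linearIndependent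
      convert this using 1
      funext c
      simp
    exact h3.comp _ Subtype.val_injective
  have h4 : LinearIndependent ℝ (fun c : C =>
      (⟨Pi.single (c : Fin m) 1, h1 c c.2⟩ : Submodule.span ℝ (W : Set (Fin m → ℝ)))) := by
    apply LinearIndependent.of_comp (Submodule.span ℝ (W : Set (Fin m → ℝ))).subtype
    exact h2
  have h5 := h4.fintype_card_le_finrank
  rw [Fintype.card_coe] at h5
  exact h5.trans (finrank_span_finset_le_card W)

section main

variable (L : Finset (Lab m)) (a b : Lab m → Vec m)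

open Classical in
/-- the labels whose chosen pair contains `v` -/
noncomputable def E (v : Vec m) : Finset (Lab m) := L.filter fun l => a l = v ∨ b l = v

open Classical in
/-- the number of labels at `v` with the index `i` in the block `r` -/
noncomputable def cnt (r : Fin 3) (v : Vec m) (i : Fin m) : ℕ :=
  ((E L a b v).filter fun l => l r = i).card

/-- popular indices -/
def Pop (r : Fin 3) (v : Vec m) (i : Fin m) : Prop :=
  0 < cnt L a b r v i ∧ (E L a b v).card ≤ 48 * cnt L a b r v i

open Classical in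
/-- the labels at `v` none of whose indices is popular -/
noncomputable def F (v : Vec m) : Finset (Lab m) :=
  (E L a b v).filter fun l => ∀ r, ¬ Pop L a b r v (l r)

open Classical in
/-- disjoint pairs of labels -/
noncomputable def Dis (v : Vec m) : Finset (Lab m × Lab m) :=
  (F L a b v ×ˢ F L a b v).filter fun p => ∀ r, p.1 r ≠ p.2 r

lemma sum_E_le (U : Finset (Vec m)) : ∑ v ∈ U, (E L a b v).card ≤ 2 * L.card := by
  classical
  have h1 : ∑ v ∈ U, (E L a b v).card = ∑ l ∈ L, (U.filter fun v => a l = v ∨ b l = v).card := by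
    simp only [E, card_filter]
    exact sum_comm
  rw [h1]
  have h2 : ∀ l ∈ L, (U.filter fun v => a l = v ∨ b l = v).card ≤ 2 := by
    intro l _
    refine (card_le_card (t := {a l, b l}) ?_).trans card_le_two
    intro v hv
    rw [mem_filter] at hv
    rcases hv.2 with h | h <;> simp [h]
  refine (sum_le_sum h2).trans ?_
  rw [sum_const, smul_eq_mul, mul_comm]

open Classical in
lemma card_pop_le (r : Fin 3) (v : Vec m) :
    (univ.filter fun i => Pop L a b r v i).card ≤ 48 := by
  set P := univ.filter fun i => Pop L a b r v i with hP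
  have h1 : ∑ i, cnt L a b r v i = (E L a b v).card := by
    unfold cnt
    exact (card_eq_sum_card_fiberwise (f := fun l : Lab m => l r) (t := univ)
      (fun l _ => mem_coe.2 (mem_univ _))).symm
  by_cases he : (E L a b v).card = 0
  · have : P = ∅ := by
      rw [eq_empty_iff_forall_notMem]
      intro i hi
      rw [hP, mem_filter] at hi
      have h2 : cnt L a b r v i ≤ (E L a b v).card := card_filter_le _ _
      have h3 := hi.2.1
      omega
    rw [this]
    simp
  · have h2 : P.card * (E L a b v).card ≤ 48 * (E L a b v).card := by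
      calc P.card * (E L a b v).card = ∑ i ∈ P, (E L a b v).card := by
            rw [sum_const, smul_eq_mul]
        _ ≤ ∑ i ∈ P, 48 * cnt L a b r v i :=
            sum_le_sum fun i hi => by
              rw [hP, mem_filter] at hi
              exact hi.2.2
        _ = 48 * ∑ i ∈ P, cnt L a b r v i := by rw [mul_sum]
        _ ≤ 48 * ∑ i, cnt L a b r v i :=
            Nat.mul_le_mul_left _ (sum_le_sum_of_subset (subset_univ _))
        _ = _ := by rw [h1]
    exact Nat.le_of_mul_le_mul_right h2 (Nat.pos_of_ne_zero he)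

lemma dis_ge (v : Vec m) :
    48 * (F L a b v).card ^ 2 ≤ 48 * (Dis L a b v).card +
      3 * ((F L a b v).card * (E L a b v).card) := by
  classical
  set f := F L a b v with hf
  have hE : ∀ l ∈ f, l ∈ E L a b v ∧ ∀ r, 48 * cnt L a b r v (l r) < (E L a b v).card := by
    intro l hl
    rw [hf, F, mem_filter] at hl
    refine ⟨hl.1, fun r => ?_⟩
    have h1 := hl.2 r
    unfold Pop at h1
    have h2 : 0 < cnt L a b r v (l r) := card_pos.2 ⟨l, mem_filter.2 ⟨hl.1, rfl⟩⟩
    by_contra hcon
    exact h1 ⟨h2, not_lt.1 hcon⟩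
  -- pairs which are not disjoint
  have h1 : ∀ r, 48 * ((f ×ˢ f).filter fun p => p.1 r = p.2 r).card ≤
      f.card * (E L a b v).card := by
    intro r
    have h2 : ((f ×ˢ f).filter fun p => p.1 r = p.2 r).card =
        ∑ l ∈ f, (f.filter fun l' => l r = l' r).card := by
      rw [card_filter, sum_product]
      refine sum_congr rfl fun l _ => ?_
      rw [card_filter]
    rw [h2, mul_sum]
    calc ∑ l ∈ f, 48 * (f.filter fun l' => l r = l' r).card
        ≤ ∑ l ∈ f, (E L a b v).card := by
          refine sum_le_sum fun l hl => ?_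
          refine le_trans (Nat.mul_le_mul_left _ ?_) ((hE l hl).2 r).le
          refine card_le_card ?_
          intro l' hl'
          rw [mem_filter] at hl' ⊢
          exact ⟨(hE l' hl'.1).1, hl'.2.symm⟩
      _ = f.card * (E L a b v).card := by rw [sum_const, smul_eq_mul]
  have h2 : f.card ^ 2 ≤ (Dis L a b v).card +
      ∑ r, ((f ×ˢ f).filter fun p => p.1 r = p.2 r).card := by
    have h3 : f ×ˢ f ⊆ Dis L a b v ∪ univ.biUnion fun r : Fin 3 =>
        (f ×ˢ f).filter fun p => p.1 r = p.2 r := by
      intro p hp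
      rw [mem_union]
      by_cases h : ∀ r, p.1 r ≠ p.2 r
      · left
        exact mem_filter.2 ⟨hp, h⟩
      · right
        push Not at h
        obtain ⟨r, hr⟩ := h
        exact mem_biUnion.2 ⟨r, mem_univ _, mem_filter.2 ⟨hp, hr⟩⟩
    have h4 := (card_le_card h3).trans (card_union_le _ _)
    rw [card_product, ← pow_two] at h4
    exact h4.trans (Nat.add_le_add_left card_biUnion_le _)
  have h3 : 48 * ∑ r, ((f ×ˢ f).filter fun p => p.1 r = p.2 r).card ≤
      3 * (f.card * (E L a b v).card) := by
    rw [mul_sum]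
    refine (sum_le_sum fun r _ => h1 r).trans ?_
    rw [sum_const, smul_eq_mul, card_univ, Fintype.card_fin]
  calc 48 * f.card ^ 2 ≤ 48 * ((Dis L a b v).card +
      ∑ r, ((f ×ˢ f).filter fun p => p.1 r = p.2 r).card) := Nat.mul_le_mul_left _ h2
    _ = 48 * (Dis L a b v).card +
      48 * ∑ r, ((f ×ˢ f).filter fun p => p.1 r = p.2 r).card := by ring
    _ ≤ _ := Nat.add_le_add_left h3 _

/-- Given two points, at most eight points and pairs of disjoint labels lie between them. -/
lemma fiber_le (x x' : Vec m) (A : Finset (Vec m × (Lab m × Lab m)))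
    (hA : ∀ p ∈ A, Cov p.1 x p.2.1 ∧ Cov p.1 x' p.2.2 ∧ ∀ r, p.2.1 r ≠ p.2.2 r) :
    A.card ≤ 8 := by
  classical
  let D : Fin 3 → Finset (Fin m) := fun r => univ.filter fun i => x r i ≠ x' r i
  have hD : ∀ p ∈ A, ∀ r, D r = {p.2.1 r, p.2.2 r} := by
    intro p hp r
    obtain ⟨h1, h2, h3⟩ := hA p hp
    ext i
    simp only [D, mem_filter, mem_univ, true_and, mem_insert, mem_singleton]
    have e1 := h1 r i
    have e2 := h2 r i
    constructor
    · intro h
      by_contra hcon
      push Not at hcon
      have h4 : p.1 r i = x r i := by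
        by_contra hh
        exact hcon.1 (e1.1 hh)
      have h5 : p.1 r i = x' r i := by
        by_contra hh
        exact hcon.2 (e2.1 hh)
      exact h (h4.symm.trans h5)
    · rintro (rfl | rfl)
      · have h4 := (h1 r (p.2.1 r)).2 rfl
        have h5 : p.1 r (p.2.1 r) = x' r (p.2.1 r) := by
          by_contra hh
          exact h3 r ((h2 r _).1 hh)
        rw [← h5]
        exact h4.symm
      · have h4 := (h2 r (p.2.2 r)).2 rfl
        have h5 : p.1 r (p.2.2 r) = x r (p.2.2 r) := by
          by_contra hh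
          exact h3 r ((h1 r _).1 hh).symm
        rw [← h5]
        exact h4
  rcases A.eq_empty_or_nonempty with h0 | ⟨p0, hp0⟩
  · rw [h0]; simp
  have hcard : (Fintype.piFinset D).card = 8 := by
    rw [Fintype.card_piFinset]
    have : ∀ r, (D r).card = 2 := by
      intro r
      rw [hD p0 hp0 r]
      exact card_pair ((hA p0 hp0).2.2 r)
    simp [this]
  rw [← hcard]
  refine card_le_card_of_injOn (fun p => p.2.1) ?_ ?_
  · intro p hp
    rw [mem_coe, Fintype.mem_piFinset]
    intro r
    rw [hD p hp r]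
    simp
  · intro p hp q hq hpq
    dsimp only at hpq
    have hp' := hA p hp
    have hq' := hA q hq
    have e2 : p.2.2 = q.2.2 := by
      funext r
      have h1 := hD p hp r
      have h2 := hD q hq r
      rw [h1, hpq] at h2
      have h3 : p.2.2 r ∈ ({q.2.1 r, q.2.2 r} : Finset (Fin m)) := by
        rw [← h2]; simp
      rw [mem_insert, mem_singleton] at h3
      rcases h3 with h3 | h3
      · exfalso
        exact hp'.2.2 r (by rw [hpq]; exact h3.symm)
      · exact h3
    have e1 : p.1 = q.1 := by
      funext r i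
      by_cases hi : i = p.2.1 r
      · have h1 : p.1 r i = x' r i := by
          by_contra hh
          exact hp'.2.2 r (hi.symm.trans ((hp'.2.1 r i).1 hh))
        have h2 : q.1 r i = x' r i := by
          by_contra hh
          have := (hq'.2.1 r i).1 hh
          exact hq'.2.2 r (by rw [← this, hi, hpq])
        rw [h1, h2]
      · have h1 : p.1 r i = x r i := by
          by_contra hh
          exact hi ((hp'.1 r i).1 hh)
        have h2 : q.1 r i = x r i := by
          by_contra hh
          exact hi (((hq'.1 r i).1 hh).trans (by rw [hpq]))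
        rw [h1, h2]
    exact Prod.ext e1 (Prod.ext hpq e2)

variable {L a b}

lemma sum_dis_le {U : Finset (Vec m)} (ha : ∀ l ∈ L, a l ∈ U) (hb : ∀ l ∈ L, b l ∈ U)
    (hab : ∀ l ∈ L, Cov (a l) (b l) l) :
    ∑ v ∈ U, (Dis L a b v).card ≤ 8 * U.card ^ 2 := by
  classical
  -- the other end point
  let o : Vec m → Lab m → Vec m := fun v l => if a l = v then b l else a l
  have ho : ∀ v, ∀ l ∈ E L a b v, Cov v (o v l) l ∧ o v l ∈ U := by
    intro v l hl
    rw [E, mem_filter] at hl
    simp only [o]
    split_ifs with h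
    · subst h
      exact ⟨hab l hl.1, hb l hl.1⟩
    · have h1 : b l = v := hl.2.resolve_left h
      rw [← h1]
      exact ⟨(hab l hl.1).symm, ha l hl.1⟩
  let A : Finset (Vec m × (Lab m × Lab m)) := U.biUnion fun v => (Dis L a b v).map
    ⟨fun p => (v, p), fun p q h => (Prod.ext_iff.1 h).2⟩
  have hA : A.card = ∑ v ∈ U, (Dis L a b v).card := by
    rw [card_biUnion]
    · refine sum_congr rfl fun v _ => ?_
      rw [card_map]
    · intro v _ w _ hvw
      rw [Function.onFun, disjoint_left]
      intro p hp hp'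
      rw [mem_map] at hp hp'
      obtain ⟨q, _, rfl⟩ := hp
      obtain ⟨q', _, h⟩ := hp'
      exact hvw ((Prod.ext_iff.1 h).1.symm)
  have hmem : ∀ p ∈ A, p.1 ∈ U ∧ p.2.1 ∈ E L a b p.1 ∧ p.2.2 ∈ E L a b p.1 ∧
      ∀ r, p.2.1 r ≠ p.2.2 r := by
    intro p hp
    rw [mem_biUnion] at hp
    obtain ⟨v, hv, hp⟩ := hp
    rw [mem_map] at hp
    obtain ⟨q, hq, rfl⟩ := hp
    rw [Dis, mem_filter, mem_product, F, mem_filter, mem_filter] at hq
    exact ⟨hv, hq.1.1.1, hq.1.2.1, hq.2⟩
  rw [← hA]
  let g : Vec m × (Lab m × Lab m) → Vec m × Vec m := fun p => (o p.1 p.2.1, o p.1 p.2.2)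
  have h1 : A.card ≤ 8 * (A.image g).card := by
    refine card_le_mul_card_image A 8 ?_
    rintro ⟨x, x'⟩ _
    refine fiber_le x x' _ ?_
    intro p hp
    rw [mem_filter] at hp
    obtain ⟨h2, h3⟩ := hp
    obtain ⟨h4, h5, h6, h7⟩ := hmem p h2
    obtain ⟨h8, h9⟩ := Prod.ext_iff.1 h3
    simp only [g] at h8 h9
    refine ⟨?_, ?_, h7⟩
    · rw [← h8]; exact (ho _ _ h5).1
    · rw [← h9]; exact (ho _ _ h6).1
  refine h1.trans (Nat.mul_le_mul_left _ ?_)
  have h2 : A.image g ⊆ U ×ˢ U := by
    intro q hq
    rw [mem_image] at hq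
    obtain ⟨p, hp, rfl⟩ := hq
    obtain ⟨h4, h5, h6, h7⟩ := hmem p hp
    exact mem_product.2 ⟨(ho _ _ h5).2, (ho _ _ h6).2⟩
  refine (card_le_card h2).trans ?_
  rw [card_product, pow_two]

open Classical in
lemma sum_V_le (U : Finset (Vec m)) (r : Fin 3) :
    ∑ i, (U.filter fun v => Pop L a b r v i).card ≤ 48 * U.card := by
  have h1 : ∑ i, (U.filter fun v => Pop L a b r v i).card =
      ∑ v ∈ U, (univ.filter fun i => Pop L a b r v i).card := by
    simp only [card_filter]
    exact sum_comm
  rw [h1]
  refine (sum_le_sum fun v _ => card_pop_le L a b r v).trans ?_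
  rw [sum_const, smul_eq_mul, mul_comm]

open Classical in
lemma case_eq {U : Finset (Vec m)} (ha : ∀ l ∈ L, a l ∈ U) (hb : ∀ l ∈ L, b l ∈ U)
    (hab : ∀ l ∈ L, Cov (a l) (b l) l) (r : Fin 3) :
    (L.filter fun l => Pop L a b r (a l) (l r) ∧ Pop L a b r (b l) (l r)).card ≤
      96 * U.card * m := by
  set Q := L.filter fun l => Pop L a b r (a l) (l r) ∧ Pop L a b r (b l) (l r) with hQ
  have h1 : Q.card = ∑ i, (Q.filter fun l => l r = i).card :=
    card_eq_sum_card_fiberwise (f := fun l : Lab m => l r) (t := univ)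
      (fun l _ => mem_coe.2 (mem_univ _))
  have h2 : ∀ i, (Q.filter fun l => l r = i).card ≤
      (U.filter fun v => Pop L a b r v i).card * m := by
    intro i
    set V := U.filter fun v => Pop L a b r v i with hV
    set n := (Q.filter fun l => l r = i).card with hn
    have hA : n ≤ V.card * V.card := by
      rw [← card_product]
      refine card_le_card_of_injOn (fun l => (a l, b l)) ?_ ?_
      · intro l hl
        rw [mem_coe, mem_filter, hQ, mem_filter] at hl
        obtain ⟨⟨h3, h4, h5⟩, rfl⟩ := hl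
        exact mem_coe.2 (mem_product.2 ⟨mem_filter.2 ⟨ha l h3, h4⟩, mem_filter.2 ⟨hb l h3, h5⟩⟩)
      · intro l hl l' hl' h
        rw [mem_coe, mem_filter, hQ, mem_filter] at hl hl'
        have h3 := (Prod.ext_iff.1 h).1
        have h4 := (Prod.ext_iff.1 h).2
        dsimp only at h3 h4
        have h5 := hab l hl.1.1
        rw [h3, h4] at h5
        exact h5.unique (hab l' hl'.1.1)
    have hB : n ≤ m * m := by
      have : m * m = (univ : Finset (Fin m × Fin m)).card := by simp
      rw [this]
      refine card_le_card_of_injOn (fun l => (l (r + 1), l (r + 2)))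
        (fun l _ => mem_coe.2 (mem_univ _)) ?_
      intro l hl l' hl' h
      rw [mem_coe, mem_filter] at hl hl'
      have h3 := (Prod.ext_iff.1 h).1
      have h4 := (Prod.ext_iff.1 h).2
      dsimp only at h3 h4
      have h5 : l r = l' r := hl.2.trans hl'.2.symm
      funext s
      fin_cases r <;> fin_cases s <;> first | exact h5 | exact h3 | exact h4
    have hC : n * n ≤ (V.card * m) * (V.card * m) := by
      calc n * n ≤ (V.card * V.card) * (m * m) := Nat.mul_le_mul hA hB
        _ = (V.card * m) * (V.card * m) := by ring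
    exact Nat.mul_self_le_mul_self_iff.1 hC
  rw [h1]
  refine (sum_le_sum fun i _ => h2 i).trans ?_
  rw [← sum_mul]
  refine Nat.mul_le_mul_right _ ((sum_V_le U r).trans ?_)
  omega

open Classical in
lemma case_ne {U : Finset (Vec m)} (ha : ∀ l ∈ L, a l ∈ U) (hb : ∀ l ∈ L, b l ∈ U)
    (hab : ∀ l ∈ L, Cov (a l) (b l) l) {r s : Fin 3} (hrs : r ≠ s) :
    (L.filter fun l => Pop L a b r (a l) (l r) ∧ Pop L a b s (b l) (l s)).card ≤
      96 * U.card * m := by
  obtain ⟨t, ht⟩ : ∃ t : Fin 3, ∀ k : Fin 3, k = r ∨ k = s ∨ k = t := by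
    revert r s
    decide
  set Q := L.filter fun l => Pop L a b r (a l) (l r) ∧ Pop L a b s (b l) (l s) with hQ
  let V : Fin 3 → Fin m → Finset (Vec m) := fun r i => U.filter fun v => Pop L a b r v i
  have h1 : Q.card = ∑ p : Fin m × Fin m, (Q.filter fun l => (l r, l s) = p).card :=
    card_eq_sum_card_fiberwise (f := fun l : Lab m => (l r, l s)) (t := univ)
      (fun l _ => mem_coe.2 (mem_univ _))
  have h2 : ∀ p : Fin m × Fin m, (Q.filter fun l => (l r, l s) = p).card ≤
      (V r p.1).card + (V s p.2).card := by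
    intro p
    set A := Q.filter fun l => (l r, l s) = p with hA
    have h3 : A.card = (A.image fun l => l t).card := by
      rw [card_image_of_injOn]
      intro l hl l' hl' h
      dsimp only at h
      rw [mem_coe, hA, mem_filter] at hl hl'
      have h4 := hl.2.trans hl'.2.symm
      have h5 := (Prod.ext_iff.1 h4).1
      have h6 := (Prod.ext_iff.1 h4).2
      dsimp only at h5 h6
      funext k
      rcases ht k with rfl | rfl | rfl
      · exact h5
      · exact h6
      · exact h
    rw [h3]
    have h4 : (A.image fun l => l t).card ≤ ((V r p.1 ∪ V s p.2).image fun v => v t).card := by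
      refine forest _ _ ?_
      intro c hc
      rw [mem_image] at hc
      obtain ⟨l, hl, rfl⟩ := hc
      rw [hA, mem_filter, hQ, mem_filter] at hl
      obtain ⟨⟨h5, h6, h7⟩, rfl⟩ := hl
      refine ⟨a l t, mem_image.2 ⟨a l, mem_union_left _ (mem_filter.2 ⟨ha l h5, h6⟩), rfl⟩,
        b l t, mem_image.2 ⟨b l, mem_union_right _ (mem_filter.2 ⟨hb l h5, h7⟩), rfl⟩, ?_⟩
      exact hab l h5 t
    exact h4.trans (card_image_le.trans (card_union_le _ _))
  rw [h1]
  refine (sum_le_sum fun p _ => h2 p).trans ?_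
  rw [sum_add_distrib, ← univ_product_univ, sum_product, sum_product]
  simp only [sum_const, card_univ, Fintype.card_fin, smul_eq_mul]
  rw [← mul_sum]
  have h3 : ∑ i, (V r i).card ≤ 48 * U.card := sum_V_le U r
  have h4 : ∑ i, (V s i).card ≤ 48 * U.card := sum_V_le U s
  calc m * ∑ i, (V r i).card + m * ∑ i, (V s i).card
      ≤ m * (48 * U.card) + m * (48 * U.card) :=
        Nat.add_le_add (Nat.mul_le_mul_left _ h3) (Nat.mul_le_mul_left _ h4)
    _ = 96 * U.card * m := by ring

/-- **Covering lemma.** -/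
theorem card_le (U : Finset (Vec m)) (L : Finset (Lab m))
    (hL : ∀ l ∈ L, ∃ u ∈ U, ∃ v ∈ U, Cov u v l) (hU : U.card ≤ m ^ 2) :
    L.card ≤ 1728 * U.card * m := by
  classical
  choose! a ha b hb hab using hL
  rcases le_total L.card (2 * ∑ v ∈ U, (F L a b v).card) with hcase | hcase
  · -- many free incidences
    set S := U.filter fun v => (E L a b v).card ≤ 8 * (F L a b v).card with hS
    have hFE : ∀ v, (F L a b v).card ≤ (E L a b v).card := fun v => card_filter_le _ _
    have h1 : (L.card : ℝ) / 4 ≤ ∑ v ∈ S, ((F L a b v).card : ℝ) := by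
      have h2 : ∑ v ∈ U, ((F L a b v).card : ℝ) = ∑ v ∈ S, ((F L a b v).card : ℝ) +
          ∑ v ∈ U.filter (fun v => ¬ (E L a b v).card ≤ 8 * (F L a b v).card),
            ((F L a b v).card : ℝ) := (sum_filter_add_sum_filter_not _ _ _).symm
      have h3 : ∑ v ∈ U.filter (fun v => ¬ (E L a b v).card ≤ 8 * (F L a b v).card),
            ((F L a b v).card : ℝ) ≤ ∑ v ∈ U, ((E L a b v).card : ℝ) / 8 := by
        refine le_trans (sum_le_sum (g := fun v => ((E L a b v).card : ℝ) / 8) ?_) ?_
        · intro v hv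
          rw [mem_filter, not_le] at hv
          have : (8 * (F L a b v).card : ℝ) < (E L a b v).card := by exact_mod_cast hv.2
          linarith
        · exact sum_le_sum_of_subset_of_nonneg (filter_subset _ _) fun v _ _ => by positivity
      have h4 : ∑ v ∈ U, ((E L a b v).card : ℝ) ≤ 2 * L.card := by
        exact_mod_cast sum_E_le L a b U
      rw [← sum_div] at h3
      have h5 : (L.card : ℝ) ≤ 2 * ∑ v ∈ U, ((F L a b v).card : ℝ) := by exact_mod_cast hcase
      linarith
    have h2 : ∀ v ∈ S, ((F L a b v).card : ℝ) ^ 2 / 2 ≤ (Dis L a b v).card := by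
      intro v hv
      rw [hS, mem_filter] at hv
      have h3 : (48 * ((F L a b v).card : ℝ) ^ 2) ≤ 48 * (Dis L a b v).card +
          3 * ((F L a b v).card * (E L a b v).card) := by exact_mod_cast dis_ge L a b v
      have h4 : ((E L a b v).card : ℝ) ≤ 8 * (F L a b v).card := by exact_mod_cast hv.2
      have h5 : (0 : ℝ) ≤ (F L a b v).card := by positivity
      nlinarith [mul_le_mul_of_nonneg_left h4 h5]
    have h3 : (∑ v ∈ S, ((F L a b v).card : ℝ)) ^ 2 ≤
        U.card * ∑ v ∈ S, ((F L a b v).card : ℝ) ^ 2 := by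
      refine sq_sum_le_card_mul_sum_sq.trans ?_
      refine mul_le_mul_of_nonneg_right ?_ (sum_nonneg fun v _ => by positivity)
      exact_mod_cast card_le_card (filter_subset _ _)
    have h4 : ∑ v ∈ S, ((F L a b v).card : ℝ) ^ 2 ≤ 16 * (U.card : ℝ) ^ 2 := by
      have h5 : ∑ v ∈ U, ((Dis L a b v).card : ℝ) ≤ 8 * (U.card : ℝ) ^ 2 := by
        exact_mod_cast sum_dis_le ha hb hab
      have h6 : ∑ v ∈ S, ((Dis L a b v).card : ℝ) ≤ ∑ v ∈ U, ((Dis L a b v).card : ℝ) :=
        sum_le_sum_of_subset_of_nonneg (filter_subset _ _) fun v _ _ => by positivity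
      have h7 : ∑ v ∈ S, ((F L a b v).card : ℝ) ^ 2 / 2 ≤ ∑ v ∈ S, ((Dis L a b v).card : ℝ) :=
        sum_le_sum h2
      rw [← sum_div] at h7
      linarith
    have hU0 : (0 : ℝ) ≤ U.card := by positivity
    have h5 : ((L.card : ℝ) / 4) ^ 2 ≤ 16 * (U.card : ℝ) ^ 3 := by
      calc ((L.card : ℝ) / 4) ^ 2 ≤ (∑ v ∈ S, ((F L a b v).card : ℝ)) ^ 2 :=
            pow_le_pow_left₀ (by positivity) h1 2
        _ ≤ U.card * ∑ v ∈ S, ((F L a b v).card : ℝ) ^ 2 := h3
        _ ≤ U.card * (16 * (U.card : ℝ) ^ 2) := mul_le_mul_of_nonneg_left h4 hU0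
        _ = _ := by ring
    have h6 : (U.card : ℝ) ≤ (m : ℝ) ^ 2 := by exact_mod_cast hU
    have h7 : (L.card : ℝ) ^ 2 ≤ (16 * U.card * m) ^ 2 := by
      have h8 : (U.card : ℝ) ^ 3 ≤ (U.card : ℝ) ^ 2 * (m : ℝ) ^ 2 := by
        rw [pow_succ]
        exact mul_le_mul_of_nonneg_left h6 (by positivity)
      nlinarith
    have h8 : (L.card : ℝ) ≤ 16 * U.card * m := by
      apply le_of_sq_le_sq h7
      positivity
    have h9 : L.card ≤ 16 * U.card * m := by exact_mod_cast h8
    refine h9.trans ?_
    have : 16 * U.card * m = 16 * (U.card * m) := by ring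
    have h10 : 1728 * U.card * m = 1728 * (U.card * m) := by ring
    rw [this, h10]
    exact Nat.mul_le_mul_right _ (by norm_num)
  · -- many labels are popular at both ends
    set L2 := L.filter fun l => l ∉ F L a b (a l) ∧ l ∉ F L a b (b l) with hL2
    have h1 : L.card ≤ L2.card + ∑ v ∈ U, (F L a b v).card := by
      have h2 : L ⊆ L2 ∪ U.biUnion fun v => F L a b v := by
        intro l hl
        rw [mem_union]
        by_cases h : l ∉ F L a b (a l) ∧ l ∉ F L a b (b l)
        · exact Or.inl (mem_filter.2 ⟨hl, h⟩)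
        · right
          rw [mem_biUnion]
          by_cases h3 : l ∈ F L a b (a l)
          · exact ⟨a l, ha l hl, h3⟩
          · refine ⟨b l, hb l hl, ?_⟩
            by_contra h4
            exact h ⟨h3, h4⟩
      exact (card_le_card h2).trans ((card_union_le _ _).trans
        (Nat.add_le_add_left card_biUnion_le _))
    have h2 : L2 ⊆ (univ : Finset (Fin 3 × Fin 3)).biUnion fun p =>
        L.filter fun l => Pop L a b p.1 (a l) (l p.1) ∧ Pop L a b p.2 (b l) (l p.2) := by
      intro l hl
      rw [hL2, mem_filter] at hl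
      obtain ⟨hl0, h3, h4⟩ := hl
      have h5 : ∃ r, Pop L a b r (a l) (l r) := by
        by_contra hcon
        push Not at hcon
        exact h3 (mem_filter.2 ⟨mem_filter.2 ⟨hl0, Or.inl rfl⟩, hcon⟩)
      have h6 : ∃ r, Pop L a b r (b l) (l r) := by
        by_contra hcon
        push Not at hcon
        exact h4 (mem_filter.2 ⟨mem_filter.2 ⟨hl0, Or.inr rfl⟩, hcon⟩)
      obtain ⟨r, hr⟩ := h5
      obtain ⟨s, hs⟩ := h6
      exact mem_biUnion.2 ⟨(r, s), mem_univ _, mem_filter.2 ⟨hl0, hr, hs⟩⟩
    have h3 : L2.card ≤ 9 * (96 * U.card * m) := by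
      refine (card_le_card h2).trans (card_biUnion_le.trans ?_)
      have h4 : ∀ p ∈ (univ : Finset (Fin 3 × Fin 3)),
          (L.filter fun l => Pop L a b p.1 (a l) (l p.1) ∧ Pop L a b p.2 (b l) (l p.2)).card ≤
            96 * U.card * m := by
        rintro ⟨r, s⟩ _
        by_cases hrs : r = s
        · subst hrs
          exact case_eq ha hb hab r
        · exact case_ne ha hb hab hrs
      refine (sum_le_sum h4).trans ?_
      rw [sum_const, smul_eq_mul]
      simp
    have h4 : 2 * ∑ v ∈ U, (F L a b v).card ≤ L.card := hcase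
    have h5 : 1728 * U.card * m = 2 * (9 * (96 * U.card * m)) := by ring
    omega

end main

end Pool.Agent.J4.H80.Cover
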