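import Mathlib
import Pool.Agent.J4.H80.Cover

/-!
# Transcripts which only see equalities: the counting argument
-/

set_option autoImplicit false
set_option linter.unusedSectionVars false

open Finset

namespace Pool.Agent.J4.H80.Gen

section box

variable {B : Type*} [Fintype B] [DecidableEq B]

/-- the box -/
def box (R : B → ℕ) : Finset (B → ℕ) := Fintype.piFinset fun b => range (R b)

variable {R : B → ℕ}

lemma mem_box {s : B → ℕ} : s ∈ box R ↔ ∀ b, s b < R b := by
  simp [box]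

lemma update_mem_box {s : B → ℕ} (hs : s ∈ box R) {b : B} {z : ℕ} (hz : z < R b) :
    Function.update s b z ∈ box R := by
  rw [mem_box] at hs ⊢
  intro b'
  by_cases h : b' = b
  · subst h; simpa using hz
  · simpa [h] using hs b'

lemma fiber_le (b : B) (c : ℕ) (A : Finset (B → ℕ)) (hA : A ⊆ box R)
    (h : ∀ s ∈ box R, ((range (R b)).filter fun z => Function.update s b z ∈ A).card ≤ c) :
    R b * A.card ≤ c * (box R).card := by
  classical
  have h1 : (A ×ˢ range (R b)).card ≤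
      ((box R).sigma fun s => (range (R b)).filter fun z => Function.update s b z ∈ A).card := by
    apply Finset.card_le_card_of_injOn (fun p => ⟨Function.update p.1 b p.2, p.1 b⟩)
    · rintro ⟨t, z⟩ htz
      have htz' : t ∈ A ∧ z < R b := by simpa using htz
      have ht := hA htz'.1
      simp only [coe_sigma, Set.mem_sigma_iff, mem_coe, mem_filter, mem_range]
      refine ⟨update_mem_box ht htz'.2, (mem_box.1 ht) b, ?_⟩
      simpa using htz'.1
    · rintro ⟨t, z⟩ htz ⟨t', z'⟩ htz' heq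
      simp only [Sigma.mk.injEq] at heq
      obtain ⟨h1, h2⟩ := heq
      have h2' : t b = t' b := eq_of_heq h2
      have hz : z = z' := by
        have := congrFun h1 b
        simpa using this
      have ht : t = t' := by
        funext b'
        by_cases hb : b' = b
        · subst hb; exact h2'
        · have := congrFun h1 b'
          simpa [hb] using this
      rw [ht, hz]
  rw [card_product, card_range, card_sigma] at h1
  calc R b * A.card = A.card * R b := mul_comm _ _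
    _ ≤ _ := h1
    _ ≤ ∑ s ∈ box R, c := sum_le_sum h
    _ = c * (box R).card := by rw [sum_const, smul_eq_mul, mul_comm]

end box

section sys

variable {B : Type*} [Fintype B] [DecidableEq B] {Φ : Type*}

/-- value of an affine form -/
noncomputable def ev (c : Φ → B → ℝ) (d : Φ → ℝ) (u : Φ) (s : B → ℕ) : ℝ :=
  d u + ∑ b, c u b * (s b : ℝ)

variable (c : Φ → B → ℝ) (d : Φ → ℝ)

lemma ev_update (u : Φ) (s : B → ℕ) (b : B) (z : ℕ) :
    ev c d u (Function.update s b z) = ev c d u s + c u b * ((z : ℝ) - s b) := by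
  unfold ev
  have h1 : ∑ b', c u b' * ((Function.update s b z b' : ℕ) : ℝ) =
      ∑ b', (c u b' * (s b' : ℝ) + if b' = b then c u b * ((z : ℝ) - s b) else 0) := by
    refine sum_congr rfl fun b' _ => ?_
    by_cases h : b' = b
    · subst h; simp; ring
    · simp [h]
  rw [h1, sum_add_distrib, sum_ite_eq' univ b]
  simp
  ring

/-- the data of an algorithm which sees only the equalities among the computed forms -/
structure Alg where
  /-- the computed forms -/
  F : (B → ℕ) → Finset Φ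
  /-- the answer -/
  ans : (B → ℕ) → Bool
  /-- two inputs are treated in the same way or they are distinguished by an equality -/
  sep : ∀ s t, (F s = F t ∧ ans s = ans t) ∨ ∃ u ∈ F s, ∃ v ∈ F s, u ∈ F t ∧ v ∈ F t ∧
    ¬ (ev c d u s = ev c d v s ↔ ev c d u t = ev c d v t)

variable {c d} (P : Alg (B := B) c d)

/-- the two inputs are treated in the same way -/
def Same (s t : B → ℕ) : Prop :=
  P.F s = P.F t ∧ P.ans s = P.ans t ∧
    ∀ u ∈ P.F s, ∀ v ∈ P.F s, (ev c d u s = ev c d v s ↔ ev c d u t = ev c d v t)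

variable {P}

lemma Same.refl (s : B → ℕ) : Same P s s := ⟨rfl, rfl, fun _ _ _ _ => Iff.rfl⟩

lemma sep {s t : B → ℕ} (h : ¬ Same P s t) : ∃ u ∈ P.F s, ∃ v ∈ P.F s, u ∈ P.F t ∧ v ∈ P.F t ∧
    ¬ (ev c d u s = ev c d v s ↔ ev c d u t = ev c d v t) := by
  rcases P.sep s t with h1 | h1
  · by_contra hcon
    apply h
    refine ⟨h1.1, h1.2, fun u hu v hv => ?_⟩
    by_contra hne
    exact hcon ⟨u, hu, v, hv, h1.1 ▸ hu, h1.1 ▸ hv, hne⟩
  · exact h1

variable (P)

/-- the pairs of forms which differ in the coefficient at `b` -/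
noncomputable def D (b : B) (s : B → ℕ) : Finset (Φ × Φ) :=
  (P.F s ×ˢ P.F s).filter fun p => c p.1 b ≠ c p.2 b

/-- there is no equality between forms which depends on `b`, and few pairs depend on `b` -/
def Good (ℓ : ℕ) (b : B) (s : B → ℕ) : Prop :=
  (D P b s).card ≤ ℓ ∧ ∀ p ∈ D P b s, ev c d p.1 s ≠ ev c d p.2 s

variable {P}

lemma mem_D {b : B} {s : B → ℕ} {p : Φ × Φ} :
    p ∈ D P b s ↔ (p.1 ∈ P.F s ∧ p.2 ∈ P.F s) ∧ c p.1 b ≠ c p.2 b := by
  simp [D]

lemma Same.D_eq {s t : B → ℕ} (h : Same P s t) (b : B) : D P b s = D P b t := by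
  unfold D
  rw [h.1]

lemma Same.good {s t : B → ℕ} (h : Same P s t) {ℓ : ℕ} {b : B} (hg : Good P ℓ b s) :
    Good P ℓ b t := by
  refine ⟨by rw [← h.D_eq]; exact hg.1, fun p hp => ?_⟩
  rw [← h.D_eq] at hp
  have h1 := mem_D.1 hp
  intro h2
  exact hg.2 p hp ((h.2.2 p.1 h1.1.1 p.2 h1.1.2).2 h2)

lemma Same.symm {s t : B → ℕ} (h : Same P s t) : Same P t s :=
  ⟨h.1.symm, h.2.1.symm, fun u hu v hv => (h.2.2 u (h.1 ▸ hu) v (h.1 ▸ hv)).symm⟩

lemma Same.good_iff {s t : B → ℕ} (h : Same P s t) {ℓ : ℕ} {b : B} :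
    Good P ℓ b s ↔ Good P ℓ b t := ⟨h.good, h.symm.good⟩

/-- the difference of two forms has at most one root in direction `b` -/
lemma root_unique {u v : Φ} {b : B} (h : c u b ≠ c v b) {s : B → ℕ} {z z' : ℕ}
    (h1 : ev c d u (Function.update s b z) = ev c d v (Function.update s b z))
    (h2 : ev c d u (Function.update s b z') = ev c d v (Function.update s b z')) : z = z' := by
  rw [ev_update, ev_update] at h1 h2
  have h3 : (c u b - c v b) * ((z : ℝ) - z') = 0 := by linear_combination h1 - h2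
  rcases mul_eq_zero.1 h3 with h4 | h4
  · exact absurd (sub_eq_zero.1 h4) h
  · exact_mod_cast sub_eq_zero.1 h4

/-- a pair which distinguishes two inputs on a line in direction `b` depends on `b` -/
lemma coef_ne_of_sep {u v : Φ} {b : B} {s : B → ℕ} {z z' : ℕ}
    (h : ¬ (ev c d u (Function.update s b z) = ev c d v (Function.update s b z) ↔
      ev c d u (Function.update s b z') = ev c d v (Function.update s b z'))) : c u b ≠ c v b := by
  intro h1
  apply h
  rw [ev_update, ev_update, ev_update, ev_update, h1]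
  constructor <;> intro h2 <;> linarith

/-- few points on a line are treated differently than a good point -/
lemma card_not_same_le {ℓ : ℕ} {b : B} {s : B → ℕ} (hg : Good P ℓ b s) (S : Finset ℕ)
    (hS : ∀ z ∈ S, ¬ Same P s (Function.update s b z)) : S.card ≤ ℓ := by
  classical
  have h1 : ∀ z ∈ S, ∃ p ∈ D P b s,
      ev c d p.1 (Function.update s b z) = ev c d p.2 (Function.update s b z) := by
    intro z hz
    obtain ⟨u, hu, v, hv, -, -, hne⟩ := sep (hS z hz)
    have hD : c u b ≠ c v b := by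
      apply coef_ne_of_sep (s := s) (z := s b) (z' := z)
      rwa [Function.update_eq_self]
    have hp : (u, v) ∈ D P b s := mem_D.2 ⟨⟨hu, hv⟩, hD⟩
    refine ⟨(u, v), hp, ?_⟩
    have h2 := hg.2 _ hp
    simp only at h2 ⊢
    by_contra h3
    exact hne ⟨fun h => absurd h h2, fun h => absurd h h3⟩
  refine le_trans (card_le_card_of_forall_subsingleton
    (fun z p => ev c d p.1 (Function.update s b z) = ev c d p.2 (Function.update s b z)) h1 ?_) hg.1
  rintro p hp z ⟨_, e1⟩ z' ⟨_, e2⟩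
  exact root_unique (mem_D.1 hp).2 e1 e2

/-- on each line there are few points with small load and an equality which depends on the
coordinate -/
lemma card_eq_le {ℓ : ℕ} {b : B} {s : B → ℕ} (S : Finset ℕ)
    (hS : ∀ z ∈ S, (D P b (Function.update s b z)).card ≤ ℓ ∧
      ∃ p ∈ D P b (Function.update s b z),
        ev c d p.1 (Function.update s b z) = ev c d p.2 (Function.update s b z)) :
    S.card ≤ 2 * ℓ + 1 := by
  classical
  set x : ℕ → B → ℕ := fun z => Function.update s b z with hx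
  set Out : ℕ → Finset ℕ := fun z => S.filter fun z' => ∃ p ∈ D P b (x z),
    ev c d p.1 (x z') = ev c d p.2 (x z') with hOut
  have h1 : ∀ z ∈ S, (Out z).card ≤ ℓ := by
    intro z hz
    have h2 : ∀ z' ∈ Out z, ∃ p ∈ D P b (x z), ev c d p.1 (x z') = ev c d p.2 (x z') :=
      fun z' hz' => (mem_filter.1 hz').2
    refine le_trans (card_le_card_of_forall_subsingleton
      (fun z' p => ev c d p.1 (x z') = ev c d p.2 (x z')) h2 ?_) (hS z hz).1
    rintro p hp z' ⟨_, e1⟩ z'' ⟨_, e2⟩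
    exact root_unique (mem_D.1 hp).2 e1 e2
  have h2 : ∀ z ∈ S, ∀ z' ∈ S, z ≠ z' → z' ∈ Out z ∨ z ∈ Out z' := by
    intro z hz z' hz' hne
    have h3 : ¬ Same P (x z) (x z') := by
      intro h4
      obtain ⟨p, hp, hpe⟩ := (hS z hz).2
      have h5 := mem_D.1 hp
      have h6 := (h4.2.2 p.1 h5.1.1 p.2 h5.1.2).1 hpe
      exact hne (root_unique h5.2 hpe h6)
    obtain ⟨u, hu, v, hv, hu', hv', hsep⟩ := sep h3
    have hD : c u b ≠ c v b := coef_ne_of_sep hsep
    by_cases h4 : ev c d u (x z) = ev c d v (x z)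
    · right
      refine mem_filter.2 ⟨hz, (u, v), mem_D.2 ⟨⟨hu', hv'⟩, hD⟩, h4⟩
    · left
      refine mem_filter.2 ⟨hz', (u, v), mem_D.2 ⟨⟨hu, hv⟩, hD⟩, ?_⟩
      by_contra h5
      exact hsep ⟨fun h => absurd h h4, fun h => absurd h h5⟩
  have h3 : S.offDiag.card ≤ (S.sigma Out).card + (S.sigma Out).card := by
    have h4 : S.offDiag ⊆ ((S.sigma Out).image fun p => (p.1, p.2)) ∪
        ((S.sigma Out).image fun p => (p.2, p.1)) := by
      rintro ⟨z, z'⟩ hzz
      rw [mem_offDiag] at hzz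
      rw [mem_union, mem_image, mem_image]
      rcases h2 z hzz.1 z' hzz.2.1 hzz.2.2 with h5 | h5
      · exact Or.inl ⟨⟨z, z'⟩, mem_sigma.2 ⟨hzz.1, h5⟩, rfl⟩
      · exact Or.inr ⟨⟨z', z⟩, mem_sigma.2 ⟨hzz.2.1, h5⟩, rfl⟩
    refine (card_le_card h4).trans ((card_union_le _ _).trans ?_)
    exact add_le_add card_image_le card_image_le
  rw [offDiag_card, card_sigma] at h3
  have h4 : ∑ z ∈ S, (Out z).card ≤ S.card * ℓ := by
    calc ∑ z ∈ S, (Out z).card ≤ ∑ z ∈ S, ℓ := sum_le_sum h1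
      _ = S.card * ℓ := by rw [sum_const, smul_eq_mul]
  rcases Nat.eq_zero_or_pos S.card with h5 | h5
  · omega
  · have h6 : S.card * S.card ≤ S.card * (2 * ℓ + 1) := by
      have : S.card * (2 * ℓ + 1) = S.card * ℓ + S.card * ℓ + S.card := by ring
      omega
    exact Nat.le_of_mul_le_mul_left h6 h5

variable {R : B → ℕ}

lemma card_eqbad_le (ℓ : ℕ) (b : B) (A : Finset (B → ℕ)) (hA : A ⊆ box R)
    (h : ∀ s ∈ A, (D P b s).card ≤ ℓ ∧ ∃ p ∈ D P b s, ev c d p.1 s = ev c d p.2 s) :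
    R b * A.card ≤ (2 * ℓ + 1) * (box R).card := by
  classical
  apply fiber_le b _ A hA
  intro s _
  apply card_eq_le (P := P) (b := b) (s := s)
  intro z hz
  exact h _ (mem_filter.1 hz).2

/-- few coordinates have a big load -/
lemma sum_D_le (κ : ℕ) (s : B → ℕ)
    (hκ : ∀ u ∈ P.F s, (univ.filter fun b => c u b ≠ 0).card ≤ κ) :
    ∑ b, (D P b s).card ≤ 2 * κ * (P.F s).card ^ 2 := by
  classical
  have h1 : ∑ b, (D P b s).card =
      ∑ p ∈ P.F s ×ˢ P.F s, (univ.filter fun b => c p.1 b ≠ c p.2 b).card := by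
    unfold D
    simp_rw [card_filter]
    rw [sum_comm]
  rw [h1]
  have h2 : ∀ p ∈ P.F s ×ˢ P.F s, (univ.filter fun b => c p.1 b ≠ c p.2 b).card ≤ 2 * κ := by
    intro p hp
    have h3 : (univ.filter fun b => c p.1 b ≠ c p.2 b) ⊆
        (univ.filter fun b => c p.1 b ≠ 0) ∪ (univ.filter fun b => c p.2 b ≠ 0) := by
      intro b hb
      simp only [mem_filter, mem_univ, true_and, mem_union] at hb ⊢
      by_contra hcon
      push Not at hcon
      exact hb (hcon.1.trans hcon.2.symm)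
    refine (card_le_card h3).trans ((card_union_le _ _).trans ?_)
    have := hκ p.1 (mem_product.1 hp).1
    have := hκ p.2 (mem_product.1 hp).2
    omega
  calc _ ≤ ∑ p ∈ P.F s ×ˢ P.F s, 2 * κ := sum_le_sum h2
    _ = 2 * κ * (P.F s).card ^ 2 := by
      rw [sum_const, card_product, smul_eq_mul]; ring

end sys

section labels

variable {m : ℕ} {Φ : Type*} {c : Φ → Fin 3 × Fin m → ℝ} {d : Φ → ℝ} {P : Alg c d}

open Cover

/-- plant a solution at the label `l` -/
def plant (s : Fin 3 × Fin m → ℕ) (l : Lab m) : Fin 3 × Fin m → ℕ :=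
  Function.update s (2, l 2) (s (0, l 0) + s (1, l 1))

/-- the coefficients after the substitution which plants a solution at `l` -/
noncomputable def cc (c : Φ → Fin 3 × Fin m → ℝ) (l : Lab m) (u : Φ) (g : Fin 3 × Fin m) : ℝ :=
  c u g + c u (2, l 2) * ((if g = (0, l 0) then 1 else 0) + (if g = (1, l 1) then 1 else 0))

lemma ev_plant_update (u : Φ) (s : Fin 3 × Fin m → ℕ) (l : Lab m) (g : Fin 3 × Fin m)
    (hg : g ≠ (2, l 2)) (z : ℕ) :
    ev c d u (plant (Function.update s g z) l) =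
      ev c d u (plant s l) + cc c l u g * ((z : ℝ) - s g) := by
  unfold plant
  rw [ev_update, ev_update, ev_update, Function.update_of_ne hg.symm]
  unfold cc
  by_cases h0 : g = (0, l 0)
  · have h1 : g ≠ (1, l 1) := by rw [h0]; simp
    rw [Function.update_of_ne h1.symm]
    rw [← h0]
    simp [h1]
    ring
  · by_cases h1 : g = (1, l 1)
    · rw [Function.update_of_ne (Ne.symm h0)]
      rw [← h1]
      simp [h0]
      ring
    · rw [Function.update_of_ne (Ne.symm h0), Function.update_of_ne (Ne.symm h1)]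
      simp [h0, h1]
      ring

/-- the kept pair -/
lemma exists_pair {ℓ : ℕ} {s : Fin 3 × Fin m → ℕ} {l : Lab m} (hg : Good P ℓ (2, l 2) s)
    (h : ¬ Same P s (plant s l)) : ∃ p ∈ D P (2, l 2) s,
      ev c d p.1 (plant s l) = ev c d p.2 (plant s l) := by
  obtain ⟨u, hu, v, hv, -, -, hne⟩ := sep h
  have hD : c u (2, l 2) ≠ c v (2, l 2) := by
    apply coef_ne_of_sep (s := s) (z := s (2, l 2)) (z' := s (0, l 0) + s (1, l 1))
    rw [Function.update_eq_self]
    exact hne
  have hp : (u, v) ∈ D P (2, l 2) s := mem_D.2 ⟨⟨hu, hv⟩, hD⟩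
  refine ⟨(u, v), hp, ?_⟩
  have h2 := hg.2 _ hp
  simp only at h2 ⊢
  by_contra h3
  exact hne ⟨fun h => absurd h h2, fun h => absurd h h3⟩

open Classical in
/-- the coefficients at the good coordinates -/
noncomputable def proj (P : Alg c d) (ℓ : ℕ) (s : Fin 3 × Fin m → ℕ) (u : Φ) : Vec m :=
  fun r a => if Good P ℓ (r, a) s then c u (r, a) else 0

lemma case_a {ℓ : ℕ} {s : Fin 3 × Fin m → ℕ} {l : Lab m} (hg : ∀ r, Good P ℓ (r, l r) s)
    {p : Φ × Φ} (hp : p ∈ D P (2, l 2) s)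
    (h : ∀ g, Good P ℓ g s → g ≠ (2, l 2) → cc c l p.1 g = cc c l p.2 g) :
    Cov (proj P ℓ s p.1) (proj P ℓ s p.2) l := by
  have hk := (mem_D.1 hp).2
  intro r a
  unfold proj
  by_cases hga : Good P ℓ (r, a) s
  · rw [if_pos hga, if_pos hga]
    constructor
    · intro hne
      by_contra ha
      apply hne
      have hk' : ((r, a) : Fin 3 × Fin m) ≠ (2, l 2) := by
        rintro h'
        simp only [Prod.mk.injEq] at h'
        rw [h'.1, h'.2] at ha
        exact ha rfl
      have h0 : ((r, a) : Fin 3 × Fin m) ≠ (0, l 0) := by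
        rintro h'
        simp only [Prod.mk.injEq] at h'
        rw [h'.1, h'.2] at ha
        exact ha rfl
      have h1 : ((r, a) : Fin 3 × Fin m) ≠ (1, l 1) := by
        rintro h'
        simp only [Prod.mk.injEq] at h'
        rw [h'.1, h'.2] at ha
        exact ha rfl
      have := h (r, a) hga hk'
      unfold cc at this
      rw [if_neg h0, if_neg h1] at this
      simpa using this
    · rintro rfl
      by_cases hr2 : r = 2
      · subst hr2; exact hk
      · have hk' : ((r, l r) : Fin 3 × Fin m) ≠ (2, l 2) := by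
          rintro h'
          simp only [Prod.mk.injEq] at h'
          exact hr2 h'.1
        have h1 := h (r, l r) hga hk'
        intro h2
        unfold cc at h1
        rw [h2] at h1
        have h3 : r = 0 ∨ r = 1 := by
          fin_cases r
          · left; rfl
          · right; rfl
          · exact absurd rfl hr2
        apply hk
        rcases h3 with rfl | rfl
        · simpa using h1
        · simpa using h1
  · rw [if_neg hga, if_neg hga]
    constructor
    · intro h'; exact absurd rfl h'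
    · rintro rfl; exact absurd (hg r) hga

open Classical in
/-- the inputs at which a pair sees the planted solution through another coordinate -/
noncomputable def Sb (P : Alg c d) (ℓ : ℕ) (R : Fin 3 × Fin m → ℕ) (l : Lab m) :
    Finset (Fin 3 × Fin m → ℕ) :=
  (box R).filter fun s => (D P (2, l 2) s).card ≤ ℓ ∧ ∃ p ∈ D P (2, l 2) s,
    ev c d p.1 (plant s l) = ev c d p.2 (plant s l) ∧
      ∃ g, Good P ℓ g s ∧ g ≠ (2, l 2) ∧ cc c l p.1 g ≠ cc c l p.2 g

open Classical in
/-- a choice of an element -/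
noncomputable def pick (l : Lab m) (S : Finset (Fin 3 × Fin m)) : Fin 3 × Fin m :=
  if h : S.Nonempty then h.choose else (2, l 2)

lemma pick_mem (l : Lab m) {S : Finset (Fin 3 × Fin m)} (h : S.Nonempty) : pick l S ∈ S := by
  unfold pick
  rw [dif_pos h]
  exact h.choose_spec

open Classical in
/-- the good coordinates through which the pair `p` sees the solution -/
noncomputable def Gs (P : Alg c d) (ℓ : ℕ) (l : Lab m) (s : Fin 3 × Fin m → ℕ) (p : Φ × Φ) :
    Finset (Fin 3 × Fin m) :=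
  univ.filter fun g => Good P ℓ g s ∧ g ≠ (2, l 2) ∧ cc c l p.1 g ≠ cc c l p.2 g

lemma Same.Gs_eq {ℓ : ℕ} {l : Lab m} {s t : Fin 3 × Fin m → ℕ} (h : Same P s t) (p : Φ × Φ) :
    Gs P ℓ l s p = Gs P ℓ l t p := by
  unfold Gs
  ext g
  simp only [mem_filter, mem_univ, true_and]
  rw [h.good_iff]

lemma card_Sb_le (ℓ q : ℕ) (R : Fin 3 × Fin m → ℕ) (hR : ∀ b, q ≤ R b) (l : Lab m) :
    (q - ℓ) * (Sb P ℓ R l).card ≤ ℓ * (box R).card := by
  classical
  set S := Sb P ℓ R l with hSdef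
  have h1 : ∀ s ∈ S, ∃ p : Φ × Φ, p ∈ D P (2, l 2) s ∧
      ev c d p.1 (plant s l) = ev c d p.2 (plant s l) ∧ (Gs P ℓ l s p).Nonempty := by
    intro s hs
    rw [hSdef, Sb, mem_filter] at hs
    obtain ⟨_, _, p, hp, he, g, hg⟩ := hs
    exact ⟨p, hp, he, g, mem_filter.2 ⟨mem_univ _, hg⟩⟩
  rcases S.eq_empty_or_nonempty with hS | ⟨s0, hs0⟩
  · rw [hS]; simp
  have : Nonempty (Φ × Φ) := ⟨(h1 s0 hs0).choose⟩
  choose! f hf hfe hfG using h1
  set γ : (Fin 3 × Fin m → ℕ) → Fin 3 × Fin m := fun s => pick l (Gs P ℓ l s (f s)) with hγ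
  have hγm : ∀ s ∈ S, Good P ℓ (γ s) s ∧ γ s ≠ (2, l 2) ∧
      cc c l (f s).1 (γ s) ≠ cc c l (f s).2 (γ s) := by
    intro s hs
    have := pick_mem l (hfG s hs)
    rw [Gs, mem_filter] at this
    exact this.2
  set A : Finset (Σ _ : Fin 3 × Fin m → ℕ, ℕ) :=
    S.sigma fun s => (range (R (γ s))).filter fun z => Same P s (Function.update s (γ s) z) with hA
  set C : Finset (Σ _ : Fin 3 × Fin m → ℕ, Φ × Φ) :=
    ((box R).filter fun s => (D P (2, l 2) s).card ≤ ℓ).sigma fun s => D P (2, l 2) s with hC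
  have hSb : ∀ s ∈ S, s ∈ box R ∧ (D P (2, l 2) s).card ≤ ℓ := by
    intro s hs
    rw [hSdef, Sb, mem_filter] at hs
    exact ⟨hs.1, hs.2.1⟩
  have h2 : A.card ≤ C.card := by
    apply card_le_card_of_injOn (fun x => ⟨Function.update x.1 (γ x.1) x.2, f x.1⟩)
    · rintro ⟨s, z⟩ hx
      rw [mem_coe, hA, mem_sigma, mem_filter, mem_range] at hx
      obtain ⟨hs, hz, hsame⟩ := hx
      simp only at hs hz hsame
      rw [mem_coe, hC, mem_sigma, mem_filter]
      refine ⟨⟨update_mem_box (hSb s hs).1 hz, ?_⟩, ?_⟩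
      · simp only
        rw [← hsame.D_eq]
        exact (hSb s hs).2
      · simp only
        rw [← hsame.D_eq]
        exact hf s hs
    · rintro ⟨s, z⟩ hx ⟨t, z'⟩ hx' heq
      rw [mem_coe, hA, mem_sigma, mem_filter, mem_range] at hx hx'
      obtain ⟨hs, hz, hsame⟩ := hx
      obtain ⟨ht, hz', hsame'⟩ := hx'
      simp only at hs hz hsame ht hz' hsame'
      simp only [Sigma.mk.injEq] at heq
      obtain ⟨heq1, heq2⟩ := heq
      have heq2' : f s = f t := eq_of_heq heq2
      have hγe : γ s = γ t := by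
        have e1 : Gs P ℓ l s (f s) = Gs P ℓ l t (f t) := by
          rw [hsame.Gs_eq (f s), hsame'.Gs_eq (f t), heq1, heq2']
        simp only [hγ]
        rw [e1]
      have htu : t = Function.update s (γ s) (t (γ s)) := by
        funext b
        by_cases hb : b = γ s
        · rw [hb]; simp
        · rw [Function.update_of_ne hb]
          have := congrFun heq1 b
          rw [Function.update_of_ne hb, Function.update_of_ne (hγe ▸ hb)] at this
          exact this.symm
      have hval : t (γ s) = s (γ s) := by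
        obtain ⟨_, hg2, hg3⟩ := hγm s hs
        have e1 := hfe s hs
        have e2 := hfe t ht
        rw [← heq2', htu, ev_plant_update _ _ _ _ hg2, ev_plant_update _ _ _ _ hg2] at e2
        have e3 : (cc c l (f s).1 (γ s) - cc c l (f s).2 (γ s)) * (((t (γ s) : ℕ) : ℝ) - s (γ s)) = 0 := by
          linear_combination e2 - e1
        rcases mul_eq_zero.1 e3 with h4 | h4
        · exact absurd (sub_eq_zero.1 h4) hg3
        · exact_mod_cast sub_eq_zero.1 h4
      have hst : s = t := by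
        rw [htu, hval, Function.update_eq_self]
      subst hst
      have hzz : z = z' := by
        have := congrFun heq1 (γ s)
        simpa using this
      rw [hzz]
  have h3 : C.card ≤ ℓ * (box R).card := by
    rw [hC, card_sigma]
    calc _ ≤ ∑ s ∈ (box R).filter (fun s => (D P (2, l 2) s).card ≤ ℓ), ℓ :=
          sum_le_sum fun s hs => (mem_filter.1 hs).2
      _ ≤ ∑ s ∈ box R, ℓ := sum_le_sum_of_subset (filter_subset _ _)
      _ = ℓ * (box R).card := by rw [sum_const, smul_eq_mul, mul_comm]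
  have h4 : (q - ℓ) * S.card ≤ A.card := by
    rw [hA, card_sigma]
    have h5 : ∀ s ∈ S, q - ℓ ≤ ((range (R (γ s))).filter fun z =>
        Same P s (Function.update s (γ s) z)).card := by
      intro s hs
      have h6 := card_not_same_le (hγm s hs).1 ((range (R (γ s))).filter fun z =>
        ¬ Same P s (Function.update s (γ s) z)) (fun z hz => (mem_filter.1 hz).2)
      have h7 := card_filter_add_card_filter_not (s := range (R (γ s)))
        (fun z => Same P s (Function.update s (γ s) z))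
      rw [card_range] at h7
      have := hR (γ s)
      omega
    calc (q - ℓ) * S.card = ∑ s ∈ S, (q - ℓ) := by rw [sum_const, smul_eq_mul, mul_comm]
      _ ≤ _ := sum_le_sum h5
  exact h4.trans (h2.trans h3)

lemma card_prod_filter {α β : Type*} (S : Finset α) (T : Finset β) (H : α → β → Prop)
    [DecidablePred fun p : α × β => H p.1 p.2] [∀ a, DecidablePred (H a)] :
    ((S ×ˢ T).filter fun p => H p.1 p.2).card = ∑ a ∈ S, (T.filter (H a)).card := by
  rw [card_filter, sum_product]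
  refine sum_congr rfl fun a _ => ?_
  rw [card_filter]

lemma card_prod_filter' {α β : Type*} (S : Finset α) (T : Finset β) (H : α → β → Prop)
    [DecidablePred fun p : α × β => H p.1 p.2] [∀ b, DecidablePred fun a => H a b] :
    ((S ×ˢ T).filter fun p => H p.1 p.2).card = ∑ b ∈ T, (S.filter fun a => H a b).card := by
  rw [card_filter, sum_product_right]
  refine sum_congr rfl fun a _ => ?_
  rw [card_filter]

lemma card_label (b : Fin 3 × Fin m) :
    ((univ : Finset (Lab m)).filter fun l => l b.1 = b.2).card ≤ m ^ 2 := by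
  obtain ⟨r, a⟩ := b
  have h1 : ((univ : Finset (Lab m)).filter fun l => l r = a) ⊆
      Fintype.piFinset (fun r' => if r' = r then {a} else univ) := by
    intro l hl
    rw [Fintype.mem_piFinset]
    intro r'
    by_cases h : r' = r
    · subst h
      simpa using (mem_filter.1 hl).2
    · simp [h]
  refine (card_le_card h1).trans ?_
  rw [Fintype.card_piFinset, Fin.prod_univ_three]
  fin_cases r <;> simp <;> exact le_of_eq (by ring)

open Classical in
/-- the inputs and labels at which a short run notices the planted solution -/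
noncomputable def Bad (P : Alg c d) (T : ℕ) (R : Fin 3 × Fin m → ℕ) :
    Finset ((Fin 3 × Fin m → ℕ) × Lab m) :=
  (box R ×ˢ univ).filter fun p => (P.F p.1).card ≤ T ∧ ¬ Same P p.1 (plant p.1 p.2)

open Classical in
lemma card_N1 (P : Alg c d) (κ T ℓ : ℕ)
    (hκ : ∀ s, ∀ u ∈ P.F s, (univ.filter fun b => c u b ≠ 0).card ≤ κ) (R : Fin 3 × Fin m → ℕ) :
    ℓ * ((box R ×ˢ (univ : Finset (Lab m))).filter fun p => (P.F p.1).card ≤ T ∧
      ∃ r, ℓ < (D P (r, p.2 r) p.1).card).card ≤ (box R).card * (m ^ 2 * (2 * κ * T ^ 2)) := by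
  rw [card_prod_filter (box R) (univ : Finset (Lab m)) (fun s l => (P.F s).card ≤ T ∧
      ∃ r, ℓ < (D P (r, l r) s).card), mul_sum, ← smul_eq_mul, ← sum_const]
  refine sum_le_sum fun s _ => ?_
  by_cases hs : (P.F s).card ≤ T
  swap
  · simp [hs]
  set H : Finset (Fin 3 × Fin m) := univ.filter fun b => ℓ < (D P b s).card with hH
  have h1 : ((univ : Finset (Lab m)).filter fun l => (P.F s).card ≤ T ∧
      ∃ r, ℓ < (D P (r, l r) s).card) ⊆ H.biUnion fun b => univ.filter fun l => l b.1 = b.2 := by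
    intro l hl
    obtain ⟨_, _, r, hr⟩ := mem_filter.1 hl
    rw [mem_biUnion]
    exact ⟨(r, l r), mem_filter.2 ⟨mem_univ _, hr⟩, mem_filter.2 ⟨mem_univ _, rfl⟩⟩
  have h2 : ((univ : Finset (Lab m)).filter fun l => (P.F s).card ≤ T ∧
      ∃ r, ℓ < (D P (r, l r) s).card).card ≤ H.card * m ^ 2 := by
    refine (card_le_card h1).trans (card_biUnion_le.trans ?_)
    calc _ ≤ ∑ b ∈ H, m ^ 2 := sum_le_sum fun b _ => card_label b
      _ = H.card * m ^ 2 := by rw [sum_const, smul_eq_mul]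
  have h3 : ℓ * H.card ≤ 2 * κ * T ^ 2 := by
    calc ℓ * H.card = ∑ b ∈ H, ℓ := by rw [sum_const, smul_eq_mul, mul_comm]
      _ ≤ ∑ b ∈ H, (D P b s).card := sum_le_sum fun b hb => (mem_filter.1 hb).2.le
      _ ≤ ∑ b, (D P b s).card := sum_le_sum_of_subset (subset_univ _)
      _ ≤ 2 * κ * (P.F s).card ^ 2 := sum_D_le κ s (hκ s)
      _ ≤ 2 * κ * T ^ 2 := Nat.mul_le_mul_left _ (Nat.pow_le_pow_left hs 2)
  calc _ ≤ ℓ * (H.card * m ^ 2) := Nat.mul_le_mul_left _ h2
    _ = m ^ 2 * (ℓ * H.card) := by ring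
    _ ≤ m ^ 2 * (2 * κ * T ^ 2) := Nat.mul_le_mul_left _ h3

open Classical in
lemma card_N2 (P : Alg c d) (ℓ q : ℕ) (R : Fin 3 × Fin m → ℕ) (hR : ∀ b, q ≤ R b) :
    q * ((box R ×ˢ (univ : Finset (Lab m))).filter fun p => ∃ r, (D P (r, p.2 r) p.1).card ≤ ℓ ∧
      ∃ x ∈ D P (r, p.2 r) p.1, ev c d x.1 p.1 = ev c d x.2 p.1).card ≤
      m ^ 3 * (3 * ((2 * ℓ + 1) * (box R).card)) := by
  rw [card_prod_filter' (box R) (univ : Finset (Lab m)) (fun s l => ∃ r,
    (D P (r, l r) s).card ≤ ℓ ∧ ∃ x ∈ D P (r, l r) s, ev c d x.1 s = ev c d x.2 s), mul_sum]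
  have h0 : m ^ 3 = (univ : Finset (Lab m)).card := by simp
  rw [h0, ← smul_eq_mul (a := (univ : Finset (Lab m)).card), ← sum_const]
  refine sum_le_sum fun l _ => ?_
  have h1 : ((box R).filter fun s => ∃ r, (D P (r, l r) s).card ≤ ℓ ∧
      ∃ x ∈ D P (r, l r) s, ev c d x.1 s = ev c d x.2 s) ⊆
      (univ : Finset (Fin 3)).biUnion fun r => (box R).filter fun s => (D P (r, l r) s).card ≤ ℓ ∧
      ∃ x ∈ D P (r, l r) s, ev c d x.1 s = ev c d x.2 s := by
    intro s hs
    obtain ⟨hs1, r, hr⟩ := mem_filter.1 hs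
    exact mem_biUnion.2 ⟨r, mem_univ _, mem_filter.2 ⟨hs1, hr⟩⟩
  calc _ ≤ q * ∑ r : Fin 3, ((box R).filter fun s => (D P (r, l r) s).card ≤ ℓ ∧
      ∃ x ∈ D P (r, l r) s, ev c d x.1 s = ev c d x.2 s).card :=
        Nat.mul_le_mul_left _ ((card_le_card h1).trans card_biUnion_le)
    _ = ∑ r : Fin 3, q * ((box R).filter fun s => (D P (r, l r) s).card ≤ ℓ ∧
      ∃ x ∈ D P (r, l r) s, ev c d x.1 s = ev c d x.2 s).card := mul_sum _ _ _
    _ ≤ ∑ r : Fin 3, (2 * ℓ + 1) * (box R).card := by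
      refine sum_le_sum fun r _ => ?_
      refine le_trans (Nat.mul_le_mul_right _ (hR (r, l r))) ?_
      apply card_eqbad_le (P := P) ℓ (r, l r) _ (filter_subset _ _)
      intro s hs
      exact (mem_filter.1 hs).2
    _ = 3 * ((2 * ℓ + 1) * (box R).card) := by simp

open Classical in
lemma card_N3 (P : Alg c d) (ℓ T : ℕ) (hT : T ≤ m ^ 2) (R : Fin 3 × Fin m → ℕ) :
    ((box R ×ˢ (univ : Finset (Lab m))).filter fun p => (P.F p.1).card ≤ T ∧
      ∃ u ∈ P.F p.1, ∃ v ∈ P.F p.1, Cov (proj P ℓ p.1 u) (proj P ℓ p.1 v) p.2).card ≤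
      (box R).card * (1728 * T * m) := by
  rw [card_prod_filter (box R) (univ : Finset (Lab m)) (fun s l => (P.F s).card ≤ T ∧
      ∃ u ∈ P.F s, ∃ v ∈ P.F s, Cov (proj P ℓ s u) (proj P ℓ s v) l), ← smul_eq_mul, ← sum_const]
  refine sum_le_sum fun s _ => ?_
  by_cases hs : (P.F s).card ≤ T
  swap
  · simp [hs]
  have h1 : ((P.F s).image (proj P ℓ s)).card ≤ T := card_image_le.trans hs
  refine (Cover.card_le ((P.F s).image (proj P ℓ s)) _ ?_ (h1.trans hT)).trans ?_
  · intro l hl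
    obtain ⟨_, _, u, hu, v, hv, h⟩ := mem_filter.1 hl
    exact ⟨_, mem_image_of_mem _ hu, _, mem_image_of_mem _ hv, h⟩
  · exact Nat.mul_le_mul_right _ (Nat.mul_le_mul_left _ h1)

open Classical in
lemma card_N4 (P : Alg c d) (ℓ q : ℕ) (R : Fin 3 × Fin m → ℕ) (hR : ∀ b, q ≤ R b) :
    (q - ℓ) * ((box R ×ˢ (univ : Finset (Lab m))).filter fun p => p.1 ∈ Sb P ℓ R p.2).card ≤
      m ^ 3 * (ℓ * (box R).card) := by
  rw [card_prod_filter' (box R) (univ : Finset (Lab m)) (fun s l => s ∈ Sb P ℓ R l), mul_sum]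
  have h0 : m ^ 3 = (univ : Finset (Lab m)).card := by simp
  rw [h0, ← smul_eq_mul (a := (univ : Finset (Lab m)).card), ← sum_const]
  refine sum_le_sum fun l _ => ?_
  refine le_trans (Nat.mul_le_mul_left _ (card_le_card ?_)) (card_Sb_le (P := P) ℓ q R hR l)
  intro s hs
  exact (mem_filter.1 hs).2

open Classical in
lemma Bad_subset (P : Alg c d) (ℓ T : ℕ) (R : Fin 3 × Fin m → ℕ) : Bad P T R ⊆
    (((box R ×ˢ (univ : Finset (Lab m))).filter fun p => (P.F p.1).card ≤ T ∧
      ∃ r, ℓ < (D P (r, p.2 r) p.1).card) ∪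
    ((box R ×ˢ (univ : Finset (Lab m))).filter fun p => ∃ r, (D P (r, p.2 r) p.1).card ≤ ℓ ∧
      ∃ x ∈ D P (r, p.2 r) p.1, ev c d x.1 p.1 = ev c d x.2 p.1)) ∪
    (((box R ×ˢ (univ : Finset (Lab m))).filter fun p => (P.F p.1).card ≤ T ∧
      ∃ u ∈ P.F p.1, ∃ v ∈ P.F p.1, Cov (proj P ℓ p.1 u) (proj P ℓ p.1 v) p.2) ∪
    ((box R ×ˢ (univ : Finset (Lab m))).filter fun p => p.1 ∈ Sb P ℓ R p.2)) := by
  rintro ⟨s, l⟩ hp
  rw [Bad, mem_filter] at hp
  obtain ⟨hb, hT, hns⟩ := hp
  simp only at hT hns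
  simp only [mem_union, mem_filter]
  by_cases h1 : ∃ r, ℓ < (D P (r, l r) s).card
  · exact Or.inl (Or.inl ⟨hb, hT, h1⟩)
  push Not at h1
  by_cases h2 : ∃ r, (D P (r, l r) s).card ≤ ℓ ∧
      ∃ x ∈ D P (r, l r) s, ev c d x.1 s = ev c d x.2 s
  · exact Or.inl (Or.inr ⟨hb, h2⟩)
  push Not at h2
  right
  have hg : ∀ r, Good P ℓ (r, l r) s := fun r => ⟨h1 r, h2 r (h1 r)⟩
  obtain ⟨p, hp, hpe⟩ := exists_pair (hg 2) hns
  by_cases h3 : ∀ g, Good P ℓ g s → g ≠ (2, l 2) → cc c l p.1 g = cc c l p.2 g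
  · left
    exact ⟨hb, hT, p.1, (mem_D.1 hp).1.1, p.2, (mem_D.1 hp).1.2, case_a hg hp h3⟩
  · right
    push Not at h3
    obtain ⟨g, hg1, hg2, hg3⟩ := h3
    refine ⟨hb, ?_⟩
    rw [Sb, mem_filter]
    exact ⟨(mem_product.1 hb).1, h1 2, p, hp, hpe, g, hg1, hg2, hg3⟩

theorem card_Bad (P : Alg c d) (κ T ℓ q : ℕ)
    (hκ : ∀ s, ∀ u ∈ P.F s, (univ.filter fun b => c u b ≠ 0).card ≤ κ)
    (R : Fin 3 × Fin m → ℕ) (hR : ∀ b, q ≤ R b) (hT : T ≤ m ^ 2) (hℓ : 0 < ℓ) (hq : ℓ < q)
    (hm : 0 < m) :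
    ((Bad P T R).card : ℝ) ≤ (box R).card * (m : ℝ) ^ 3 * (2 * κ * T ^ 2 / (ℓ * m) +
      3 * (2 * ℓ + 1) / q + 1728 * T / m ^ 2 + ℓ / ((q : ℝ) - ℓ)) := by
  classical
  have h1 := (card_le_card (Bad_subset P ℓ T R)).trans ((card_union_le _ _).trans
    (add_le_add (card_union_le _ _) (card_union_le _ _)))
  have h2 := card_N1 P κ T ℓ hκ R
  have h3 := card_N2 P ℓ q R hR
  have h4 := card_N3 P ℓ T hT R
  have h5 := card_N4 P ℓ q R hR
  set a1 := ((box R ×ˢ (univ : Finset (Lab m))).filter fun p => (P.F p.1).card ≤ T ∧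
      ∃ r, ℓ < (D P (r, p.2 r) p.1).card).card
  set a2 := ((box R ×ˢ (univ : Finset (Lab m))).filter fun p => ∃ r, (D P (r, p.2 r) p.1).card ≤ ℓ ∧
      ∃ x ∈ D P (r, p.2 r) p.1, ev c d x.1 p.1 = ev c d x.2 p.1).card
  set a3 := ((box R ×ˢ (univ : Finset (Lab m))).filter fun p => (P.F p.1).card ≤ T ∧
      ∃ u ∈ P.F p.1, ∃ v ∈ P.F p.1, Cov (proj P ℓ p.1 u) (proj P ℓ p.1 v) p.2).card
  set a4 := ((box R ×ˢ (univ : Finset (Lab m))).filter fun p => p.1 ∈ Sb P ℓ R p.2).card
  have hℓ' : (0 : ℝ) < ℓ := by exact_mod_cast hℓ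
  have hq' : (ℓ : ℝ) < q := by exact_mod_cast hq
  have hm' : (0 : ℝ) < m := by exact_mod_cast hm
  have hb : (0 : ℝ) ≤ (box R).card := Nat.cast_nonneg _
  have e1 : ((a1 : ℕ) : ℝ) ≤ (box R).card * (m : ℝ) ^ 3 * (2 * κ * T ^ 2 / (ℓ * m)) := by
    have h6 : (ℓ : ℝ) * a1 ≤ (box R).card * (m ^ 2 * (2 * κ * T ^ 2)) := by exact_mod_cast h2
    have h7 : (box R).card * (m : ℝ) ^ 3 * (2 * κ * T ^ 2 / (ℓ * m)) =
        ((box R).card * (m ^ 2 * (2 * κ * T ^ 2))) / ℓ := by
      field_simp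
    rw [h7, le_div_iff₀ hℓ']
    linarith
  have e2 : ((a2 : ℕ) : ℝ) ≤ (box R).card * (m : ℝ) ^ 3 * (3 * (2 * ℓ + 1) / q) := by
    have h6 : (q : ℝ) * a2 ≤ m ^ 3 * (3 * ((2 * ℓ + 1) * (box R).card)) := by exact_mod_cast h3
    have h7 : (box R).card * (m : ℝ) ^ 3 * (3 * (2 * ℓ + 1) / q) =
        (m ^ 3 * (3 * ((2 * ℓ + 1) * (box R).card))) / q := by
      field_simp
    rw [h7, le_div_iff₀ (hℓ'.trans hq')]
    linarith
  have e3 : ((a3 : ℕ) : ℝ) ≤ (box R).card * (m : ℝ) ^ 3 * (1728 * T / m ^ 2) := by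
    have h6 : (a3 : ℝ) ≤ (box R).card * (1728 * T * m) := by exact_mod_cast h4
    have h7 : (box R).card * (m : ℝ) ^ 3 * (1728 * T / m ^ 2) =
        (box R).card * (1728 * T * m) := by
      field_simp
    rw [h7]
    exact h6
  have e4 : ((a4 : ℕ) : ℝ) ≤ (box R).card * (m : ℝ) ^ 3 * (ℓ / ((q : ℝ) - ℓ)) := by
    have h6 : ((q : ℝ) - ℓ) * a4 ≤ m ^ 3 * (ℓ * (box R).card) := by
      have : (((q - ℓ : ℕ) : ℝ)) * a4 ≤ m ^ 3 * (ℓ * (box R).card) := by exact_mod_cast h5
      rwa [Nat.cast_sub hq.le] at this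
    have h8 : (0 : ℝ) < q - ℓ := sub_pos.2 hq'
    have h7 : (box R).card * (m : ℝ) ^ 3 * (ℓ / ((q : ℝ) - ℓ)) =
        (m ^ 3 * (ℓ * (box R).card)) / ((q : ℝ) - ℓ) := by
      field_simp
    rw [h7, le_div_iff₀ h8]
    linarith
  have h8 : ((Bad P T R).card : ℝ) ≤ a1 + a2 + (a3 + a4) := by exact_mod_cast h1
  have h9 : (box R).card * (m : ℝ) ^ 3 * (2 * κ * T ^ 2 / (ℓ * m) +
      3 * (2 * ℓ + 1) / q + 1728 * T / m ^ 2 + ℓ / ((q : ℝ) - ℓ)) =
      (box R).card * (m : ℝ) ^ 3 * (2 * κ * T ^ 2 / (ℓ * m)) +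
      (box R).card * (m : ℝ) ^ 3 * (3 * (2 * ℓ + 1) / q) +
      (box R).card * (m : ℝ) ^ 3 * (1728 * T / m ^ 2) +
      (box R).card * (m : ℝ) ^ 3 * (ℓ / ((q : ℝ) - ℓ)) := by ring
  rw [h9]
  linarith

end labels

end Pool.Agent.J4.H80.Gen
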