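import Mathlib
import Pool.Agent.J4.H80.Gen

/-!
# Transcripts which see equalities, and some tests of labels: the counting argument
-/

set_option autoImplicit false
set_option linter.unusedSectionVars false

open Finset

namespace Pool.Agent.J4.H80.Hyb

open Gen Cover

section pbox

variable {B : Type*} [Fintype B] [DecidableEq B]

/-- product of finite sets -/
def pbox (A : B → Finset ℕ) : Finset (B → ℕ) := Fintype.piFinset A

variable {A : B → Finset ℕ}

lemma mem_pbox {s : B → ℕ} : s ∈ pbox A ↔ ∀ b, s b ∈ A b := by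
  simp [pbox]

lemma update_mem_pbox {s : B → ℕ} (hs : s ∈ pbox A) {b : B} {z : ℕ} (hz : z ∈ A b) :
    Function.update s b z ∈ pbox A := by
  rw [mem_pbox] at hs ⊢
  intro b'
  by_cases h : b' = b
  · subst h; simpa using hz
  · simpa [h] using hs b'

lemma pfiber_le (b : B) (c : ℕ) (S : Finset (B → ℕ)) (hS : S ⊆ pbox A)
    (h : ∀ s ∈ pbox A, ((A b).filter fun z => Function.update s b z ∈ S).card ≤ c) :
    (A b).card * S.card ≤ c * (pbox A).card := by
  classical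
  have h1 : (S ×ˢ A b).card ≤
      ((pbox A).sigma fun s => (A b).filter fun z => Function.update s b z ∈ S).card := by
    apply Finset.card_le_card_of_injOn (fun p => ⟨Function.update p.1 b p.2, p.1 b⟩)
    · rintro ⟨t, z⟩ htz
      have htz' : t ∈ S ∧ z ∈ A b := by simpa using htz
      have ht := hS htz'.1
      simp only [coe_sigma, Set.mem_sigma_iff, mem_coe, mem_filter]
      refine ⟨update_mem_pbox ht htz'.2, (mem_pbox.1 ht) b, ?_⟩
      simpa using htz'.1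
    · rintro ⟨t, z⟩ htz ⟨t', z'⟩ htz' heq
      simp only [Sigma.mk.injEq] at heq
      obtain ⟨h1, h2⟩ := heq
      have h2' : t b = t' b := eq_of_heq h2
      have hz : z = z' := by
        have := congrFun h1 b
        simpa using this
      have ht : t = t' := by
        funext b'
        by_cases hb : b' = b
        · subst hb; exact h2'
        · have := congrFun h1 b'
          simpa [hb] using this
      rw [ht, hz]
  rw [card_product, card_sigma] at h1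
  calc (A b).card * S.card = S.card * (A b).card := mul_comm _ _
    _ ≤ _ := h1
    _ ≤ ∑ s ∈ pbox A, c := sum_le_sum h
    _ = c * (pbox A).card := by rw [sum_const, smul_eq_mul, mul_comm]

end pbox

variable {m : ℕ} {Φ : Type*}

/-- the labels -/
def labs (m : ℕ) : Finset (Lab m) := univ.filter fun l => (l 0).val + (l 1).val = (l 2).val

/-- the data of an algorithm which sees the equalities among the computed forms, and tests some
labels -/
structure HAlg (c : Φ → Fin 3 × Fin m → ℝ) (d : Φ → ℝ) (A : Fin 3 × Fin m → Finset ℕ)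
    (L : Lab m → Fin 3 × Fin m → Finset ℕ) where
  /-- the computed forms -/
  F : (Fin 3 × Fin m → ℕ) → Finset Φ
  /-- the tested labels -/
  Lt : (Fin 3 × Fin m → ℕ) → Finset (Lab m)
  /-- the answer -/
  ans : (Fin 3 × Fin m → ℕ) → Bool
  /-- the pairs of forms which may be equal -/
  compat : Φ → Φ → Prop
  /-- equal forms are compatible -/
  hcompat : ∀ s ∈ pbox A, ∀ u ∈ F s, ∀ v ∈ F s, ev c d u s = ev c d v s → compat u v
  /-- two inputs are treated in the same way or they are distinguished by an equality -/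
  sep : ∀ s ∈ pbox A, ∀ t ∈ pbox A, (F s = F t ∧ Lt s = Lt t ∧ ans s = ans t) ∨
    ∃ u ∈ F s, ∃ v ∈ F s, u ∈ F t ∧ v ∈ F t ∧
      ¬ (ev c d u s = ev c d v s ↔ ev c d u t = ev c d v t)
  /-- a planted input is treated in the same way, or the label was tested, or it is distinguished
  by an equality -/
  sepP : ∀ l ∈ labs m, ∀ s ∈ pbox (L l), ans s = ans (plant s l) ∨ l ∈ Lt s ∨
    ∃ u ∈ F s, ∃ v ∈ F s, compat u v ∧
      ¬ (ev c d u s = ev c d v s ↔ ev c d u (plant s l) = ev c d v (plant s l))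

variable {c : Φ → Fin 3 × Fin m → ℝ} {d : Φ → ℝ} {A : Fin 3 × Fin m → Finset ℕ}
  {L : Lab m → Fin 3 × Fin m → Finset ℕ} (P : HAlg c d A L)

/-- the two inputs are treated in the same way -/
def HSame (s t : Fin 3 × Fin m → ℕ) : Prop :=
  P.F s = P.F t ∧ P.Lt s = P.Lt t ∧ P.ans s = P.ans t ∧
    ∀ u ∈ P.F s, ∀ v ∈ P.F s, (ev c d u s = ev c d v s ↔ ev c d u t = ev c d v t)

variable {P}

lemma hsep {s t : Fin 3 × Fin m → ℕ} (hs : s ∈ pbox A) (ht : t ∈ pbox A) (h : ¬ HSame P s t) :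
    ∃ u ∈ P.F s, ∃ v ∈ P.F s, u ∈ P.F t ∧ v ∈ P.F t ∧ P.compat u v ∧
    ¬ (ev c d u s = ev c d v s ↔ ev c d u t = ev c d v t) := by
  have h0 : ∃ u ∈ P.F s, ∃ v ∈ P.F s, u ∈ P.F t ∧ v ∈ P.F t ∧
      ¬ (ev c d u s = ev c d v s ↔ ev c d u t = ev c d v t) := by
    rcases P.sep s hs t ht with h1 | h1
    · by_contra hcon
      apply h
      refine ⟨h1.1, h1.2.1, h1.2.2, fun u hu v hv => ?_⟩
      by_contra hne
      exact hcon ⟨u, hu, v, hv, h1.1 ▸ hu, h1.1 ▸ hv, hne⟩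
    · exact h1
  obtain ⟨u, hu, v, hv, hu', hv', hne⟩ := h0
  refine ⟨u, hu, v, hv, hu', hv', ?_, hne⟩
  by_cases h1 : ev c d u s = ev c d v s
  · exact P.hcompat s hs u hu v hv h1
  · by_cases h2 : ev c d u t = ev c d v t
    · exact P.hcompat t ht u hu' v hv' h2
    · exact absurd ⟨fun h => absurd h h1, fun h => absurd h h2⟩ hne

variable (P)

open Classical in
/-- the compatible pairs of forms which differ in the coefficient at `b` -/
noncomputable def HD (b : Fin 3 × Fin m) (s : Fin 3 × Fin m → ℕ) : Finset (Φ × Φ) :=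
  (P.F s ×ˢ P.F s).filter fun p => c p.1 b ≠ c p.2 b ∧ P.compat p.1 p.2

/-- there is no equality between forms which depends on `b`, and few pairs depend on `b` -/
def HGood (ℓ : ℕ) (b : Fin 3 × Fin m) (s : Fin 3 × Fin m → ℕ) : Prop :=
  (HD P b s).card ≤ ℓ ∧ ∀ p ∈ HD P b s, ev c d p.1 s ≠ ev c d p.2 s

variable {P}

lemma mem_HD {b : Fin 3 × Fin m} {s : Fin 3 × Fin m → ℕ} {p : Φ × Φ} :
    p ∈ HD P b s ↔ (p.1 ∈ P.F s ∧ p.2 ∈ P.F s) ∧ c p.1 b ≠ c p.2 b ∧ P.compat p.1 p.2 := by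
  simp [HD]

lemma HSame.D_eq {s t : Fin 3 × Fin m → ℕ} (h : HSame P s t) (b : Fin 3 × Fin m) :
    HD P b s = HD P b t := by
  unfold HD
  rw [h.1]

lemma HSame.good {s t : Fin 3 × Fin m → ℕ} (h : HSame P s t) {ℓ : ℕ} {b : Fin 3 × Fin m}
    (hg : HGood P ℓ b s) : HGood P ℓ b t := by
  refine ⟨by rw [← h.D_eq]; exact hg.1, fun p hp => ?_⟩
  rw [← h.D_eq] at hp
  have h1 := mem_HD.1 hp
  intro h2
  exact hg.2 p hp ((h.2.2.2 p.1 h1.1.1 p.2 h1.1.2).2 h2)

lemma HSame.symm {s t : Fin 3 × Fin m → ℕ} (h : HSame P s t) : HSame P t s :=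
  ⟨h.1.symm, h.2.1.symm, h.2.2.1.symm,
    fun u hu v hv => (h.2.2.2 u (h.1 ▸ hu) v (h.1 ▸ hv)).symm⟩

lemma HSame.trans {s t r : Fin 3 × Fin m → ℕ} (h : HSame P s t) (h' : HSame P t r) :
    HSame P s r :=
  ⟨h.1.trans h'.1, h.2.1.trans h'.2.1, h.2.2.1.trans h'.2.2.1,
    fun u hu v hv => (h.2.2.2 u hu v hv).trans (h'.2.2.2 u (h.1 ▸ hu) v (h.1 ▸ hv))⟩

lemma HSame.good_iff {s t : Fin 3 × Fin m → ℕ} (h : HSame P s t) {ℓ : ℕ} {b : Fin 3 × Fin m} :
    HGood P ℓ b s ↔ HGood P ℓ b t := ⟨h.good, h.symm.good⟩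

/-- few points on a line are treated differently than a good point -/
lemma hcard_not_same_le {ℓ : ℕ} {b : Fin 3 × Fin m} {s : Fin 3 × Fin m → ℕ} (hs : s ∈ pbox A)
    (hg : HGood P ℓ b s) (S : Finset ℕ) (hSA : S ⊆ A b)
    (hS : ∀ z ∈ S, ¬ HSame P s (Function.update s b z)) : S.card ≤ ℓ := by
  classical
  have h1 : ∀ z ∈ S, ∃ p ∈ HD P b s,
      ev c d p.1 (Function.update s b z) = ev c d p.2 (Function.update s b z) := by
    intro z hz
    obtain ⟨u, hu, v, hv, -, -, hc, hne⟩ := hsep hs (update_mem_pbox hs (hSA hz)) (hS z hz)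
    have hD : c u b ≠ c v b := by
      apply coef_ne_of_sep (s := s) (z := s b) (z' := z)
      rwa [Function.update_eq_self]
    have hp : (u, v) ∈ HD P b s := mem_HD.2 ⟨⟨hu, hv⟩, hD, hc⟩
    refine ⟨(u, v), hp, ?_⟩
    have h2 := hg.2 _ hp
    simp only at h2 ⊢
    by_contra h3
    exact hne ⟨fun h => absurd h h2, fun h => absurd h h3⟩
  refine le_trans (card_le_card_of_forall_subsingleton
    (fun z p => ev c d p.1 (Function.update s b z) = ev c d p.2 (Function.update s b z)) h1 ?_) hg.1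
  rintro p hp z ⟨_, e1⟩ z' ⟨_, e2⟩
  exact root_unique (mem_HD.1 hp).2.1 e1 e2

/-- on each line there are few points with small load and an equality which depends on the
coordinate -/
lemma hcard_eq_le {ℓ : ℕ} {b : Fin 3 × Fin m} {s : Fin 3 × Fin m → ℕ} (hs : s ∈ pbox A)
    (S : Finset ℕ) (hSA : S ⊆ A b)
    (hS : ∀ z ∈ S, (HD P b (Function.update s b z)).card ≤ ℓ ∧
      ∃ p ∈ HD P b (Function.update s b z),
        ev c d p.1 (Function.update s b z) = ev c d p.2 (Function.update s b z)) :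
    S.card ≤ 2 * ℓ + 1 := by
  classical
  set x : ℕ → Fin 3 × Fin m → ℕ := fun z => Function.update s b z with hx
  set Out : ℕ → Finset ℕ := fun z => S.filter fun z' => ∃ p ∈ HD P b (x z),
    ev c d p.1 (x z') = ev c d p.2 (x z') with hOut
  have h1 : ∀ z ∈ S, (Out z).card ≤ ℓ := by
    intro z hz
    have h2 : ∀ z' ∈ Out z, ∃ p ∈ HD P b (x z), ev c d p.1 (x z') = ev c d p.2 (x z') :=
      fun z' hz' => (mem_filter.1 hz').2
    refine le_trans (card_le_card_of_forall_subsingleton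
      (fun z' p => ev c d p.1 (x z') = ev c d p.2 (x z')) h2 ?_) (hS z hz).1
    rintro p hp z' ⟨_, e1⟩ z'' ⟨_, e2⟩
    exact root_unique (mem_HD.1 hp).2.1 e1 e2
  have h2 : ∀ z ∈ S, ∀ z' ∈ S, z ≠ z' → z' ∈ Out z ∨ z ∈ Out z' := by
    intro z hz z' hz' hne
    have h3 : ¬ HSame P (x z) (x z') := by
      intro h4
      obtain ⟨p, hp, hpe⟩ := (hS z hz).2
      have h5 := mem_HD.1 hp
      have h6 := (h4.2.2.2 p.1 h5.1.1 p.2 h5.1.2).1 hpe
      exact hne (root_unique h5.2.1 hpe h6)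
    obtain ⟨u, hu, v, hv, hu', hv', hc, hsep⟩ := hsep (update_mem_pbox hs (hSA hz))
      (update_mem_pbox hs (hSA hz')) h3
    have hD : c u b ≠ c v b := coef_ne_of_sep hsep
    by_cases h4 : ev c d u (x z) = ev c d v (x z)
    · right
      refine mem_filter.2 ⟨hz, (u, v), mem_HD.2 ⟨⟨hu', hv'⟩, hD, hc⟩, h4⟩
    · left
      refine mem_filter.2 ⟨hz', (u, v), mem_HD.2 ⟨⟨hu, hv⟩, hD, hc⟩, ?_⟩
      by_contra h5
      exact hsep ⟨fun h => absurd h h4, fun h => absurd h h5⟩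
  have h3 : S.offDiag.card ≤ (S.sigma Out).card + (S.sigma Out).card := by
    have h4 : S.offDiag ⊆ ((S.sigma Out).image fun p => (p.1, p.2)) ∪
        ((S.sigma Out).image fun p => (p.2, p.1)) := by
      rintro ⟨z, z'⟩ hzz
      rw [mem_offDiag] at hzz
      rw [mem_union, mem_image, mem_image]
      rcases h2 z hzz.1 z' hzz.2.1 hzz.2.2 with h5 | h5
      · exact Or.inl ⟨⟨z, z'⟩, mem_sigma.2 ⟨hzz.1, h5⟩, rfl⟩
      · exact Or.inr ⟨⟨z', z⟩, mem_sigma.2 ⟨hzz.2.1, h5⟩, rfl⟩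
    refine (card_le_card h4).trans ((card_union_le _ _).trans ?_)
    exact add_le_add card_image_le card_image_le
  rw [offDiag_card, card_sigma] at h3
  have h4 : ∑ z ∈ S, (Out z).card ≤ S.card * ℓ := by
    calc ∑ z ∈ S, (Out z).card ≤ ∑ z ∈ S, ℓ := sum_le_sum h1
      _ = S.card * ℓ := by rw [sum_const, smul_eq_mul]
  rcases Nat.eq_zero_or_pos S.card with h5 | h5
  · omega
  · have h6 : S.card * S.card ≤ S.card * (2 * ℓ + 1) := by
      have : S.card * (2 * ℓ + 1) = S.card * ℓ + S.card * ℓ + S.card := by ring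
      omega
    exact Nat.le_of_mul_le_mul_left h6 h5

lemma hcard_eqbad_le (ℓ : ℕ) {H : Fin 3 × Fin m → Finset ℕ} (hH : ∀ b, H b ⊆ A b)
    (b : Fin 3 × Fin m) (S : Finset (Fin 3 × Fin m → ℕ)) (hS : S ⊆ pbox H)
    (h : ∀ s ∈ S, (HD P b s).card ≤ ℓ ∧ ∃ p ∈ HD P b s, ev c d p.1 s = ev c d p.2 s) :
    (H b).card * S.card ≤ (2 * ℓ + 1) * (pbox H).card := by
  classical
  apply pfiber_le b _ S hS
  intro s hs
  have hs' : s ∈ pbox A := mem_pbox.2 fun b' => hH b' (mem_pbox.1 hs b')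
  apply hcard_eq_le (P := P) (b := b) hs' _ ((filter_subset _ _).trans (hH b))
  intro z hz
  exact h _ (mem_filter.1 hz).2

open Classical in
/-- the inputs at which a pair sees the planted solution through another coordinate -/
noncomputable def HSb (P : HAlg c d A L) (ℓ : ℕ) (l : Lab m) : Finset (Fin 3 × Fin m → ℕ) :=
  (pbox (L l)).filter fun s => (HD P (2, l 2) s).card ≤ ℓ ∧ ∃ p ∈ HD P (2, l 2) s,
    ev c d p.1 (plant s l) = ev c d p.2 (plant s l) ∧
      ∃ g, HGood P ℓ g s ∧ g ≠ (2, l 2) ∧ cc c l p.1 g ≠ cc c l p.2 g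

open Classical in
/-- the good coordinates through which the pair `p` sees the solution -/
noncomputable def HGs (P : HAlg c d A L) (ℓ : ℕ) (l : Lab m) (s : Fin 3 × Fin m → ℕ)
    (p : Φ × Φ) : Finset (Fin 3 × Fin m) :=
  univ.filter fun g => HGood P ℓ g s ∧ g ≠ (2, l 2) ∧ cc c l p.1 g ≠ cc c l p.2 g

lemma HSame.Gs_eq {ℓ : ℕ} {l : Lab m} {s t : Fin 3 × Fin m → ℕ} (h : HSame P s t) (p : Φ × Φ) :
    HGs P ℓ l s p = HGs P ℓ l t p := by
  unfold HGs
  ext g
  simp only [mem_filter, mem_univ, true_and]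
  rw [h.good_iff]

lemma card_HSb_le (ℓ q : ℕ) (l : Lab m) (hL : ∀ b, L l b ⊆ A b) (hLq : ∀ b, q ≤ (L l b).card) :
    (q - ℓ) * (HSb P ℓ l).card ≤ ℓ * (pbox (L l)).card := by
  classical
  set S := HSb P ℓ l with hSdef
  have h1 : ∀ s ∈ S, ∃ p : Φ × Φ, p ∈ HD P (2, l 2) s ∧
      ev c d p.1 (plant s l) = ev c d p.2 (plant s l) ∧ (HGs P ℓ l s p).Nonempty := by
    intro s hs
    rw [hSdef, HSb, mem_filter] at hs
    obtain ⟨_, _, p, hp, he, g, hg⟩ := hs
    exact ⟨p, hp, he, g, mem_filter.2 ⟨mem_univ _, hg⟩⟩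
  rcases S.eq_empty_or_nonempty with hS | ⟨s0, hs0⟩
  · rw [hS]; simp
  have : Nonempty (Φ × Φ) := ⟨(h1 s0 hs0).choose⟩
  choose! f hf hfe hfG using h1
  set γ : (Fin 3 × Fin m → ℕ) → Fin 3 × Fin m := fun s => pick l (HGs P ℓ l s (f s)) with hγ
  have hγm : ∀ s ∈ S, HGood P ℓ (γ s) s ∧ γ s ≠ (2, l 2) ∧
      cc c l (f s).1 (γ s) ≠ cc c l (f s).2 (γ s) := by
    intro s hs
    have := pick_mem l (hfG s hs)
    rw [HGs, mem_filter] at this
    exact this.2
  set A' : Finset (Σ _ : Fin 3 × Fin m → ℕ, ℕ) :=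
    S.sigma fun s => (L l (γ s)).filter fun z => HSame P s (Function.update s (γ s) z) with hA'
  set C : Finset (Σ _ : Fin 3 × Fin m → ℕ, Φ × Φ) :=
    ((pbox (L l)).filter fun s => (HD P (2, l 2) s).card ≤ ℓ).sigma fun s => HD P (2, l 2) s with hC
  have hSb : ∀ s ∈ S, s ∈ pbox (L l) ∧ (HD P (2, l 2) s).card ≤ ℓ := by
    intro s hs
    rw [hSdef, HSb, mem_filter] at hs
    exact ⟨hs.1, hs.2.1⟩
  have h2 : A'.card ≤ C.card := by
    apply card_le_card_of_injOn (fun x => ⟨Function.update x.1 (γ x.1) x.2, f x.1⟩)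
    · rintro ⟨s, z⟩ hx
      rw [mem_coe, hA', mem_sigma, mem_filter] at hx
      obtain ⟨hs, hz, hsame⟩ := hx
      simp only at hs hz hsame
      rw [mem_coe, hC, mem_sigma, mem_filter]
      refine ⟨⟨update_mem_pbox (hSb s hs).1 hz, ?_⟩, ?_⟩
      · simp only
        rw [← hsame.D_eq]
        exact (hSb s hs).2
      · simp only
        rw [← hsame.D_eq]
        exact hf s hs
    · rintro ⟨s, z⟩ hx ⟨t, z'⟩ hx' heq
      rw [mem_coe, hA', mem_sigma, mem_filter] at hx hx'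
      obtain ⟨hs, hz, hsame⟩ := hx
      obtain ⟨ht, hz', hsame'⟩ := hx'
      simp only at hs hz hsame ht hz' hsame'
      simp only [Sigma.mk.injEq] at heq
      obtain ⟨heq1, heq2⟩ := heq
      have heq2' : f s = f t := eq_of_heq heq2
      have hγe : γ s = γ t := by
        have e1 : HGs P ℓ l s (f s) = HGs P ℓ l t (f t) := by
          rw [hsame.Gs_eq (f s), hsame'.Gs_eq (f t), heq1, heq2']
        simp only [hγ]
        rw [e1]
      have htu : t = Function.update s (γ s) (t (γ s)) := by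
        funext b
        by_cases hb : b = γ s
        · rw [hb]; simp
        · rw [Function.update_of_ne hb]
          have := congrFun heq1 b
          rw [Function.update_of_ne hb, Function.update_of_ne (hγe ▸ hb)] at this
          exact this.symm
      have hval : t (γ s) = s (γ s) := by
        obtain ⟨_, hg2, hg3⟩ := hγm s hs
        have e1 := hfe s hs
        have e2 := hfe t ht
        rw [← heq2', htu, ev_plant_update _ _ _ _ hg2, ev_plant_update _ _ _ _ hg2] at e2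
        have e3 : (cc c l (f s).1 (γ s) - cc c l (f s).2 (γ s)) *
            (((t (γ s) : ℕ) : ℝ) - s (γ s)) = 0 := by
          linear_combination e2 - e1
        rcases mul_eq_zero.1 e3 with h4 | h4
        · exact absurd (sub_eq_zero.1 h4) hg3
        · exact_mod_cast sub_eq_zero.1 h4
      have hst : s = t := by
        rw [htu, hval, Function.update_eq_self]
      subst hst
      have hzz : z = z' := by
        have := congrFun heq1 (γ s)
        simpa using this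
      rw [hzz]
  have h3 : C.card ≤ ℓ * (pbox (L l)).card := by
    rw [hC, card_sigma]
    calc _ ≤ ∑ s ∈ (pbox (L l)).filter (fun s => (HD P (2, l 2) s).card ≤ ℓ), ℓ :=
          sum_le_sum fun s hs => (mem_filter.1 hs).2
      _ ≤ ∑ s ∈ pbox (L l), ℓ := sum_le_sum_of_subset (filter_subset _ _)
      _ = ℓ * (pbox (L l)).card := by rw [sum_const, smul_eq_mul, mul_comm]
  have h4 : (q - ℓ) * S.card ≤ A'.card := by
    rw [hA', card_sigma]
    have h5 : ∀ s ∈ S, q - ℓ ≤ ((L l (γ s)).filter fun z =>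
        HSame P s (Function.update s (γ s) z)).card := by
      intro s hs
      have hsA : s ∈ pbox A := mem_pbox.2 fun b' => hL b' (mem_pbox.1 (hSb s hs).1 b')
      have h6 := hcard_not_same_le hsA (hγm s hs).1 ((L l (γ s)).filter fun z =>
        ¬ HSame P s (Function.update s (γ s) z)) ((filter_subset _ _).trans (hL _))
        (fun z hz => (mem_filter.1 hz).2)
      have h7 := card_filter_add_card_filter_not (s := L l (γ s))
        (fun z => HSame P s (Function.update s (γ s) z))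
      have := hLq (γ s)
      omega
    calc (q - ℓ) * S.card = ∑ s ∈ S, (q - ℓ) := by rw [sum_const, smul_eq_mul, mul_comm]
      _ ≤ _ := sum_le_sum h5
  exact h4.trans (h2.trans h3)

/-! ### Putting everything together -/

/-- lower the first two numbers of the label -/
def low (s : Fin 3 × Fin m → ℕ) (l : Lab m) (z z' : ℕ) : Fin 3 × Fin m → ℕ :=
  Function.update (Function.update s (0, l 0) z) (1, l 1) z'

lemma card_labs_fix (r : Fin 3) (a : Fin m) : ((labs m).filter fun l => l r = a).card ≤ m := by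
  classical
  have key : ∀ (r' : Fin 3), (∀ l ∈ labs m, ∀ l' ∈ labs m, l r = l' r → l r' = l' r' → l = l') →
      ((labs m).filter fun l => l r = a).card ≤ m := by
    intro r' h
    have h1 : ((labs m).filter fun l => l r = a).card ≤ (univ : Finset (Fin m)).card := by
      apply card_le_card_of_injOn (fun l => l r') (fun l _ => mem_univ _)
      intro l hl l' hl' heq
      have e1 := mem_filter.1 hl
      have e2 := mem_filter.1 hl'
      exact h l e1.1 l' e2.1 (e1.2.trans e2.2.symm) heq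
    simpa using h1
  have hext : ∀ l ∈ labs m, ∀ l' ∈ labs m, (l 0).val = (l' 0).val → (l 1).val = (l' 1).val →
      (l 2).val = (l' 2).val → l = l' := by
    intro l _ l' _ h0 h1 h2
    funext i
    fin_cases i
    · exact Fin.ext h0
    · exact Fin.ext h1
    · exact Fin.ext h2
  fin_cases r
  · refine key 1 fun l hl l' hl' h0 h1 => ?_
    have e1 := (mem_filter.1 hl).2
    have e2 := (mem_filter.1 hl').2
    have f0 : (l 0).val = (l' 0).val := congrArg Fin.val h0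
    have f1 : (l 1).val = (l' 1).val := congrArg Fin.val h1
    exact hext l hl l' hl' f0 f1 (by omega)
  · refine key 0 fun l hl l' hl' h1 h0 => ?_
    have e1 := (mem_filter.1 hl).2
    have e2 := (mem_filter.1 hl').2
    have f0 : (l 0).val = (l' 0).val := congrArg Fin.val h0
    have f1 : (l 1).val = (l' 1).val := congrArg Fin.val h1
    exact hext l hl l' hl' f0 f1 (by omega)
  · refine key 0 fun l hl l' hl' h2 h0 => ?_
    have e1 := (mem_filter.1 hl).2
    have e2 := (mem_filter.1 hl').2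
    have f0 : (l 0).val = (l' 0).val := congrArg Fin.val h0
    have f2 : (l 2).val = (l' 2).val := congrArg Fin.val h2
    exact hext l hl l' hl' f0 (by omega) f2

lemma card_labs_ge (m : ℕ) : m ^ 2 ≤ 2 * (labs m).card := by
  classical
  set T : Finset (Fin m × Fin m) := univ.filter fun p => p.1.val + p.2.val < m with hT
  have h1 : T.card ≤ (labs m).card := by
    apply card_le_card_of_injOn (fun p => if h : p.1.val + p.2.val < m then
      ![p.1, p.2, ⟨p.1.val + p.2.val, h⟩] else ![p.1, p.2, p.1])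
    · intro p hp
      have hp' : p.1.val + p.2.val < m := (mem_filter.1 hp).2
      rw [mem_coe, labs, mem_filter]
      simp only [dif_pos hp']
      exact ⟨mem_univ _, rfl⟩
    · intro p hp p' hp' heq
      have e1 : p.1.val + p.2.val < m := (mem_filter.1 hp).2
      have e2 : p'.1.val + p'.2.val < m := (mem_filter.1 hp').2
      simp only [dif_pos e1, dif_pos e2] at heq
      exact Prod.ext (congrFun heq 0) (congrFun heq 1)
  have h2 : (univ : Finset (Fin m × Fin m)) ⊆ T ∪ T.image fun p => (p.1.rev, p.2.rev) := by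
    rintro ⟨i, j⟩ _
    rw [mem_union, mem_image]
    by_cases h : i.val + j.val < m
    · exact Or.inl (mem_filter.2 ⟨mem_univ _, h⟩)
    · right
      refine ⟨(i.rev, j.rev), mem_filter.2 ⟨mem_univ _, ?_⟩, by simp⟩
      simp only [Fin.val_rev]
      have := i.isLt
      have := j.isLt
      omega
  have h3 := (card_le_card h2).trans (card_union_le _ _)
  have h4 : (T.image fun p => (p.1.rev, p.2.rev)).card ≤ T.card := card_image_le
  have h5 : (univ : Finset (Fin m × Fin m)).card = m ^ 2 := by simp [sq]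
  omega

section main

open Classical in
/-- the tuples at which a short run notices the planted solution -/
noncomputable def HBad (P : HAlg c d A L) (T : ℕ) (H : Fin 3 × Fin m → Finset ℕ) (Lo : Finset ℕ) :
    Finset (((Fin 3 × Fin m → ℕ) × Lab m) × (ℕ × ℕ)) :=
  ((pbox H ×ˢ labs m) ×ˢ (Lo ×ˢ Lo)).filter fun w => (P.F w.1.1).card ≤ T ∧
    (P.Lt w.1.1).card ≤ T ∧ P.ans w.1.1 ≠ P.ans (plant (low w.1.1 w.1.2 w.2.1 w.2.2) w.1.2)

/-- the label is covered by a pair of forms -/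
def Covd (P : HAlg c d A L) (s : Fin 3 × Fin m → ℕ) (l : Lab m) : Prop :=
  ∃ u ∈ P.F s, ∃ v ∈ P.F s, ∀ r, c u (r, l r) ≠ c v (r, l r)

variable (P : HAlg c d A L) (T ℓ q : ℕ) (H : Fin 3 × Fin m → Finset ℕ) (Lo : Finset ℕ)
  (hH : ∀ b, H b ⊆ A b) (hHq : ∀ b, (H b).card = q) (hLo : ∀ a, Lo ⊆ A (0, a))
  (hLo' : ∀ a, Lo ⊆ A (1, a)) (hLoq : Lo.card = q)
  (hL : ∀ l b, L l b = if b = (0, l 0) ∨ b = (1, l 1) then Lo else H b)

open Classical in
include hL in
lemma split_subset : HBad P T H Lo ⊆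
    (((pbox H ×ˢ labs m) ×ˢ (Lo ×ˢ Lo)).filter fun w => (P.F w.1.1).card ≤ T ∧
      ∃ r, ℓ < (HD P (r, w.1.2 r) w.1.1).card) ∪
    (((pbox H ×ˢ labs m) ×ˢ (Lo ×ˢ Lo)).filter fun w => ∃ r,
      (HD P (r, w.1.2 r) w.1.1).card ≤ ℓ ∧ ∃ x ∈ HD P (r, w.1.2 r) w.1.1,
        ev c d x.1 w.1.1 = ev c d x.2 w.1.1) ∪
    (((pbox H ×ˢ labs m) ×ˢ (Lo ×ˢ Lo)).filter fun w => HGood P ℓ (0, w.1.2 0) w.1.1 ∧
      ¬ HSame P w.1.1 (Function.update w.1.1 (0, w.1.2 0) w.2.1)) ∪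
    (((pbox H ×ˢ labs m) ×ˢ (Lo ×ˢ Lo)).filter fun w =>
      HGood P ℓ (1, w.1.2 1) (Function.update w.1.1 (0, w.1.2 0) w.2.1) ∧
      ¬ HSame P (Function.update w.1.1 (0, w.1.2 0) w.2.1)
        (low w.1.1 w.1.2 w.2.1 w.2.2)) ∪
    (((pbox H ×ˢ labs m) ×ˢ (Lo ×ˢ Lo)).filter fun w => (P.Lt w.1.1).card ≤ T ∧
      w.1.2 ∈ P.Lt w.1.1) ∪
    (((pbox H ×ˢ labs m) ×ˢ (Lo ×ˢ Lo)).filter fun w => (P.F w.1.1).card ≤ T ∧
      Covd P w.1.1 w.1.2) ∪
    (((pbox H ×ˢ labs m) ×ˢ (Lo ×ˢ Lo)).filter fun w =>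
      low w.1.1 w.1.2 w.2.1 w.2.2 ∈ HSb P ℓ w.1.2) := by
  rintro ⟨⟨s, l⟩, z, z'⟩ hw
  rw [HBad, mem_filter] at hw
  obtain ⟨hb, hT1, hT2, hans⟩ := hw
  simp only at hT1 hT2 hans
  simp only [mem_union, mem_filter, hb, true_and]
  have hb' := hb
  simp only [mem_product] at hb'
  obtain ⟨⟨hs, hl⟩, hz, hz'⟩ := hb'
  by_cases h1 : ∃ r, ℓ < (HD P (r, l r) s).card
  · exact Or.inl (Or.inl (Or.inl (Or.inl (Or.inl (Or.inl ⟨hT1, h1⟩)))))
  push Not at h1
  by_cases h2 : ∃ r, (HD P (r, l r) s).card ≤ ℓ ∧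
      ∃ x ∈ HD P (r, l r) s, ev c d x.1 s = ev c d x.2 s
  · exact Or.inl (Or.inl (Or.inl (Or.inl (Or.inl (Or.inr h2)))))
  push Not at h2
  have hg : ∀ r, HGood P ℓ (r, l r) s := fun r => ⟨h1 r, h2 r (h1 r)⟩
  by_cases h3 : HSame P s (Function.update s (0, l 0) z)
  swap
  · exact Or.inl (Or.inl (Or.inl (Or.inl (Or.inr ⟨hg 0, h3⟩))))
  by_cases h4 : HSame P (Function.update s (0, l 0) z) (low s l z z')
  swap
  · exact Or.inl (Or.inl (Or.inl (Or.inr ⟨h3.good (hg 1), h4⟩)))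
  have h5 : HSame P s (low s l z z') := h3.trans h4
  by_cases h6 : l ∈ P.Lt s
  · exact Or.inl (Or.inl (Or.inr ⟨hT2, h6⟩))
  by_cases h7 : Covd P s l
  · exact Or.inl (Or.inr ⟨hT1, h7⟩)
  right
  have hlow : low s l z z' ∈ pbox (L l) := by
    rw [mem_pbox]
    intro b
    rw [hL]
    unfold low
    by_cases hb1 : b = (1, l 1)
    · rw [if_pos (Or.inr hb1), hb1]
      simpa using hz'
    · rw [Function.update_of_ne hb1]
      by_cases hb0 : b = (0, l 0)
      · rw [if_pos (Or.inl hb0), hb0]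
        simpa using hz
      · rw [Function.update_of_ne hb0, if_neg (not_or.2 ⟨hb0, hb1⟩)]
        exact mem_pbox.1 hs b
  rcases P.sepP l hl _ hlow with h8 | h8 | ⟨u, hu, v, hv, hc, hne⟩
  · exact absurd (h5.2.2.1.trans h8) hans
  · rw [← h5.2.1] at h8
    exact absurd h8 h6
  have hg' : ∀ r, HGood P ℓ (r, l r) (low s l z z') := fun r => h5.good (hg r)
  have hD : c u (2, l 2) ≠ c v (2, l 2) := by
    apply coef_ne_of_sep (s := low s l z z') (z := low s l z z' (2, l 2))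
      (z' := low s l z z' (0, l 0) + low s l z z' (1, l 1))
    rw [Function.update_eq_self]
    exact hne
  have hp : (u, v) ∈ HD P (2, l 2) (low s l z z') := mem_HD.2 ⟨⟨hu, hv⟩, hD, hc⟩
  have hev : ev c d u (plant (low s l z z') l) = ev c d v (plant (low s l z z') l) := by
    have h9 := (hg' 2).2 _ hp
    simp only at h9
    by_contra h10
    exact hne ⟨fun h => absurd h h9, fun h => absurd h h10⟩
  rw [HSb, mem_filter]
  refine ⟨hlow, (hg' 2).1, (u, v), hp, hev, ?_⟩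
  by_contra hcon
  push Not at hcon
  apply h7
  rw [← h5.1] at hu hv
  refine ⟨u, hu, v, hv, fun r => ?_⟩
  by_cases hr2 : r = 2
  · subst hr2; exact hD
  · have hk' : ((r, l r) : Fin 3 × Fin m) ≠ (2, l 2) := by
      rintro h'
      simp only [Prod.mk.injEq] at h'
      exact hr2 h'.1
    have h1 := hcon (r, l r) (hg' r) hk'
    intro h2
    simp only at h1
    unfold cc at h1
    rw [h2] at h1
    have h3 : r = 0 ∨ r = 1 := by
      fin_cases r
      · left; rfl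
      · right; rfl
      · exact absurd rfl hr2
    apply hD
    rcases h3 with rfl | rfl
    · simpa using h1
    · simpa using h1

include hLoq in
lemma card_filter_left (K : (Fin 3 × Fin m → ℕ) × Lab m → Prop) [DecidablePred K] :
    (((pbox H ×ˢ labs m) ×ˢ (Lo ×ˢ Lo)).filter fun w => K w.1).card =
      ((pbox H ×ˢ labs m).filter K).card * q ^ 2 := by
  have : (((pbox H ×ˢ labs m) ×ˢ (Lo ×ˢ Lo)).filter fun w => K w.1) =
      ((pbox H ×ˢ labs m).filter K) ×ˢ (Lo ×ˢ Lo) := by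
    ext ⟨x, y⟩
    simp only [mem_filter, mem_product]
    tauto
  rw [this, card_product, card_product, hLoq]
  ring

open Classical in
include hLoq in
lemma card_E1 (Λ : ℕ) (hload : ∀ s ∈ pbox H, (P.F s).card ≤ T → ∑ b, (HD P b s).card ≤ Λ) :
    ℓ * (((pbox H ×ˢ labs m) ×ˢ (Lo ×ˢ Lo)).filter fun w => (P.F w.1.1).card ≤ T ∧
      ∃ r, ℓ < (HD P (r, w.1.2 r) w.1.1).card).card ≤ (pbox H).card * (m * Λ) * q ^ 2 := by
  rw [card_filter_left q H Lo hLoq (fun x => (P.F x.1).card ≤ T ∧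
      ∃ r, ℓ < (HD P (r, x.2 r) x.1).card), ← mul_assoc]
  apply Nat.mul_le_mul_right
  rw [card_prod_filter (pbox H) (labs m) (fun s l => (P.F s).card ≤ T ∧
      ∃ r, ℓ < (HD P (r, l r) s).card), mul_sum, ← smul_eq_mul, ← sum_const]
  refine sum_le_sum fun s hs => ?_
  by_cases hT : (P.F s).card ≤ T
  swap
  · simp [hT]
  set G : Finset (Fin 3 × Fin m) := univ.filter fun b => ℓ < (HD P b s).card with hG
  have h1 : ((labs m).filter fun l => (P.F s).card ≤ T ∧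
      ∃ r, ℓ < (HD P (r, l r) s).card) ⊆ G.biUnion fun b => (labs m).filter fun l => l b.1 = b.2 := by
    intro l hl
    obtain ⟨hl0, _, r, hr⟩ := mem_filter.1 hl
    rw [mem_biUnion]
    exact ⟨(r, l r), mem_filter.2 ⟨mem_univ _, hr⟩, mem_filter.2 ⟨hl0, rfl⟩⟩
  have h2 : ((labs m).filter fun l => (P.F s).card ≤ T ∧
      ∃ r, ℓ < (HD P (r, l r) s).card).card ≤ G.card * m := by
    refine (card_le_card h1).trans (card_biUnion_le.trans ?_)
    calc _ ≤ ∑ b ∈ G, m := sum_le_sum fun b _ => card_labs_fix b.1 b.2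
      _ = G.card * m := by rw [sum_const, smul_eq_mul]
  have h3 : ℓ * G.card ≤ Λ := by
    calc ℓ * G.card = ∑ b ∈ G, ℓ := by rw [sum_const, smul_eq_mul, mul_comm]
      _ ≤ ∑ b ∈ G, (HD P b s).card := sum_le_sum fun b hb => (mem_filter.1 hb).2.le
      _ ≤ ∑ b, (HD P b s).card := sum_le_sum_of_subset (subset_univ _)
      _ ≤ Λ := hload s hs hT
  calc _ ≤ ℓ * (G.card * m) := Nat.mul_le_mul_left _ h2
    _ = m * (ℓ * G.card) := by ring
    _ ≤ m * Λ := Nat.mul_le_mul_left _ h3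

open Classical in
include hLoq hH hHq in
lemma card_E2 :
    q * (((pbox H ×ˢ labs m) ×ˢ (Lo ×ˢ Lo)).filter fun w => ∃ r,
      (HD P (r, w.1.2 r) w.1.1).card ≤ ℓ ∧ ∃ x ∈ HD P (r, w.1.2 r) w.1.1,
        ev c d x.1 w.1.1 = ev c d x.2 w.1.1).card ≤
      (labs m).card * (3 * ((2 * ℓ + 1) * (pbox H).card)) * q ^ 2 := by
  rw [card_filter_left q H Lo hLoq (fun y => ∃ r,
      (HD P (r, y.2 r) y.1).card ≤ ℓ ∧ ∃ x ∈ HD P (r, y.2 r) y.1,
        ev c d x.1 y.1 = ev c d x.2 y.1), ← mul_assoc]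
  apply Nat.mul_le_mul_right
  rw [card_prod_filter' (pbox H) (labs m) (fun s l => ∃ r,
    (HD P (r, l r) s).card ≤ ℓ ∧ ∃ x ∈ HD P (r, l r) s, ev c d x.1 s = ev c d x.2 s), mul_sum]
  rw [← smul_eq_mul (a := (labs m).card), ← sum_const]
  refine sum_le_sum fun l _ => ?_
  have h1 : ((pbox H).filter fun s => ∃ r, (HD P (r, l r) s).card ≤ ℓ ∧
      ∃ x ∈ HD P (r, l r) s, ev c d x.1 s = ev c d x.2 s) ⊆
      (univ : Finset (Fin 3)).biUnion fun r => (pbox H).filter fun s =>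
      (HD P (r, l r) s).card ≤ ℓ ∧ ∃ x ∈ HD P (r, l r) s, ev c d x.1 s = ev c d x.2 s := by
    intro s hs
    obtain ⟨hs1, r, hr⟩ := mem_filter.1 hs
    exact mem_biUnion.2 ⟨r, mem_univ _, mem_filter.2 ⟨hs1, hr⟩⟩
  calc _ ≤ q * ∑ r : Fin 3, ((pbox H).filter fun s => (HD P (r, l r) s).card ≤ ℓ ∧
      ∃ x ∈ HD P (r, l r) s, ev c d x.1 s = ev c d x.2 s).card :=
        Nat.mul_le_mul_left _ ((card_le_card h1).trans card_biUnion_le)
    _ = ∑ r : Fin 3, q * ((pbox H).filter fun s => (HD P (r, l r) s).card ≤ ℓ ∧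
      ∃ x ∈ HD P (r, l r) s, ev c d x.1 s = ev c d x.2 s).card := mul_sum _ _ _
    _ ≤ ∑ r : Fin 3, (2 * ℓ + 1) * (pbox H).card := by
      refine sum_le_sum fun r _ => ?_
      rw [← hHq (r, l r)]
      apply hcard_eqbad_le (P := P) ℓ hH (r, l r) _ (filter_subset _ _)
      intro s hs
      exact (mem_filter.1 hs).2
    _ = 3 * ((2 * ℓ + 1) * (pbox H).card) := by simp

open Classical in
include hLoq hH hLo in
lemma card_E3 :
    (((pbox H ×ˢ labs m) ×ˢ (Lo ×ˢ Lo)).filter fun w => HGood P ℓ (0, w.1.2 0) w.1.1 ∧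
      ¬ HSame P w.1.1 (Function.update w.1.1 (0, w.1.2 0) w.2.1)).card ≤
      (pbox H).card * (labs m).card * (ℓ * q) := by
  rw [card_prod_filter (pbox H ×ˢ labs m) (Lo ×ˢ Lo) (fun x y => HGood P ℓ (0, x.2 0) x.1 ∧
      ¬ HSame P x.1 (Function.update x.1 (0, x.2 0) y.1)), ← card_product, ← smul_eq_mul,
      ← sum_const]
  refine sum_le_sum fun x hx => ?_
  rw [card_prod_filter' Lo Lo (fun z _ => HGood P ℓ (0, x.2 0) x.1 ∧
      ¬ HSame P x.1 (Function.update x.1 (0, x.2 0) z))]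
  rw [sum_const, hLoq, smul_eq_mul, mul_comm]
  apply Nat.mul_le_mul_right
  have hxA : x.1 ∈ pbox A := mem_pbox.2 fun b' => hH b' (mem_pbox.1 (mem_product.1 hx).1 b')
  by_cases hg : HGood P ℓ (0, x.2 0) x.1
  · exact hcard_not_same_le hxA hg _ ((filter_subset _ _).trans (hLo _))
      fun z hz => (mem_filter.1 hz).2.2
  · simp [hg]

open Classical in
include hLoq hH hLo hLo' in
lemma card_E4 :
    (((pbox H ×ˢ labs m) ×ˢ (Lo ×ˢ Lo)).filter fun w =>
      HGood P ℓ (1, w.1.2 1) (Function.update w.1.1 (0, w.1.2 0) w.2.1) ∧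
      ¬ HSame P (Function.update w.1.1 (0, w.1.2 0) w.2.1)
        (low w.1.1 w.1.2 w.2.1 w.2.2)).card ≤
      (pbox H).card * (labs m).card * (q * ℓ) := by
  rw [card_prod_filter (pbox H ×ˢ labs m) (Lo ×ˢ Lo) (fun x y =>
      HGood P ℓ (1, x.2 1) (Function.update x.1 (0, x.2 0) y.1) ∧
      ¬ HSame P (Function.update x.1 (0, x.2 0) y.1) (low x.1 x.2 y.1 y.2)),
      ← card_product, ← smul_eq_mul, ← sum_const]
  refine sum_le_sum fun x hx => ?_
  rw [card_prod_filter Lo Lo (fun z z' =>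
      HGood P ℓ (1, x.2 1) (Function.update x.1 (0, x.2 0) z) ∧
      ¬ HSame P (Function.update x.1 (0, x.2 0) z) (low x.1 x.2 z z'))]
  rw [← hLoq, ← smul_eq_mul (a := Lo.card), ← sum_const]
  refine sum_le_sum fun z hz => ?_
  have hxA : x.1 ∈ pbox A := mem_pbox.2 fun b' => hH b' (mem_pbox.1 (mem_product.1 hx).1 b')
  have hxA' := update_mem_pbox hxA (b := (0, x.2 0)) (hLo _ hz)
  by_cases hg : HGood P ℓ (1, x.2 1) (Function.update x.1 (0, x.2 0) z)
  · exact hcard_not_same_le hxA' hg _ ((filter_subset _ _).trans (hLo' _))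
      fun z' hz' => (mem_filter.1 hz').2.2
  · simp [hg]

open Classical in
include hLoq in
lemma card_E5 :
    (((pbox H ×ˢ labs m) ×ˢ (Lo ×ˢ Lo)).filter fun w => (P.Lt w.1.1).card ≤ T ∧
      w.1.2 ∈ P.Lt w.1.1).card ≤ (pbox H).card * T * q ^ 2 := by
  rw [card_filter_left q H Lo hLoq (fun x => (P.Lt x.1).card ≤ T ∧ x.2 ∈ P.Lt x.1)]
  apply Nat.mul_le_mul_right
  rw [card_prod_filter (pbox H) (labs m) (fun s l => (P.Lt s).card ≤ T ∧ l ∈ P.Lt s),
    ← smul_eq_mul, ← sum_const]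
  refine sum_le_sum fun s hs => ?_
  by_cases hT : (P.Lt s).card ≤ T
  · refine le_trans (card_le_card ?_) hT
    intro l hl
    exact (mem_filter.1 hl).2.2
  · simp [hT]

open Classical in
include hLoq in
lemma card_E6 (Γ : ℕ) (hcov : ∀ s ∈ pbox H, (P.F s).card ≤ T →
    ((labs m).filter fun l => Covd P s l).card ≤ Γ) :
    (((pbox H ×ˢ labs m) ×ˢ (Lo ×ˢ Lo)).filter fun w => (P.F w.1.1).card ≤ T ∧
      Covd P w.1.1 w.1.2).card ≤ (pbox H).card * Γ * q ^ 2 := by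
  rw [card_filter_left q H Lo hLoq (fun x => (P.F x.1).card ≤ T ∧ Covd P x.1 x.2)]
  apply Nat.mul_le_mul_right
  rw [card_prod_filter (pbox H) (labs m) (fun s l => (P.F s).card ≤ T ∧ Covd P s l),
    ← smul_eq_mul, ← sum_const]
  refine sum_le_sum fun s hs => ?_
  by_cases hT : (P.F s).card ≤ T
  · refine le_trans (card_le_card ?_) (hcov s hs hT)
    intro l hl
    exact mem_filter.2 ⟨(mem_filter.1 hl).1, (mem_filter.1 hl).2.2⟩
  · simp [hT]

lemma pbox_card (H : Fin 3 × Fin m → Finset ℕ) (hHq : ∀ b, (H b).card = q) :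
    (pbox H).card = q ^ (3 * m) := by
  rw [pbox, Fintype.card_piFinset]
  simp [hHq]

open Classical in
include hLoq hH hLo hLo' hHq hL in
lemma card_E7 :
    (q - ℓ) * (((pbox H ×ˢ labs m) ×ˢ (Lo ×ˢ Lo)).filter fun w =>
      low w.1.1 w.1.2 w.2.1 w.2.2 ∈ HSb P ℓ w.1.2).card ≤
      (labs m).card * (ℓ * (pbox H).card) * q ^ 2 := by
  have hLq : ∀ l b, (L l b).card = q := by
    intro l b
    rw [hL]
    split_ifs
    · exact hLoq
    · exact hHq b
  have hLA : ∀ l b, L l b ⊆ A b := by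
    intro l b
    rw [hL]
    split_ifs with h
    · rcases h with h | h
      · rw [h]; exact hLo _
      · rw [h]; exact hLo' _
    · exact hH b
  set C : Finset (Σ _ : Lab m, (Fin 3 × Fin m → ℕ) × (ℕ × ℕ)) :=
    (labs m).sigma fun l => HSb P ℓ l ×ˢ (H (0, l 0) ×ˢ H (1, l 1)) with hC
  have h1 : (((pbox H ×ˢ labs m) ×ˢ (Lo ×ˢ Lo)).filter fun w =>
      low w.1.1 w.1.2 w.2.1 w.2.2 ∈ HSb P ℓ w.1.2).card ≤ C.card := by
    apply card_le_card_of_injOn (fun w => ⟨w.1.2, (low w.1.1 w.1.2 w.2.1 w.2.2,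
      (w.1.1 (0, w.1.2 0), w.1.1 (1, w.1.2 1)))⟩)
    · rintro ⟨⟨s, l⟩, z, z'⟩ hw
      simp only [coe_filter, mem_product, Set.mem_ofPred_eq] at hw
      obtain ⟨⟨⟨hs, hl⟩, _⟩, hw2⟩ := hw
      simp only [hC, coe_sigma, Set.mem_sigma_iff, mem_coe, mem_product]
      exact ⟨hl, hw2, mem_pbox.1 hs _, mem_pbox.1 hs _⟩
    · rintro ⟨⟨s, l⟩, z, z'⟩ _ ⟨⟨t, l'⟩, w, w'⟩ _ heq
      simp only [Sigma.mk.injEq] at heq
      obtain ⟨hl, heq⟩ := heq
      subst hl
      have heq' := eq_of_heq heq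
      simp only [Prod.mk.injEq] at heq'
      obtain ⟨e1, e2, e3⟩ := heq'
      have f1 : z' = w' := by
        have := congrFun e1 (1, l 1)
        simpa [low] using this
      have f0 : z = w := by
        have := congrFun e1 (0, l 0)
        simpa [low] using this
      have fs : s = t := by
        funext b
        by_cases hb1 : b = (1, l 1)
        · rw [hb1]; exact e3
        · by_cases hb0 : b = (0, l 0)
          · rw [hb0]; exact e2
          · have := congrFun e1 b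
            simpa [low, hb1, hb0] using this
      rw [f1, f0, fs]
  have h2 : (q - ℓ) * C.card ≤ (labs m).card * (ℓ * (pbox H).card) * q ^ 2 := by
    rw [hC, card_sigma, mul_sum]
    calc ∑ l ∈ labs m, (q - ℓ) * (HSb P ℓ l ×ˢ (H (0, l 0) ×ˢ H (1, l 1))).card
        ≤ ∑ l ∈ labs m, (ℓ * (pbox H).card) * q ^ 2 := by
          refine sum_le_sum fun l _ => ?_
          rw [card_product, card_product, hHq, hHq, ← mul_assoc, ← sq]
          apply Nat.mul_le_mul_right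
          have h3 := card_HSb_le (P := P) ℓ q l (hLA l) (fun b => (hLq l b).ge)
          rw [pbox_card q (L l) (hLq l)] at h3
          rw [pbox_card q H hHq]
          exact h3
      _ = _ := by rw [sum_const, smul_eq_mul]; ring
  exact (Nat.mul_le_mul_left _ h1).trans h2

open Classical in
include hLoq hH hLo hLo' hHq hL in
theorem card_HBad (Λ Γ : ℕ)
    (hload : ∀ s ∈ pbox H, (P.F s).card ≤ T → ∑ b, (HD P b s).card ≤ Λ)
    (hcov : ∀ s ∈ pbox H, (P.F s).card ≤ T → ((labs m).filter fun l => Covd P s l).card ≤ Γ)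
    (hℓ : 0 < ℓ) (hq : ℓ < q) (hm : 0 < m) :
    ((HBad P T H Lo).card : ℝ) ≤ (pbox H).card * (labs m).card * (q : ℝ) ^ 2 *
      (2 * Λ / (ℓ * m) + 3 * (2 * ℓ + 1) / q + 2 * ℓ / q + 2 * (T + Γ) / m ^ 2 +
      ℓ / ((q : ℝ) - ℓ)) := by
  have h0 := (card_le_card (split_subset P T ℓ H Lo hL)).trans ((card_union_le _ _).trans
    (add_le_add_left ((card_union_le _ _).trans (add_le_add_left ((card_union_le _ _).trans
    (add_le_add_left ((card_union_le _ _).trans (add_le_add_left ((card_union_le _ _).trans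
    (add_le_add_left (card_union_le _ _) _)) _)) _)) _)) _))
  have h1 := card_E1 P T ℓ q H Lo hLoq Λ hload
  have h2 := card_E2 P ℓ q H Lo hH hHq hLoq
  have h3 := card_E3 P ℓ q H Lo hH hLo hLoq
  have h4 := card_E4 P ℓ q H Lo hH hLo hLo' hLoq
  have h5 := card_E5 P T q H Lo hLoq
  have h6 := card_E6 P T q H Lo hLoq Γ hcov
  have h7 := card_E7 P ℓ q H Lo hH hHq hLo hLo' hLoq hL
  set a1 := (((pbox H ×ˢ labs m) ×ˢ (Lo ×ˢ Lo)).filter fun w => (P.F w.1.1).card ≤ T ∧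
      ∃ r, ℓ < (HD P (r, w.1.2 r) w.1.1).card).card
  set a2 := (((pbox H ×ˢ labs m) ×ˢ (Lo ×ˢ Lo)).filter fun w => ∃ r,
      (HD P (r, w.1.2 r) w.1.1).card ≤ ℓ ∧ ∃ x ∈ HD P (r, w.1.2 r) w.1.1,
        ev c d x.1 w.1.1 = ev c d x.2 w.1.1).card
  set a3 := (((pbox H ×ˢ labs m) ×ˢ (Lo ×ˢ Lo)).filter fun w => HGood P ℓ (0, w.1.2 0) w.1.1 ∧
      ¬ HSame P w.1.1 (Function.update w.1.1 (0, w.1.2 0) w.2.1)).card
  set a4 := (((pbox H ×ˢ labs m) ×ˢ (Lo ×ˢ Lo)).filter fun w =>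
      HGood P ℓ (1, w.1.2 1) (Function.update w.1.1 (0, w.1.2 0) w.2.1) ∧
      ¬ HSame P (Function.update w.1.1 (0, w.1.2 0) w.2.1)
        (low w.1.1 w.1.2 w.2.1 w.2.2)).card
  set a5 := (((pbox H ×ˢ labs m) ×ˢ (Lo ×ˢ Lo)).filter fun w => (P.Lt w.1.1).card ≤ T ∧
      w.1.2 ∈ P.Lt w.1.1).card
  set a6 := (((pbox H ×ˢ labs m) ×ˢ (Lo ×ˢ Lo)).filter fun w => (P.F w.1.1).card ≤ T ∧
      Covd P w.1.1 w.1.2).card
  set a7 := (((pbox H ×ˢ labs m) ×ˢ (Lo ×ˢ Lo)).filter fun w =>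
      low w.1.1 w.1.2 w.2.1 w.2.2 ∈ HSb P ℓ w.1.2).card
  have hB : (0 : ℝ) ≤ (pbox H).card := Nat.cast_nonneg _
  have hLb : (m : ℝ) ^ 2 ≤ 2 * (labs m).card := by exact_mod_cast card_labs_ge m
  generalize hBx : ((pbox H).card : ℕ) = Bx at *
  generalize hLbx : ((labs m).card : ℕ) = Lb at *
  have hℓ' : (0 : ℝ) < ℓ := by exact_mod_cast hℓ
  have hq' : (ℓ : ℝ) < q := by exact_mod_cast hq
  have hq0 : (0 : ℝ) < q := hℓ'.trans hq'
  have hm' : (0 : ℝ) < m := by exact_mod_cast hm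
  have e1 : ((a1 : ℕ) : ℝ) ≤ Bx * Lb * (q : ℝ) ^ 2 * (2 * Λ / (ℓ * m)) := by
    have h8 : (ℓ : ℝ) * a1 ≤ Bx * (m * Λ) * q ^ 2 := by exact_mod_cast h1
    have h9 : Bx * Lb * (q : ℝ) ^ 2 * (2 * Λ / (ℓ * m)) =
        (Bx * (2 * Lb / m * Λ) * q ^ 2) / ℓ := by
      field_simp
    rw [h9, le_div_iff₀ hℓ']
    have h10 : (m : ℝ) ≤ 2 * Lb / m := by
      rw [le_div_iff₀ hm', ← sq]
      exact hLb
    calc (a1 : ℝ) * ℓ = ℓ * a1 := mul_comm _ _
      _ ≤ Bx * (m * Λ) * q ^ 2 := h8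
      _ ≤ Bx * (2 * Lb / m * Λ) * q ^ 2 := by gcongr
  have e2 : ((a2 : ℕ) : ℝ) ≤ Bx * Lb * (q : ℝ) ^ 2 * (3 * (2 * ℓ + 1) / q) := by
    have h8 : (q : ℝ) * a2 ≤ Lb * (3 * ((2 * ℓ + 1) * Bx)) * q ^ 2 := by exact_mod_cast h2
    have h9 : Bx * Lb * (q : ℝ) ^ 2 * (3 * (2 * ℓ + 1) / q) =
        (Lb * (3 * ((2 * ℓ + 1) * Bx)) * q ^ 2) / q := by
      ring
    rw [h9, le_div_iff₀ hq0]
    linarith
  have e34 : ((a3 : ℕ) : ℝ) + a4 ≤ Bx * Lb * (q : ℝ) ^ 2 * (2 * ℓ / q) := by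
    have h8 : (a3 : ℝ) ≤ Bx * Lb * (ℓ * q) := by exact_mod_cast h3
    have h8' : (a4 : ℝ) ≤ Bx * Lb * (q * ℓ) := by exact_mod_cast h4
    have h9 : Bx * Lb * (q : ℝ) ^ 2 * (2 * ℓ / q) = Bx * Lb * (2 * ℓ * q) := by
      field_simp
    rw [h9]
    linarith
  have e56 : ((a5 : ℕ) : ℝ) + a6 ≤ Bx * Lb * (q : ℝ) ^ 2 * (2 * (T + Γ) / m ^ 2) := by
    have h8 : (a5 : ℝ) ≤ Bx * T * q ^ 2 := by exact_mod_cast h5
    have h8' : (a6 : ℝ) ≤ Bx * Γ * q ^ 2 := by exact_mod_cast h6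
    have h9 : Bx * Lb * (q : ℝ) ^ 2 * (2 * (T + Γ) / m ^ 2) =
        Bx * ((2 * Lb / m ^ 2) * (T + Γ)) * q ^ 2 := by
      ring
    have h10 : (1 : ℝ) ≤ 2 * Lb / m ^ 2 := by
      rw [le_div_iff₀ (by positivity), one_mul]
      exact hLb
    rw [h9]
    calc (a5 : ℝ) + a6 ≤ Bx * (1 * (T + Γ)) * q ^ 2 := by linarith
      _ ≤ Bx * ((2 * Lb / m ^ 2) * (T + Γ)) * q ^ 2 := by gcongr
  have e7 : ((a7 : ℕ) : ℝ) ≤ Bx * Lb * (q : ℝ) ^ 2 * (ℓ / ((q : ℝ) - ℓ)) := by
    have h8 : (0 : ℝ) < q - ℓ := sub_pos.2 hq'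
    have h9 : ((q : ℝ) - ℓ) * a7 ≤ Lb * (ℓ * Bx) * q ^ 2 := by
      have : (((q - ℓ : ℕ) : ℝ)) * a7 ≤ Lb * (ℓ * Bx) * q ^ 2 := by exact_mod_cast h7
      rwa [Nat.cast_sub hq.le] at this
    have h10 : Bx * Lb * (q : ℝ) ^ 2 * (ℓ / ((q : ℝ) - ℓ)) =
        (Lb * (ℓ * Bx) * q ^ 2) / ((q : ℝ) - ℓ) := by
      ring
    rw [h10, le_div_iff₀ h8]
    linarith
  have h8 : ((HBad P T H Lo).card : ℝ) ≤ a1 + a2 + a3 + a4 + a5 + a6 + a7 := by
    exact_mod_cast h0
  have h9 : Bx * Lb * (q : ℝ) ^ 2 *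
      (2 * Λ / (ℓ * m) + 3 * (2 * ℓ + 1) / q + 2 * ℓ / q + 2 * (T + Γ) / m ^ 2 +
      ℓ / ((q : ℝ) - ℓ)) = Bx * Lb * (q : ℝ) ^ 2 * (2 * Λ / (ℓ * m)) +
      Bx * Lb * (q : ℝ) ^ 2 * (3 * (2 * ℓ + 1) / q) + Bx * Lb * (q : ℝ) ^ 2 * (2 * ℓ / q) +
      Bx * Lb * (q : ℝ) ^ 2 * (2 * (T + Γ) / m ^ 2) +
      Bx * Lb * (q : ℝ) ^ 2 * (ℓ / ((q : ℝ) - ℓ)) := by ring
  rw [h9]
  linarith

end main

end Pool.Agent.J4.H80.Hyb
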