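import Mathlib

/-!
# Randomized algorithms for 3SUM which hash and compare

Such an algorithm computes values of affine forms in the input numbers and sees all equalities among
them (a hash table), and it compares input numbers and sums of two input numbers. Everything else is
free, and it has no other access to the input.
-/

set_option autoImplicit false

open MeasureTheory
open scoped ENNReal

namespace Pool.Agent.J4.H80.HashComp

/-- An affine form in `n` variables with real coefficients. -/
structure Form (n : ℕ) where
  /-- the coefficients of the variables -/
  coef : Fin n → ℝ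
  /-- the constant term -/
  const : ℝ

/-- The value of an affine form at an integer input. -/
noncomputable def Form.eval {n : ℕ} (u : Form n) (x : Fin n → ℤ) : ℝ :=
  ∑ i, u.coef i * (x i : ℝ) + u.const

/-- The number of variables which occur in a form. -/
noncomputable def Form.vars {n : ℕ} (u : Form n) : ℕ := Nat.card {i // u.coef i ≠ 0}

/-- The simple forms: constants, and `σ * x_i + τ * x_j` with signs `σ, τ ∈ {-1, 0, 1}`. -/
def Form.Simple {n : ℕ} (u : Form n) : Prop :=
  (∀ k, u.coef k = 0) ∨ (u.const = 0 ∧ ∃ (σ τ : SignType) (i j : Fin n),
    ∀ k, u.coef k = (if k = i then (σ : ℝ) else 0) + (if k = j then (τ : ℝ) else 0))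

/-- A comparison: it gives the sign of `α * x_a + β * x_b + γ * x_c`, where `α, β, γ ∈ {-1, 0, 1}`;
for instance it compares `x_a` with `x_b`, or `x_a + x_b` with `x_c`. -/
structure Test (n : ℕ) where
  (α β γ : SignType)
  (a b c : Fin n)

/-- The quantity whose sign a comparison gives. -/
def Test.val {n : ℕ} (t : Test n) (x : Fin n → ℤ) : ℤ :=
  (t.α : ℤ) * x t.a + (t.β : ℤ) * x t.b + (t.γ : ℤ) * x t.c

/-- Deterministic algorithms: such an algorithm stops with an answer; or it computes the value of an
affine form and continues according to the answer `e : ℕ → Bool` of the hash table, where `e s` says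
whether the new value is equal to the value of the `s`-th form computed before; or it makes a
comparison and continues according to the sign. -/
inductive Prog (n : ℕ) : Type
  | out (b : Bool) : Prog n
  | hash (u : Form n) (next : (ℕ → Bool) → Prog n) : Prog n
  | comp (t : Test n) (next : SignType → Prog n) : Prog n

/-- All the forms which the algorithm hashes are in the class `C`. -/
def Prog.Uses {n : ℕ} (C : Form n → Prop) : Prog n → Prop
  | .out _ => True
  | .hash u next => C u ∧ ∀ e, (next e).Uses C
  | .comp _ next => ∀ e, (next e).Uses C

open Classical in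
/-- The answer of the hash table: which of the earlier values (those of the forms in `h`) are equal
to the value of `u`. -/
noncomputable def lookup {n : ℕ} (h : List (Form n)) (u : Form n) (x : Fin n → ℤ) (s : ℕ) : Bool :=
  decide (∃ v, h[s]? = some v ∧ v.eval x = u.eval x)

/-- The run on the input `x` after the forms in `h` have been hashed and the comparisons in `g` have
been made: the hashed forms, the comparisons, and the answer. -/
noncomputable def Prog.run {n : ℕ} : Prog n → List (Form n) → List (Test n) → (Fin n → ℤ) →
    List (Form n) × List (Test n) × Bool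
  | .out b, h, g, _ => (h, g, b)
  | .hash u next, h, g, x => (next (lookup h u x)).run (h ++ [u]) g x
  | .comp t next, h, g, x => (next (SignType.sign (t.val x))).run h (g ++ [t]) x

/-- The number of hashed forms plus the number of comparisons made on the input `x`. -/
noncomputable def Prog.cost {n : ℕ} (p : Prog n) (x : Fin n → ℤ) : ℕ :=
  (p.run [] [] x).1.length + (p.run [] [] x).2.1.length

/-- The answer on the input `x`. -/
noncomputable def Prog.answer {n : ℕ} (p : Prog n) (x : Fin n → ℤ) : Bool := (p.run [] [] x).2.2

/-- The valid inputs: `n` distinct integers in `[-N, N]`, in any order. -/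
def Valid {n : ℕ} (N : ℕ) (x : Fin n → ℤ) : Prop :=
  Function.Injective x ∧ ∀ i, |x i| ≤ N

/-- The 3SUM question. -/
def Has3Sum {n : ℕ} (x : Fin n → ℤ) : Prop :=
  ∃ i j k, i ≠ j ∧ i ≠ k ∧ j ≠ k ∧ x i + x j = x k

/-- The randomized algorithm `p` hashes only forms in the class `C`, its expected cost is at most
`T` on each valid input, and on each valid input it answers the 3SUM question with error probability
at most `1 / 3`. -/
structure Solves {n : ℕ} (C : Form n → Prop) (N : ℕ) (T : ℝ) {Ω : Type} [MeasurableSpace Ω]
    (μ : Measure Ω) (p : Ω → Prog n) : Prop where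
  uses : ∀ ω, (p ω).Uses C
  measurable_cost : ∀ x, Valid N x → Measurable fun ω => (p ω).cost x
  measurable_answer : ∀ x, Valid N x → Measurable fun ω => (p ω).answer x
  cost_le : ∀ x, Valid N x → ∫⁻ ω, ((p ω).cost x : ℝ≥0∞) ∂μ ≤ ENNReal.ofReal T
  error_le : ∀ x, Valid N x →
    μ {ω | ¬ ((p ω).answer x = true ↔ Has3Sum x)} ≤ ENNReal.ofReal (1 / 3)

end Pool.Agent.J4.H80.HashComp
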