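import Mathlib
import Pool.Agent.J4.H80.Hyb
import Pool.Agent.J4.H80.HybModel

/-!
# The hard inputs for algorithms which hash and compare
-/

set_option autoImplicit false
set_option linter.unusedSectionVars false
set_option linter.unusedTactic false

open Finset MeasureTheory
open scoped ENNReal

namespace Pool.Agent.J4.H80.HashComp

open Gen Cover Hyb

/-! ### The transcripts -/

section run

variable {n : ℕ}

lemma subset_run (p : Prog n) (x : Fin n → ℤ) (h : List (Form n)) (g : List (Test n)) :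
    h ⊆ (p.run h g x).1 ∧ g ⊆ (p.run h g x).2.1 := by
  induction p generalizing h g with
  | out b => exact ⟨fun _ hu => hu, fun _ hu => hu⟩
  | hash u next ih =>
    obtain ⟨h1, h2⟩ := ih (lookup h u x) (h ++ [u]) g
    exact ⟨fun v hv => h1 (by simp [hv]), h2⟩
  | comp t next ih =>
    obtain ⟨h1, h2⟩ := ih (SignType.sign (t.val x)) h (g ++ [t])
    exact ⟨h1, fun v hv => h2 (by simp [hv])⟩

lemma run_sep (p : Prog n) (x y : Fin n → ℤ) (h : List (Form n)) (g : List (Test n)) :
    p.run h g x = p.run h g y ∨ (∃ u ∈ (p.run h g x).1, ∃ v ∈ (p.run h g x).1,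
      u ∈ (p.run h g y).1 ∧ v ∈ (p.run h g y).1 ∧ ¬ (u.eval x = v.eval x ↔ u.eval y = v.eval y)) ∨
      ∃ t ∈ (p.run h g x).2.1, SignType.sign (t.val x) ≠ SignType.sign (t.val y) := by
  induction p generalizing h g with
  | out b => exact Or.inl rfl
  | hash u next ih =>
    by_cases he : lookup h u x = lookup h u y
    · simp only [Prog.run]
      rw [← he]
      exact ih _ _ _
    · right
      left
      obtain ⟨s, hs⟩ := Function.ne_iff.1 he
      have h1 : ¬ ((∃ v, h[s]? = some v ∧ v.eval x = u.eval x) ↔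
          (∃ v, h[s]? = some v ∧ v.eval y = u.eval y)) := by
        intro h2
        apply hs
        unfold lookup
        exact decide_eq_decide.2 h2
      have h3 : ∃ v, h[s]? = some v := by
        by_contra h4
        push Not at h4
        exact h1 ⟨fun ⟨v, hv, _⟩ => absurd hv (h4 v), fun ⟨v, hv, _⟩ => absurd hv (h4 v)⟩
      obtain ⟨v, hv⟩ := h3
      have hvh : v ∈ h := List.mem_of_getElem? hv
      have hu1 : ∀ z, u ∈ ((Prog.hash u next).run h g z).1 := fun z =>
        (subset_run (next (lookup h u z)) z (h ++ [u]) g).1 (by simp)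
      have hv1 : ∀ z, v ∈ ((Prog.hash u next).run h g z).1 := fun z =>
        (subset_run (next (lookup h u z)) z (h ++ [u]) g).1 (by simp [hvh])
      refine ⟨v, hv1 x, u, hu1 x, hv1 y, hu1 y, ?_⟩
      intro h5
      apply h1
      constructor
      · rintro ⟨w, hw, hwe⟩
        rw [hv, Option.some.injEq] at hw
        subst hw
        exact ⟨v, hv, h5.1 hwe⟩
      · rintro ⟨w, hw, hwe⟩
        rw [hv, Option.some.injEq] at hw
        subst hw
        exact ⟨v, hv, h5.2 hwe⟩
  | comp t next ih =>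
    by_cases he : SignType.sign (t.val x) = SignType.sign (t.val y)
    · simp only [Prog.run]
      rw [← he]
      exact ih _ _ _
    · right
      right
      exact ⟨t, (subset_run (next (SignType.sign (t.val x))) x h (g ++ [t])).2 (by simp), he⟩

lemma run_uses {C : Form n → Prop} (p : Prog n) (hp : p.Uses C) (x : Fin n → ℤ)
    (h : List (Form n)) (g : List (Test n)) (hh : ∀ u ∈ h, C u) : ∀ u ∈ (p.run h g x).1, C u := by
  induction p generalizing h g with
  | out b => exact hh
  | hash u next ih =>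
    refine ih _ (hp.2 _) _ _ fun v hv => ?_
    rcases List.mem_append.1 hv with h1 | h1
    · exact hh v h1
    · rw [List.mem_singleton] at h1
      rw [h1]
      exact hp.1
  | comp t next ih => exact ih _ (hp _) _ _ hh

end run

/-! ### The inputs -/

section hard

variable {n m : ℕ}

/-- the positions of the three blocks -/
def emb (hm : 3 * m ≤ n) (b : Fin 3 × Fin m) : Fin n :=
  ⟨(finProdFinEquiv b).val, lt_of_lt_of_le (finProdFinEquiv b).isLt hm⟩

lemma emb_injective (hm : 3 * m ≤ n) : Function.Injective (emb hm) := by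
  intro b b' h
  apply finProdFinEquiv.injective
  apply Fin.ext
  exact congrArg (fun i : Fin n => i.val) h

lemma exists_emb (hm : 3 * m ≤ n) {i : Fin n} (h : i.val < 3 * m) : ∃ b, i = emb hm b :=
  ⟨finProdFinEquiv.symm ⟨i.val, h⟩, by
    apply Fin.ext
    change i.val = (finProdFinEquiv (finProdFinEquiv.symm ⟨i.val, h⟩)).val
    rw [Equiv.apply_symm_apply]⟩

/-- the classes of the three blocks -/
def cls : Fin 3 → ℕ := ![4, 12, 16]

/-- the rough position of an input number -/
def Z (n m : ℕ) (i : Fin n) : ℤ :=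
  if h : i.val < 3 * m then
    (cls (finProdFinEquiv.symm ⟨i.val, h⟩).1 : ℤ) * n + ((finProdFinEquiv.symm ⟨i.val, h⟩).2.val : ℕ)
  else 44 * (n : ℤ) + (i.val : ℕ)

/-- the fine position of an input number -/
def nu (n m : ℕ) (s : Fin 3 × Fin m → ℕ) (i : Fin n) : ℤ :=
  if h : i.val < 3 * m then ((s (finProdFinEquiv.symm ⟨i.val, h⟩) : ℕ) : ℤ) else 0

/-- the input which belongs to `s` -/
def inp (n m q : ℕ) (s : Fin 3 × Fin m → ℕ) (i : Fin n) : ℤ := 32 * q * Z n m i + nu n m s i

lemma symm_emb (hm : 3 * m ≤ n) (b : Fin 3 × Fin m) (h : (emb hm b).val < 3 * m) :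
    finProdFinEquiv.symm ⟨(emb hm b).val, h⟩ = b := by
  rw [Equiv.symm_apply_eq]
  rfl

lemma Z_emb (hm : 3 * m ≤ n) (r : Fin 3) (a : Fin m) :
    Z n m (emb hm (r, a)) = (cls r : ℤ) * n + (a.val : ℕ) := by
  unfold Z
  have h : (emb hm (r, a)).val < 3 * m := (finProdFinEquiv (r, a)).isLt
  rw [dif_pos h, symm_emb]

lemma nu_emb (hm : 3 * m ≤ n) (s : Fin 3 × Fin m → ℕ) (b : Fin 3 × Fin m) :
    nu n m s (emb hm b) = s b := by
  unfold nu
  have h : (emb hm b).val < 3 * m := (finProdFinEquiv b).isLt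
  rw [dif_pos h, symm_emb]

lemma Z_filler {i : Fin n} (h : ¬ i.val < 3 * m) : Z n m i = 44 * (n : ℤ) + (i.val : ℕ) := by
  unfold Z
  rw [dif_neg h]

lemma nu_filler (s : Fin 3 × Fin m → ℕ) {i : Fin n} (h : ¬ i.val < 3 * m) : nu n m s i = 0 := by
  unfold nu
  rw [dif_neg h]

/-- the shape of an index -/
lemma shape (hm : 3 * m ≤ n) (i : Fin n) :
    (∃ a : Fin m, i = emb hm (0, a) ∧ Z n m i = 4 * n + (a.val : ℕ)) ∨
    (∃ a : Fin m, i = emb hm (1, a) ∧ Z n m i = 12 * n + (a.val : ℕ)) ∨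
    (∃ a : Fin m, i = emb hm (2, a) ∧ Z n m i = 16 * n + (a.val : ℕ)) ∨
    (¬ i.val < 3 * m ∧ Z n m i = 44 * n + (i.val : ℕ)) := by
  by_cases h : i.val < 3 * m
  · obtain ⟨⟨r, a⟩, hb⟩ := exists_emb hm h
    have h1 := Z_emb (n := n) hm r a
    rw [← hb] at h1
    fin_cases r
    · exact Or.inl ⟨a, hb, h1⟩
    · exact Or.inr (Or.inl ⟨a, hb, h1⟩)
    · exact Or.inr (Or.inr (Or.inl ⟨a, hb, h1⟩))
  · exact Or.inr (Or.inr (Or.inr ⟨h, Z_filler h⟩))

lemma Z_pos (hm : 3 * m ≤ n) (i : Fin n) : 0 < Z n m i := by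
  have := i.isLt
  rcases shape hm i with ⟨a, _, e⟩ | ⟨a, _, e⟩ | ⟨a, _, e⟩ | ⟨_, e⟩ <;> omega

lemma Z_le (hm : 3 * m ≤ n) (i : Fin n) : Z n m i + 1 ≤ 45 * n := by
  have := i.isLt
  rcases shape hm i with ⟨a, _, e⟩ | ⟨a, _, e⟩ | ⟨a, _, e⟩ | ⟨_, e⟩
  · have := a.isLt; omega
  · have := a.isLt; omega
  · have := a.isLt; omega
  · omega

lemma Z_inj (hm : 3 * m ≤ n) {i j : Fin n} (h : Z n m i = Z n m j) : i = j := by
  have hi := i.isLt
  have hj := j.isLt
  rcases shape hm i with ⟨a, hi', ei⟩ | ⟨a, hi', ei⟩ | ⟨a, hi', ei⟩ | ⟨hi', ei⟩ <;>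
  rcases shape hm j with ⟨a', hj', ej⟩ | ⟨a', hj', ej⟩ | ⟨a', hj', ej⟩ | ⟨hj', ej⟩ <;>
  rw [ei, ej] at h
  · have h1 : a = a' := Fin.ext (by omega)
    rw [hi', hj', h1]
  · have := a.isLt; have := a'.isLt; omega
  · have := a.isLt; have := a'.isLt; omega
  · have := a.isLt; omega
  · have := a.isLt; have := a'.isLt; omega
  · have h1 : a = a' := Fin.ext (by omega)
    rw [hi', hj', h1]
  · have := a.isLt; have := a'.isLt; omega
  · have := a.isLt; omega
  · have := a.isLt; have := a'.isLt; omega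
  · have := a.isLt; have := a'.isLt; omega
  · have h1 : a = a' := Fin.ext (by omega)
    rw [hi', hj', h1]
  · have := a.isLt; omega
  · have := a'.isLt; omega
  · have := a'.isLt; omega
  · have := a'.isLt; omega
  · exact Fin.ext (by omega)

lemma Z_sum (hm : 3 * m ≤ n) {i j k : Fin n} (h : Z n m i + Z n m j = Z n m k) :
    ∃ l ∈ labs m, ((i = emb hm (0, l 0) ∧ j = emb hm (1, l 1)) ∨
      (i = emb hm (1, l 1) ∧ j = emb hm (0, l 0))) ∧ k = emb hm (2, l 2) := by
  have hi := i.isLt
  have hj := j.isLt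
  have hk := k.isLt
  rcases shape hm i with ⟨a, hi', ei⟩ | ⟨a, hi', ei⟩ | ⟨a, hi', ei⟩ | ⟨hi', ei⟩ <;>
  rcases shape hm j with ⟨a', hj', ej⟩ | ⟨a', hj', ej⟩ | ⟨a', hj', ej⟩ | ⟨hj', ej⟩ <;>
  rcases shape hm k with ⟨a'', hk', ek⟩ | ⟨a'', hk', ek⟩ | ⟨a'', hk', ek⟩ | ⟨hk', ek⟩ <;>
  rw [ei, ej, ek] at h <;>
  (try have ha := a.isLt) <;>
  (try have ha' := a'.isLt) <;>
  (try have ha'' := a''.isLt) <;>
  first
  | omega
  | exact ⟨![a, a', a''], mem_filter.2 ⟨mem_univ _, by
      simp only [Matrix.cons_val_zero, Matrix.cons_val_one, Matrix.cons_val]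
      omega⟩, Or.inl ⟨hi', hj'⟩, hk'⟩
  | exact ⟨![a', a, a''], mem_filter.2 ⟨mem_univ _, by
      simp only [Matrix.cons_val_zero, Matrix.cons_val_one, Matrix.cons_val]
      omega⟩, Or.inr ⟨hi', hj'⟩, hk'⟩

/-- the comparison touches the three numbers of the label -/
def Hits (hm : 3 * m ≤ n) (t : Test n) (l : Lab m) : Prop :=
  (emb hm (0, l 0) = t.a ∨ emb hm (0, l 0) = t.b ∨ emb hm (0, l 0) = t.c) ∧
  (emb hm (1, l 1) = t.a ∨ emb hm (1, l 1) = t.b ∨ emb hm (1, l 1) = t.c) ∧
  (emb hm (2, l 2) = t.a ∨ emb hm (2, l 2) = t.b ∨ emb hm (2, l 2) = t.c)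

/-- the rough value of a comparison -/
def Test.rough (m : ℕ) (t : Test n) : ℤ :=
  (t.α : ℤ) * Z n m t.a + (t.β : ℤ) * Z n m t.b + (t.γ : ℤ) * Z n m t.c

lemma val_inp (q : ℕ) (t : Test n) (s : Fin 3 × Fin m → ℕ) :
    t.val (inp n m q s) = 32 * q * t.rough m +
      ((t.α : ℤ) * nu n m s t.a + (t.β : ℤ) * nu n m s t.b + (t.γ : ℤ) * nu n m s t.c) := by
  unfold Test.val Test.rough inp
  ring

lemma zero_or_label (hm : 3 * m ≤ n) {i j k : Fin n} (q : ℕ) (t : Test n)
    (hi : i = t.a ∨ i = t.b ∨ i = t.c) (hj : j = t.a ∨ j = t.b ∨ j = t.c)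
    (hk : k = t.a ∨ k = t.b ∨ k = t.c) (ε : ℤ) (hε : ε = 1 ∨ ε = -1)
    (h : ∀ x : Fin n → ℤ, t.val x = ε * (x i + x j - x k))
    (h0 : t.rough m = 0) :
    ∃ l ∈ labs m, Hits hm t l ∧ ∃ ε : ℤ, (ε = 1 ∨ ε = -1) ∧ ∀ s,
      t.val (inp n m q s) = ε * ((s (0, l 0) : ℤ) + s (1, l 1) - s (2, l 2)) := by
  have h1 : t.rough m = ε * (Z n m i + Z n m j - Z n m k) := h (Z n m)
  rw [h0] at h1
  have h2 : Z n m i + Z n m j = Z n m k := by
    rcases hε with rfl | rfl <;> omega
  obtain ⟨l, hl, hij, hkl⟩ := Z_sum hm h2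
  refine ⟨l, hl, ?_, ε, hε, fun s => ?_⟩
  · rcases hij with ⟨e1, e2⟩ | ⟨e1, e2⟩
    · exact ⟨e1 ▸ hi, e2 ▸ hj, hkl ▸ hk⟩
    · exact ⟨e2 ▸ hj, e1 ▸ hi, hkl ▸ hk⟩
  · rw [h]
    have h3 : inp n m q s i + inp n m q s j - inp n m q s k =
        nu n m s i + nu n m s j - nu n m s k := by
      unfold inp
      linear_combination (32 * (q : ℤ)) * h2
    rw [h3]
    rcases hij with ⟨e1, e2⟩ | ⟨e1, e2⟩
    · rw [e1, e2, hkl, nu_emb, nu_emb, nu_emb]
    · rw [e1, e2, hkl, nu_emb, nu_emb, nu_emb]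
      ring

lemma test_cases (hm : 3 * m ≤ n) (q : ℕ) (t : Test n) : t.rough m ≠ 0 ∨
    (∀ s, t.val (inp n m q s) = 0) ∨ ∃ l ∈ labs m, Hits hm t l ∧ ∃ ε : ℤ, (ε = 1 ∨ ε = -1) ∧
      ∀ s, t.val (inp n m q s) = ε * ((s (0, l 0) : ℤ) + s (1, l 1) - s (2, l 2)) := by
  by_cases h0 : t.rough m = 0
  swap
  · exact Or.inl h0
  right
  obtain ⟨α, β, γ, a, b, c⟩ := t
  have pa := Z_pos hm a
  have pb := Z_pos hm b
  have pc := Z_pos hm c
  cases α <;> cases β <;> cases γ <;>
  simp only [Test.rough, SignType.zero_eq_zero, SignType.neg_eq_neg_one, SignType.pos_eq_one,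
    SignType.coe_zero, SignType.coe_one, SignType.coe_neg_one, zero_mul, one_mul, neg_mul,
    zero_add, add_zero] at h0 ⊢ <;>
  first
  | omega
  | (refine Or.inl fun s => ?_
     simp [Test.val]
     done)
  | (have e : a = b := Z_inj hm (by omega)
     refine Or.inl fun s => ?_
     simp [Test.val, e]
     done)
  | (have e : a = c := Z_inj hm (by omega)
     refine Or.inl fun s => ?_
     simp [Test.val, e]
     done)
  | (have e : b = c := Z_inj hm (by omega)
     refine Or.inl fun s => ?_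
     simp [Test.val, e]
     done)
  | (refine Or.inr (zero_or_label hm (i := a) (j := b) (k := c) q _ ?_ ?_ ?_
      1 (Or.inl rfl) ?_ ?_)
     · simp
     · simp
     · simp
     · intro x
       simp only [Test.val, SignType.coe_one, SignType.coe_neg_one]
       ring
     · simp only [Test.rough, SignType.coe_one, SignType.coe_neg_one]
       omega)
  | (refine Or.inr (zero_or_label hm (i := a) (j := c) (k := b) q _ ?_ ?_ ?_
      1 (Or.inl rfl) ?_ ?_)
     · simp
     · simp
     · simp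
     · intro x
       simp only [Test.val, SignType.coe_one, SignType.coe_neg_one]
       ring
     · simp only [Test.rough, SignType.coe_one, SignType.coe_neg_one]
       omega)
  | (refine Or.inr (zero_or_label hm (i := b) (j := c) (k := a) q _ ?_ ?_ ?_
      1 (Or.inl rfl) ?_ ?_)
     · simp
     · simp
     · simp
     · intro x
       simp only [Test.val, SignType.coe_one, SignType.coe_neg_one]
       ring
     · simp only [Test.rough, SignType.coe_one, SignType.coe_neg_one]
       omega)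
  | (refine Or.inr (zero_or_label hm (i := a) (j := b) (k := c) q _ ?_ ?_ ?_
      (-1) (Or.inr rfl) ?_ ?_)
     · simp
     · simp
     · simp
     · intro x
       simp only [Test.val, SignType.coe_one, SignType.coe_neg_one]
       ring
     · simp only [Test.rough, SignType.coe_one, SignType.coe_neg_one]
       omega)
  | (refine Or.inr (zero_or_label hm (i := a) (j := c) (k := b) q _ ?_ ?_ ?_
      (-1) (Or.inr rfl) ?_ ?_)
     · simp
     · simp
     · simp
     · intro x
       simp only [Test.val, SignType.coe_one, SignType.coe_neg_one]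
       ring
     · simp only [Test.rough, SignType.coe_one, SignType.coe_neg_one]
       omega)
  | (refine Or.inr (zero_or_label hm (i := b) (j := c) (k := a) q _ ?_ ?_ ?_
      (-1) (Or.inr rfl) ?_ ?_)
     · simp
     · simp
     · simp
     · intro x
       simp only [Test.val, SignType.coe_one, SignType.coe_neg_one]
       ring
     · simp only [Test.rough, SignType.coe_one, SignType.coe_neg_one]
       omega)

/-- the fine positions are small -/
def Fine (q : ℕ) (s : Fin 3 × Fin m → ℕ) : Prop := ∀ b, s b < 4 * q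

lemma nu_bound {q : ℕ} (hq : 0 < q) {s : Fin 3 × Fin m → ℕ} (hs : Fine q s) (i : Fin n) :
    0 ≤ nu n m s i ∧ nu n m s i < 4 * q := by
  unfold nu
  split_ifs with h
  · have := hs (finProdFinEquiv.symm ⟨i.val, h⟩)
    omega
  · omega

lemma mul_bound {q : ℕ} (α : SignType) {x : ℤ} (hx : 0 ≤ x ∧ x < 4 * q) :
    -(4 * q) < (α : ℤ) * x ∧ (α : ℤ) * x < 4 * q := by
  cases α <;>
  simp only [SignType.zero_eq_zero, SignType.neg_eq_neg_one, SignType.pos_eq_one,
    SignType.coe_zero, SignType.coe_one, SignType.coe_neg_one] <;> omega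

/-- the sum at the label is positive -/
def PosAt (l : Lab m) (s : Fin 3 × Fin m → ℕ) : Prop := s (2, l 2) < s (0, l 0) + s (1, l 1)

lemma sign_of_rough {q : ℕ} (hq : 0 < q) (t : Test n) {s : Fin 3 × Fin m → ℕ} (hs : Fine q s)
    (h : t.rough m ≠ 0) : SignType.sign (t.val (inp n m q s)) = SignType.sign (t.rough m) := by
  have e := val_inp q t s
  have ha := mul_bound t.α (nu_bound (n := n) hq hs t.a)
  have hb := mul_bound t.β (nu_bound (n := n) hq hs t.b)
  have hc := mul_bound t.γ (nu_bound (n := n) hq hs t.c)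
  have hq' : (0 : ℤ) < q := by exact_mod_cast hq
  rcases lt_or_gt_of_ne h with h1 | h1
  · have h2 : 32 * (q : ℤ) * t.rough m ≤ 32 * q * (-1) :=
      mul_le_mul_of_nonneg_left (by omega) (by positivity)
    rw [sign_neg h1, sign_neg]
    rw [e]
    linarith [ha.2, hb.2, hc.2]
  · have h2 : 32 * (q : ℤ) * 1 ≤ 32 * q * t.rough m :=
      mul_le_mul_of_nonneg_left (by omega) (by positivity)
    rw [sign_pos h1, sign_pos]
    rw [e]
    linarith [ha.1, hb.1, hc.1]

lemma sign_same (hm : 3 * m ≤ n) {q : ℕ} (hq : 0 < q) (t : Test n) {s s' : Fin 3 × Fin m → ℕ}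
    (hs : Fine q s) (hs' : Fine q s')
    (h : ∀ l ∈ labs m, Hits hm t l → PosAt l s ∧ PosAt l s') :
    SignType.sign (t.val (inp n m q s)) = SignType.sign (t.val (inp n m q s')) := by
  rcases test_cases hm q t with h1 | h1 | ⟨l, hl, hlt, ε, hε, h1⟩
  · rw [sign_of_rough hq t hs h1, sign_of_rough hq t hs' h1]
  · rw [h1, h1]
  · obtain ⟨h2, h3⟩ := h l hl hlt
    unfold PosAt at h2 h3
    rw [h1, h1]
    rcases hε with rfl | rfl
    · rw [sign_pos (by omega), sign_pos (by omega)]
    · rw [sign_neg (by omega), sign_neg (by omega)]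

/-- all the fine positions which occur before a solution is planted -/
def Aset (m q : ℕ) (b : Fin 3 × Fin m) : Finset ℕ := if b.1 = 2 then range q else Ico q (4 * q)

/-- the fine positions of the instances with answer no -/
def Hset (m q : ℕ) (b : Fin 3 × Fin m) : Finset ℕ :=
  if b.1 = 2 then range q else Ico (3 * q) (4 * q)

/-- the fine positions after two numbers of the label have been lowered -/
def Lset (m q : ℕ) (l : Lab m) (b : Fin 3 × Fin m) : Finset ℕ :=
  if b = (0, l 0) ∨ b = (1, l 1) then Ico q (2 * q) else Hset m q b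

lemma Hset_sub (q : ℕ) (b : Fin 3 × Fin m) : Hset m q b ⊆ Aset m q b := by
  unfold Hset Aset
  split_ifs
  · exact Subset.refl _
  · exact Ico_subset_Ico_left (by omega)

lemma Hset_card (q : ℕ) (b : Fin 3 × Fin m) : (Hset m q b).card = q := by
  unfold Hset
  split_ifs
  · simp
  · rw [Nat.card_Ico]; omega

lemma Lo_sub0 (q : ℕ) (a : Fin m) : Ico q (2 * q) ⊆ Aset m q (0, a) := by
  unfold Aset
  rw [if_neg (by simp)]
  exact Ico_subset_Ico_right (by omega)

lemma Lo_sub1 (q : ℕ) (a : Fin m) : Ico q (2 * q) ⊆ Aset m q (1, a) := by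
  unfold Aset
  rw [if_neg (by simp)]
  exact Ico_subset_Ico_right (by omega)

lemma Lset_sub (q : ℕ) (l : Lab m) (b : Fin 3 × Fin m) : Lset m q l b ⊆ Aset m q b := by
  unfold Lset
  split_ifs with h
  · rcases h with h | h
    · rw [h]; exact Lo_sub0 q _
    · rw [h]; exact Lo_sub1 q _
  · exact Hset_sub q b

lemma mem_A0 {q : ℕ} {s : Fin 3 × Fin m → ℕ} (hs : s ∈ pbox (Aset m q)) (a : Fin m) :
    q ≤ s (0, a) ∧ s (0, a) < 4 * q := by
  have := mem_pbox.1 hs (0, a)
  unfold Aset at this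
  rw [if_neg (by simp)] at this
  exact mem_Ico.1 this

lemma mem_A1 {q : ℕ} {s : Fin 3 × Fin m → ℕ} (hs : s ∈ pbox (Aset m q)) (a : Fin m) :
    q ≤ s (1, a) ∧ s (1, a) < 4 * q := by
  have := mem_pbox.1 hs (1, a)
  unfold Aset at this
  rw [if_neg (by simp)] at this
  exact mem_Ico.1 this

lemma mem_A2 {q : ℕ} {s : Fin 3 × Fin m → ℕ} (hs : s ∈ pbox (Aset m q)) (a : Fin m) :
    s (2, a) < q := by
  have := mem_pbox.1 hs (2, a)
  unfold Aset at this
  rw [if_pos rfl] at this
  exact mem_range.1 this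

lemma fine_A {q : ℕ} {s : Fin 3 × Fin m → ℕ} (hs : s ∈ pbox (Aset m q)) : Fine q s := by
  rintro ⟨r, a⟩
  fin_cases r
  · exact (mem_A0 hs a).2
  · exact (mem_A1 hs a).2
  · have := mem_A2 hs a
    exact lt_of_lt_of_le this (by omega)

lemma pos_A {q : ℕ} {s : Fin 3 × Fin m → ℕ} (hs : s ∈ pbox (Aset m q)) (l : Lab m) :
    PosAt l s := by
  have h0 := mem_A0 hs (l 0)
  have h1 := mem_A1 hs (l 1)
  have h2 := mem_A2 hs (l 2)
  unfold PosAt
  omega

lemma mem_Lset {q : ℕ} {l : Lab m} {s : Fin 3 × Fin m → ℕ} (hs : s ∈ pbox (Lset m q l)) :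
    s ∈ pbox (Aset m q) := mem_pbox.2 fun b => Lset_sub q l b (mem_pbox.1 hs b)

lemma low0 {q : ℕ} {l : Lab m} {s : Fin 3 × Fin m → ℕ} (hs : s ∈ pbox (Lset m q l)) :
    s (0, l 0) < 2 * q := by
  have := mem_pbox.1 hs (0, l 0)
  unfold Lset at this
  rw [if_pos (Or.inl rfl)] at this
  exact (mem_Ico.1 this).2

lemma low1 {q : ℕ} {l : Lab m} {s : Fin 3 × Fin m → ℕ} (hs : s ∈ pbox (Lset m q l)) :
    s (1, l 1) < 2 * q := by
  have := mem_pbox.1 hs (1, l 1)
  unfold Lset at this
  rw [if_pos (Or.inr rfl)] at this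
  exact (mem_Ico.1 this).2

lemma high0 {q : ℕ} {l : Lab m} {s : Fin 3 × Fin m → ℕ} (hs : s ∈ pbox (Lset m q l)) {a : Fin m}
    (ha : a ≠ l 0) : 3 * q ≤ s (0, a) := by
  have := mem_pbox.1 hs (0, a)
  unfold Lset at this
  rw [if_neg (by simp [ha])] at this
  unfold Hset at this
  rw [if_neg (by simp)] at this
  exact (mem_Ico.1 this).1

lemma high1 {q : ℕ} {l : Lab m} {s : Fin 3 × Fin m → ℕ} (hs : s ∈ pbox (Lset m q l)) {a : Fin m}
    (ha : a ≠ l 1) : 3 * q ≤ s (1, a) := by
  have := mem_pbox.1 hs (1, a)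
  unfold Lset at this
  rw [if_neg (by simp [ha])] at this
  unfold Hset at this
  rw [if_neg (by simp)] at this
  exact (mem_Ico.1 this).1

lemma plant0 (s : Fin 3 × Fin m → ℕ) (l : Lab m) (a : Fin m) : plant s l (0, a) = s (0, a) := by
  simp [plant]

lemma plant1 (s : Fin 3 × Fin m → ℕ) (l : Lab m) (a : Fin m) : plant s l (1, a) = s (1, a) := by
  simp [plant]

lemma plant2 (s : Fin 3 × Fin m → ℕ) (l : Lab m) :
    plant s l (2, l 2) = s (0, l 0) + s (1, l 1) := by
  simp [plant]

lemma plant2' (s : Fin 3 × Fin m → ℕ) (l : Lab m) {a : Fin m} (ha : a ≠ l 2) :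
    plant s l (2, a) = s (2, a) := by
  simp [plant, ha]

lemma fine_plant {q : ℕ} {l : Lab m} {s : Fin 3 × Fin m → ℕ} (hs : s ∈ pbox (Lset m q l)) :
    Fine q (plant s l) := by
  have hf := fine_A (mem_Lset hs)
  intro b
  unfold plant
  by_cases hb : b = (2, l 2)
  · rw [hb, Function.update_self]
    have := low0 hs
    have := low1 hs
    omega
  · rw [Function.update_of_ne hb]
    exact hf b

lemma pos_plant {q : ℕ} {l : Lab m} (hl : l ∈ labs m) {s : Fin 3 × Fin m → ℕ}
    (hs : s ∈ pbox (Lset m q l)) {l' : Lab m} (hl' : l' ∈ labs m) (hne : l' ≠ l) :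
    PosAt l' (plant s l) := by
  have hA := mem_Lset hs
  unfold PosAt
  rw [plant0, plant1]
  have e1 := (mem_filter.1 hl).2
  have e2 := (mem_filter.1 hl').2
  by_cases h2 : l' 2 = l 2
  · rw [h2, plant2]
    have hv2 : (l' 2).val = (l 2).val := congrArg Fin.val h2
    have h0 : l' 0 ≠ l 0 := by
      intro h0
      have hv0 : (l' 0).val = (l 0).val := congrArg Fin.val h0
      have h1 : l' 1 = l 1 := Fin.ext (by omega)
      apply hne
      funext i
      fin_cases i
      · exact h0
      · exact h1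
      · exact h2
    have h1 : l' 1 ≠ l 1 := by
      intro h1
      have hv1 : (l' 1).val = (l 1).val := congrArg Fin.val h1
      exact h0 (Fin.ext (by omega))
    have := high0 hs h0
    have := high1 hs h1
    have := low0 hs
    have := low1 hs
    have := mem_A0 hA (l 0)
    omega
  · rw [plant2' _ _ h2]
    exact pos_A hA l'

/-! ### The algorithm -/

/-- the coefficients of a form in the free numbers -/
def cf (hm : 3 * m ≤ n) (u : Form n) (b : Fin 3 × Fin m) : ℝ := u.coef (emb hm b)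

/-- the constant part of a form -/
noncomputable def df (n m q : ℕ) (u : Form n) : ℝ := u.eval (inp n m q fun _ => 0)

lemma eval_inp (hm : 3 * m ≤ n) (q : ℕ) (u : Form n) (s : Fin 3 × Fin m → ℕ) :
    u.eval (inp n m q s) = ev (cf hm) (df n m q) u s := by
  unfold ev df Form.eval
  have h1 : ∑ i, u.coef i * (inp n m q s i : ℝ) -
      ∑ i, u.coef i * (inp n m q (fun _ => 0) i : ℝ) = ∑ b, cf hm u b * (s b : ℝ) := by
    rw [← sum_sub_distrib]
    symm
    apply Fintype.sum_of_injective (emb hm) (emb_injective hm)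
    · intro i hi
      have h : ¬ i.val < 3 * m := by
        intro h
        obtain ⟨b, hb⟩ := exists_emb hm h
        exact hi ⟨b, hb.symm⟩
      unfold inp
      rw [nu_filler s h, nu_filler _ h]
      ring
    · intro b
      unfold inp cf
      rw [nu_emb, nu_emb]
      push_cast
      ring
  linarith

/-- the program as an algorithm on the free numbers -/
noncomputable def alg (hm : 3 * m ≤ n) {q : ℕ} (hq : 0 < q) {C : Form n → Prop} (p : Prog n)
    (hp : p.Uses C) (K : Form n → Form n → Prop)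
    (hK : ∀ u v, C u → C v → ∀ s : Fin 3 × Fin m → ℕ, Fine q s →
      u.eval (inp n m q s) = v.eval (inp n m q s) → K u v) :
    HAlg (cf hm) (df n m q) (Aset m q) (Lset m q) := by
  classical
  exact
  { F := fun s => (p.run [] [] (inp n m q s)).1.toFinset
    Lt := fun s => (labs m).filter fun l => ∃ t ∈ (p.run [] [] (inp n m q s)).2.1, Hits hm t l
    ans := fun s => p.answer (inp n m q s)
    compat := K
    hcompat := by
      intro s hs u hu v hv he
      rw [← eval_inp, ← eval_inp] at he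
      have cu := run_uses p hp (inp n m q s) [] [] (fun w hw => absurd hw (List.not_mem_nil)) u
        (List.mem_toFinset.1 hu)
      have cv := run_uses p hp (inp n m q s) [] [] (fun w hw => absurd hw (List.not_mem_nil)) v
        (List.mem_toFinset.1 hv)
      exact hK u v cu cv s (fine_A hs) he
    sep := by
      intro s hs t ht
      rcases run_sep p (inp n m q s) (inp n m q t) [] [] with h | ⟨u, hu, v, hv, hu', hv', hne⟩ |
        ⟨τ, _, hτ⟩
      · left
        rw [h]
        refine ⟨rfl, rfl, ?_⟩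
        unfold Prog.answer
        rw [h]
      · right
        refine ⟨u, by simpa using hu, v, by simpa using hv, by simpa using hu',
          by simpa using hv', ?_⟩
        rw [← eval_inp, ← eval_inp, ← eval_inp, ← eval_inp]
        exact hne
      · exact absurd (sign_same hm hq τ (fine_A hs) (fine_A ht)
          fun l _ _ => ⟨pos_A hs l, pos_A ht l⟩) hτ
    sepP := by
      intro l hl s hs
      have hsA := mem_Lset hs
      rcases run_sep p (inp n m q s) (inp n m q (plant s l)) [] [] with h |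
        ⟨u, hu, v, hv, hu', hv', hne⟩ | ⟨τ, hτ1, hτ⟩
      · left
        unfold Prog.answer
        rw [h]
      · right
        right
        refine ⟨u, List.mem_toFinset.2 hu, v, List.mem_toFinset.2 hv, ?_, ?_⟩
        · have cu := run_uses p hp (inp n m q s) [] [] (fun w hw => absurd hw (List.not_mem_nil)) u hu
          have cv := run_uses p hp (inp n m q s) [] [] (fun w hw => absurd hw (List.not_mem_nil)) v hv
          by_cases h1 : u.eval (inp n m q s) = v.eval (inp n m q s)
          · exact hK u v cu cv s (fine_A hsA) h1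
          · by_cases h2 : u.eval (inp n m q (plant s l)) = v.eval (inp n m q (plant s l))
            · exact hK u v cu cv _ (fine_plant hs) h2
            · exact absurd ⟨fun h => absurd h h1, fun h => absurd h h2⟩ hne
        · rw [← eval_inp, ← eval_inp, ← eval_inp, ← eval_inp]
          exact hne
      · right
        left
        rw [mem_filter]
        refine ⟨hl, τ, hτ1, ?_⟩
        by_contra hcon
        apply hτ
        apply sign_same hm hq τ (fine_A hsA) (fine_plant hs)
        intro l' hl' hhit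
        refine ⟨pos_A hsA l', pos_plant hl hs hl' ?_⟩
        rintro rfl
        exact hcon hhit }

lemma alg_ans (hm : 3 * m ≤ n) {q : ℕ} (hq : 0 < q) {C : Form n → Prop} (p : Prog n)
    (hp : p.Uses C) (K : Form n → Form n → Prop)
    (hK : ∀ u v, C u → C v → ∀ s : Fin 3 × Fin m → ℕ, Fine q s →
      u.eval (inp n m q s) = v.eval (inp n m q s) → K u v) (s : Fin 3 × Fin m → ℕ) :
    (alg hm hq p hp K hK).ans s = p.answer (inp n m q s) := rfl

lemma alg_F (hm : 3 * m ≤ n) {q : ℕ} (hq : 0 < q) {C : Form n → Prop} (p : Prog n)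
    (hp : p.Uses C) (K : Form n → Form n → Prop)
    (hK : ∀ u v, C u → C v → ∀ s : Fin 3 × Fin m → ℕ, Fine q s →
      u.eval (inp n m q s) = v.eval (inp n m q s) → K u v) (s : Fin 3 × Fin m → ℕ) :
    ((alg hm hq p hp K hK).F s).card ≤ p.cost (inp n m q s) ∧
      ∀ u ∈ (alg hm hq p hp K hK).F s, C u := by
  classical
  constructor
  · exact (List.toFinset_card_le _).trans (Nat.le_add_right _ _)
  · intro u hu
    exact run_uses p hp (inp n m q s) [] [] (fun w hw => absurd hw (List.not_mem_nil)) u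
      (List.mem_toFinset.1 hu)

lemma three {α : Type*} {a b c x y z x' : α} (hx : x = a ∨ x = b ∨ x = c)
    (hy : y = a ∨ y = b ∨ y = c) (hz : z = a ∨ z = b ∨ z = c) (hx' : x' = a ∨ x' = b ∨ x' = c)
    (hxy : x ≠ y) (hxz : x ≠ z) (hyz : y ≠ z) (h1 : x' ≠ y) (h2 : x' ≠ z) : x = x' := by
  grind

lemma hits_unique (hm : 3 * m ≤ n) {t : Test n} {l l' : Lab m} (h : Hits hm t l)
    (h' : Hits hm t l') : l = l' := by
  have inj := emb_injective hm
  have e01 : ∀ a a', emb hm (0, a) ≠ emb hm (1, a') := fun a a' h => by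
    have := inj h
    simp at this
  have e02 : ∀ a a', emb hm (0, a) ≠ emb hm (2, a') := fun a a' h => by
    have := inj h
    simp at this
  have e12 : ∀ a a', emb hm (1, a) ≠ emb hm (2, a') := fun a a' h => by
    have := inj h
    simp at this
  have key : ∀ r : Fin 3, ∀ a a' : Fin m, emb hm (r, a) = emb hm (r, a') → a = a' := fun r a a' h => by
    have := inj h
    simpa using this
  obtain ⟨h0, h1, h2⟩ := h
  obtain ⟨h0', h1', h2'⟩ := h'
  have g0 : emb hm (0, l 0) = emb hm (0, l' 0) :=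
    three h0 h1 h2 h0' (e01 _ _) (e02 _ _) (e12 _ _) (e01 _ _) (e02 _ _)
  have g1 : emb hm (1, l 1) = emb hm (1, l' 1) :=
    three h1 h0 h2 h1' (e01 _ _).symm (e12 _ _) (e02 _ _) (e01 _ _).symm (e12 _ _)
  have g2 : emb hm (2, l 2) = emb hm (2, l' 2) :=
    three h2 h0 h1 h2' (e02 _ _).symm (e12 _ _).symm (e01 _ _) (e02 _ _).symm (e12 _ _).symm
  funext i
  fin_cases i
  · exact key 0 _ _ g0
  · exact key 1 _ _ g1
  · exact key 2 _ _ g2

lemma alg_Lt (hm : 3 * m ≤ n) {q : ℕ} (hq : 0 < q) {C : Form n → Prop} (p : Prog n)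
    (hp : p.Uses C) (K : Form n → Form n → Prop)
    (hK : ∀ u v, C u → C v → ∀ s : Fin 3 × Fin m → ℕ, Fine q s →
      u.eval (inp n m q s) = v.eval (inp n m q s) → K u v) (s : Fin 3 × Fin m → ℕ) :
    ((alg hm hq p hp K hK).Lt s).card ≤ p.cost (inp n m q s) := by
  classical
  have h1 : ((alg hm hq p hp K hK).Lt s).card ≤ (p.run [] [] (inp n m q s)).2.1.toFinset.card := by
    apply card_le_card_of_forall_subsingleton (fun l t => Hits hm t l)
    · intro l hl
      obtain ⟨_, t, ht, hh⟩ := mem_filter.1 hl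
      exact ⟨t, List.mem_toFinset.2 ht, hh⟩
    · rintro t _ l ⟨_, hl⟩ l' ⟨_, hl'⟩
      exact hits_unique hm hl hl'
  refine h1.trans ((List.toFinset_card_le _).trans ?_)
  exact Nat.le_add_left _ _

/-! ### The answers -/

lemma valid_inp (hm : 3 * m ≤ n) {q N : ℕ} (hq : 0 < q) (hN : 1440 * n * q ≤ N)
    {s : Fin 3 × Fin m → ℕ} (hs : Fine q s) : Valid N (inp n m q s) := by
  have hq' : (0 : ℤ) < q := by exact_mod_cast hq
  constructor
  · intro i j hij
    have bi := nu_bound (n := n) hq hs i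
    have bj := nu_bound (n := n) hq hs j
    unfold inp at hij
    apply Z_inj hm
    by_contra hne
    rcases lt_or_gt_of_ne hne with h1 | h1
    · have h2 : 32 * (q : ℤ) * (Z n m i + 1) ≤ 32 * q * Z n m j :=
        mul_le_mul_of_nonneg_left (by omega) (by positivity)
      linarith [bi.1, bi.2, bj.1, bj.2]
    · have h2 : 32 * (q : ℤ) * (Z n m j + 1) ≤ 32 * q * Z n m i :=
        mul_le_mul_of_nonneg_left (by omega) (by positivity)
      linarith [bi.1, bi.2, bj.1, bj.2]
  · intro i
    have bi := nu_bound (n := n) hq hs i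
    have h1 := Z_pos hm i
    have h2 := Z_le hm i
    have h3 : 32 * (q : ℤ) * (Z n m i + 1) ≤ 32 * q * (45 * n) :=
      mul_le_mul_of_nonneg_left (by omega) (by positivity)
    have h4 : (1440 * n * q : ℤ) ≤ N := by exact_mod_cast hN
    have h5 : 0 ≤ 32 * (q : ℤ) * Z n m i := by positivity
    unfold inp
    rw [abs_le]
    constructor
    · have : (0 : ℤ) ≤ N := Int.natCast_nonneg N
      linarith [bi.1]
    · linarith [bi.2]

lemma not_has3Sum (hm : 3 * m ≤ n) {q : ℕ} (hq : 0 < q) {s : Fin 3 × Fin m → ℕ}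
    (hs : s ∈ pbox (Aset m q)) : ¬ Has3Sum (inp n m q s) := by
  have hq' : (0 : ℤ) < q := by exact_mod_cast hq
  rintro ⟨i, j, k, _, _, _, h⟩
  have bi := nu_bound (n := n) hq (fine_A hs) i
  have bj := nu_bound (n := n) hq (fine_A hs) j
  have bk := nu_bound (n := n) hq (fine_A hs) k
  unfold inp at h
  have hZ : Z n m i + Z n m j = Z n m k := by
    by_contra hne
    rcases lt_or_gt_of_ne hne with h1 | h1
    · have h2 : 32 * (q : ℤ) * (Z n m i + Z n m j + 1) ≤ 32 * q * Z n m k :=
        mul_le_mul_of_nonneg_left (by omega) (by positivity)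
      linarith [bi.1, bi.2, bj.1, bj.2, bk.1, bk.2]
    · have h2 : 32 * (q : ℤ) * (Z n m k + 1) ≤ 32 * q * (Z n m i + Z n m j) :=
        mul_le_mul_of_nonneg_left (by omega) (by positivity)
      linarith [bi.1, bi.2, bj.1, bj.2, bk.1, bk.2]
  have hnu : nu n m s i + nu n m s j = nu n m s k := by
    linear_combination h - (32 * (q : ℤ)) * hZ
  obtain ⟨l, hl, hij, hk⟩ := Z_sum hm hZ
  have hp := pos_A hs l
  unfold PosAt at hp
  rcases hij with ⟨e1, e2⟩ | ⟨e1, e2⟩
  · rw [e1, e2, hk, nu_emb, nu_emb, nu_emb] at hnu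
    omega
  · rw [e1, e2, hk, nu_emb, nu_emb, nu_emb] at hnu
    omega

lemma has3Sum_plant (hm : 3 * m ≤ n) (q : ℕ) (s : Fin 3 × Fin m → ℕ) {l : Lab m}
    (hl : l ∈ labs m) : Has3Sum (inp n m q (plant s l)) := by
  refine ⟨emb hm (0, l 0), emb hm (1, l 1), emb hm (2, l 2), ?_, ?_, ?_, ?_⟩
  · intro h
    have := emb_injective hm h
    simp at this
  · intro h
    have := emb_injective hm h
    simp at this
  · intro h
    have := emb_injective hm h
    simp at this
  · unfold inp
    rw [Z_emb, Z_emb, Z_emb, nu_emb, nu_emb, nu_emb, plant0, plant1, plant2]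
    have e := (mem_filter.1 hl).2
    have e' : ((l 0).val : ℤ) + (l 1).val = (l 2).val := by exact_mod_cast e
    simp only [cls, Matrix.cons_val_zero, Matrix.cons_val_one, Matrix.cons_val]
    push_cast
    linear_combination (32 * (q : ℤ)) * e'

end hard

end Pool.Agent.J4.H80.HashComp
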