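import Mathlib
import Pool.Agent.J4.H80.HybInst

/-!
# Randomized algorithms which hash and compare: averaging
-/

set_option autoImplicit false
set_option linter.unusedSectionVars false

open Finset MeasureTheory
open scoped ENNReal

namespace Pool.Agent.J4.H80.HashComp

open Gen Cover Hyb

/-- averaging over the random choices -/
lemma average {ι Ω : Type} [MeasurableSpace Ω] (μ : Measure Ω) [IsProbabilityMeasure μ]
    (S : Finset ι) (E : ι → Set Ω) (hE : ∀ i ∈ S, MeasurableSet (E i)) (K : ℝ) (π : ι → ℝ)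
    (hK : ∀ ω, K ≤ ∑ i ∈ S, (E i).indicator (fun _ => (1 : ℝ)) ω)
    (hμ : ∀ i ∈ S, μ.real (E i) ≤ π i) : K ≤ ∑ i ∈ S, π i := by
  have hint : ∀ i ∈ S, Integrable ((E i).indicator (fun _ => (1 : ℝ))) μ := fun i hi =>
    (integrable_const (1 : ℝ)).indicator (hE i hi)
  have h1 : ∫ _ω, K ∂μ ≤ ∫ ω, ∑ i ∈ S, (E i).indicator (fun _ => (1 : ℝ)) ω ∂μ :=
    integral_mono (integrable_const K) (integrable_finsetSum S hint) hK
  rw [integral_finsetSum S hint] at h1
  have h2 : ∑ i ∈ S, ∫ ω, (E i).indicator (fun _ => (1 : ℝ)) ω ∂μ ≤ ∑ i ∈ S, π i := by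
    refine sum_le_sum fun i hi => ?_
    rw [integral_indicator_const _ (hE i hi)]
    simpa using hμ i hi
  have h3 : ∫ _ω, K ∂μ = K := by simp
  linarith

/-- the tuples of the averaging argument -/
abbrev Tup (m : ℕ) : Type := ((Fin 3 × Fin m → ℕ) × Lab m) × (ℕ × ℕ)

/-- the input with answer yes -/
def yes {m : ℕ} (w : Tup m) : Fin 3 × Fin m → ℕ :=
  plant (low w.1.1 w.1.2 w.2.1 w.2.2) w.1.2

/-- the events of the averaging argument -/
def event {Ω : Type} {n : ℕ} (m q : ℕ) (p : Ω → Prog n) (T : ℕ) (x : Tup m × Fin 3) : Set Ω :=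
  ![{ω | (p ω).answer (inp n m q x.1.1.1) = true},
    {ω | (p ω).answer (inp n m q (yes x.1)) = false},
    {ω | T < (p ω).cost (inp n m q x.1.1.1)}] x.2

lemma low_mem {m q : ℕ} {s : Fin 3 × Fin m → ℕ} (hs : s ∈ pbox (Hset m q)) (l : Lab m) {z z' : ℕ}
    (hz : z ∈ Ico q (2 * q)) (hz' : z' ∈ Ico q (2 * q)) : low s l z z' ∈ pbox (Lset m q l) := by
  rw [mem_pbox]
  intro b
  unfold Lset low
  by_cases hb1 : b = (1, l 1)
  · rw [if_pos (Or.inr hb1), hb1]
    simpa using hz'
  · rw [Function.update_of_ne hb1]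
    by_cases hb0 : b = (0, l 0)
    · rw [if_pos (Or.inl hb0), hb0]
      simpa using hz
    · rw [Function.update_of_ne hb0, if_neg (not_or.2 ⟨hb0, hb1⟩)]
      exact mem_pbox.1 hs b

theorem core {n m q ℓ N T' : ℕ} {T : ℝ} {C : Form n → Prop} (hm : 3 * m ≤ n) (hm0 : 0 < m)
    (hℓ : 0 < ℓ) (hℓq : ℓ < q) (hq : 0 < q) (hN : 1440 * n * q ≤ N) (hT : 0 < T)
    (hT' : T' = ⌊20 * T⌋₊) {Ω : Type}
    [MeasurableSpace Ω] (μ : Measure Ω) [IsProbabilityMeasure μ] (p : Ω → Prog n)
    (h : Solves C N T μ p) (K : Form n → Form n → Prop)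
    (hK : ∀ u v, C u → C v → ∀ s : Fin 3 × Fin m → ℕ, Fine q s →
      u.eval (inp n m q s) = v.eval (inp n m q s) → K u v) (Λ Γ : ℕ)
    (hload : ∀ ω, ∀ s ∈ pbox (Hset m q), ((alg hm hq (p ω) (h.uses ω) K hK).F s).card ≤ T' →
      ∑ b, (HD (alg hm hq (p ω) (h.uses ω) K hK) b s).card ≤ Λ)
    (hcov : ∀ ω, ∀ s ∈ pbox (Hset m q), ((alg hm hq (p ω) (h.uses ω) K hK).F s).card ≤ T' →
      ∀ S ⊆ labs m, (∀ l ∈ S, Covd (alg hm hq (p ω) (h.uses ω) K hK) s l) → S.card ≤ Γ) :
    (17 / 60 : ℝ) ≤ 2 * Λ / (ℓ * m) + 3 * (2 * ℓ + 1) / q + 2 * ℓ / q + 2 * (T' + Γ) / m ^ 2 +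
      ℓ / ((q : ℝ) - ℓ) := by
  classical
  have hbad := fun ω => card_HBad (alg hm hq (p ω) (h.uses ω) K hK) T' ℓ q (Hset m q)
    (Ico q (2 * q)) (Hset_sub q) (Hset_card q) (Lo_sub0 q) (Lo_sub1 q)
    (by rw [Nat.card_Ico]; omega) (fun l b => rfl) Λ Γ (hload ω)
    (fun s hs hF => hcov ω s hs hF _ (filter_subset _ _) fun l hl => (mem_filter.1 hl).2)
    hℓ hℓq hm0
  set δ : ℝ := 2 * Λ / (ℓ * m) + 3 * (2 * ℓ + 1) / q + 2 * ℓ / q + 2 * (T' + Γ) / m ^ 2 +
      ℓ / ((q : ℝ) - ℓ) with hδ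
  set W : Finset (Tup m) := (pbox (Hset m q) ×ˢ labs m) ×ˢ (Ico q (2 * q) ×ˢ Ico q (2 * q)) with hW
  have hWcard : (W.card : ℝ) = (pbox (Hset m q)).card * (labs m).card * (q : ℝ) ^ 2 := by
    rw [hW, card_product, card_product, card_product, Nat.card_Ico]
    have : 2 * q - q = q := by omega
    rw [this]
    push_cast
    ring
  have hWpos : (0 : ℝ) < W.card := by
    rw [hWcard, pbox_card q _ (Hset_card q)]
    have h1 : 0 < (labs m).card := by
      have := card_labs_ge m
      have : 0 < m ^ 2 := by positivity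
      omega
    have h1' : (0 : ℝ) < (labs m).card := by exact_mod_cast h1
    have hq' : (0 : ℝ) < q := by exact_mod_cast hq
    push_cast
    positivity
  have hWmem : ∀ w ∈ W, w.1.1 ∈ pbox (Hset m q) ∧ w.1.2 ∈ labs m ∧ w.2.1 ∈ Ico q (2 * q) ∧
      w.2.2 ∈ Ico q (2 * q) := by
    intro w hw
    rw [hW, mem_product, mem_product, mem_product] at hw
    exact ⟨hw.1.1, hw.1.2, hw.2.1, hw.2.2⟩
  have hA : ∀ w ∈ W, w.1.1 ∈ pbox (Aset m q) := fun w hw =>
    mem_pbox.2 fun b => Hset_sub q b (mem_pbox.1 (hWmem w hw).1 b)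
  have hlow : ∀ w ∈ W, low w.1.1 w.1.2 w.2.1 w.2.2 ∈ pbox (Lset m q w.1.2) := fun w hw =>
    low_mem (hWmem w hw).1 _ (hWmem w hw).2.2.1 (hWmem w hw).2.2.2
  have hV : ∀ w ∈ W, Valid N (inp n m q w.1.1) := fun w hw =>
    valid_inp hm hq hN (fine_A (hA w hw))
  have hV' : ∀ w ∈ W, Valid N (inp n m q (yes w)) := fun w hw =>
    valid_inp hm hq hN (fine_plant (hlow w hw))
  have key : (W.card : ℝ) - W.card * δ ≤ ∑ x ∈ W ×ˢ (univ : Finset (Fin 3)),
        (![1 / 3, 1 / 3, 1 / 20] x.2 : ℝ) := by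
    apply average μ _ (event m q p T')
    · rintro ⟨w, t⟩ hx
      have hw : w ∈ W := (mem_product.1 hx).1
      fin_cases t
      · exact h.measurable_answer _ (hV w hw) (measurableSet_singleton true)
      · exact h.measurable_answer _ (hV' w hw) (measurableSet_singleton false)
      · exact h.measurable_cost _ (hV w hw) measurableSet_Ioi
    · intro ω
      rw [sum_product]
      have h3 : ∀ w ∈ W, (1 : ℝ) ≤
          ∑ t : Fin 3, (event m q p T' (w, t)).indicator (fun _ => (1 : ℝ)) ω +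
            if w ∈ HBad (alg hm hq (p ω) (h.uses ω) K hK) T' (Hset m q) (Ico q (2 * q))
              then 1 else 0 := by
        intro w hw
        rw [Fin.sum_univ_three]
        have hnn : ∀ t : Fin 3, (0 : ℝ) ≤
            (event m q p T' (w, t)).indicator (fun _ => (1 : ℝ)) ω := fun t =>
          Set.indicator_nonneg (fun _ _ => zero_le_one) ω
        have n0 := hnn 0
        have n1 := hnn 1
        have n2 := hnn 2
        have n3 : (0 : ℝ) ≤ if w ∈ HBad (alg hm hq (p ω) (h.uses ω) K hK) T' (Hset m q)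
            (Ico q (2 * q)) then 1 else 0 := by
          split_ifs <;> norm_num
        by_cases c0 : (p ω).answer (inp n m q w.1.1) = true
        · have : (event m q p T' (w, 0)).indicator (fun _ => (1 : ℝ)) ω = 1 :=
            Set.indicator_of_mem (show ω ∈ event m q p T' (w, 0) from c0) _
          linarith
        by_cases c1 : (p ω).answer (inp n m q (yes w)) = false
        · have : (event m q p T' (w, 1)).indicator (fun _ => (1 : ℝ)) ω = 1 :=
            Set.indicator_of_mem (show ω ∈ event m q p T' (w, 1) from c1) _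
          linarith
        by_cases c2 : T' < (p ω).cost (inp n m q w.1.1)
        · have : (event m q p T' (w, 2)).indicator (fun _ => (1 : ℝ)) ω = 1 :=
            Set.indicator_of_mem (show ω ∈ event m q p T' (w, 2) from c2) _
          linarith
        have c3 : w ∈ HBad (alg hm hq (p ω) (h.uses ω) K hK) T' (Hset m q) (Ico q (2 * q)) := by
          rw [HBad, mem_filter]
          refine ⟨hw, ((alg_F hm hq (p ω) (h.uses ω) K hK _).1).trans (not_lt.1 c2),
            (alg_Lt hm hq (p ω) (h.uses ω) K hK _).trans (not_lt.1 c2), ?_⟩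
          rw [alg_ans, alg_ans]
          intro h4
          rw [h4] at c0
          exact c1 (by simpa [yes] using c0)
        rw [if_pos c3]
        linarith
      have h4 := sum_le_sum h3
      rw [sum_add_distrib, sum_const, nsmul_eq_mul, mul_one] at h4
      have h5 : ∑ w ∈ W, (if w ∈ HBad (alg hm hq (p ω) (h.uses ω) K hK) T' (Hset m q)
          (Ico q (2 * q)) then (1 : ℝ) else 0) ≤ W.card * δ := by
        rw [sum_ite, sum_const_zero, add_zero, sum_const, nsmul_eq_mul, mul_one, hWcard]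
        refine le_trans ?_ (hbad ω)
        exact_mod_cast card_le_card fun x hx => (mem_filter.1 hx).2
      linarith
    · rintro ⟨w, t⟩ hx
      have hw : w ∈ W := (mem_product.1 hx).1
      fin_cases t
      · change μ.real {ω | (p ω).answer (inp n m q w.1.1) = true} ≤ 1 / 3
        have h3 := h.error_le _ (hV w hw)
        have h4 : {ω | ¬ ((p ω).answer (inp n m q w.1.1) = true ↔ Has3Sum (inp n m q w.1.1))} =
            {ω | (p ω).answer (inp n m q w.1.1) = true} := by
          ext ω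
          have := not_has3Sum hm hq (hA w hw)
          simp [this]
        rw [h4] at h3
        exact ENNReal.toReal_le_of_le_ofReal (by norm_num) h3
      · change μ.real {ω | (p ω).answer (inp n m q (yes w)) = false} ≤ 1 / 3
        have h3 := h.error_le _ (hV' w hw)
        have h4 : {ω | ¬ ((p ω).answer (inp n m q (yes w)) = true ↔
            Has3Sum (inp n m q (yes w)))} =
            {ω | (p ω).answer (inp n m q (yes w)) = false} := by
          ext ω
          have := has3Sum_plant hm q (low w.1.1 w.1.2 w.2.1 w.2.2) (hWmem w hw).2.1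
          have this' : Has3Sum (inp n m q (yes w)) := this
          simp [this']
        rw [h4] at h3
        exact ENNReal.toReal_le_of_le_ofReal (by norm_num) h3
      · change μ.real {ω | T' < (p ω).cost (inp n m q w.1.1)} ≤ 1 / 20
        have h3 := h.cost_le _ (hV w hw)
        have h4 := meas_ge_le_lintegral_div (μ := μ)
          (f := fun ω => (((p ω).cost (inp n m q w.1.1) : ℕ) : ℝ≥0∞))
          (by
            have := h.measurable_cost _ (hV w hw)
            exact (measurable_from_top.comp this).aemeasurable)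
          (ε := ENNReal.ofReal (20 * T)) (by
            rw [Ne, ENNReal.ofReal_eq_zero]
            push Not
            positivity) ENNReal.ofReal_ne_top
        have h5 : {ω | T' < (p ω).cost (inp n m q w.1.1)} ⊆
            {ω | ENNReal.ofReal (20 * T) ≤ (((p ω).cost (inp n m q w.1.1) : ℕ) : ℝ≥0∞)} := by
          intro ω hω
          have hω' : ⌊20 * T⌋₊ < (p ω).cost (inp n m q w.1.1) := by
            rw [← hT']
            exact hω
          have h6 := (Nat.floor_lt (by positivity)).1 hω'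
          change ENNReal.ofReal (20 * T) ≤ (((p ω).cost (inp n m q w.1.1) : ℕ) : ℝ≥0∞)
          rw [← ENNReal.ofReal_natCast]
          exact ENNReal.ofReal_le_ofReal h6.le
        have h6 : μ {ω | T' < (p ω).cost (inp n m q w.1.1)} ≤ ENNReal.ofReal (1 / 20) := by
          refine (measure_mono h5).trans (h4.trans ?_)
          refine (ENNReal.div_le_div_right h3 _).trans ?_
          rw [← ENNReal.ofReal_div_of_pos (by positivity)]
          apply ENNReal.ofReal_le_ofReal
          rw [div_le_div_iff₀ (by positivity) (by norm_num)]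
          linarith
        exact ENNReal.toReal_le_of_le_ofReal (by norm_num) h6
  have hsum : ∑ x ∈ W ×ˢ (univ : Finset (Fin 3)), (![1 / 3, 1 / 3, 1 / 20] x.2 : ℝ) =
      W.card * (1 / 3 + 1 / 3 + 1 / 20) := by
    rw [sum_product]
    simp only [Fin.sum_univ_three]
    rw [sum_const, nsmul_eq_mul]
    simp
  rw [hsum] at key
  have h1 : (W.card : ℝ) * (17 / 60) ≤ W.card * δ := by linarith
  exact le_of_mul_le_mul_left h1 hWpos

/-! ### Loads and covers -/

variable {m : ℕ} {Φ : Type*} {c : Φ → Fin 3 × Fin m → ℝ} {d : Φ → ℝ}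
  {A : Fin 3 × Fin m → Finset ℕ} {L : Lab m → Fin 3 × Fin m → Finset ℕ}

open Classical in
lemma sum_HD (P : HAlg c d A L) (s : Fin 3 × Fin m → ℕ) : ∑ b, (HD P b s).card =
    ∑ p ∈ (P.F s ×ˢ P.F s).filter (fun p => P.compat p.1 p.2),
      (univ.filter fun b => c p.1 b ≠ c p.2 b).card := by
  unfold HD
  have h1 : ∀ b, ((P.F s ×ˢ P.F s).filter fun p => c p.1 b ≠ c p.2 b ∧ P.compat p.1 p.2) =
      ((P.F s ×ˢ P.F s).filter fun p => P.compat p.1 p.2).filter fun p => c p.1 b ≠ c p.2 b := by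
    intro b
    ext p
    simp only [mem_filter]
    tauto
  simp_rw [h1]
  simp_rw [card_filter _ _]
  rw [sum_comm]

lemma card_diff_le {κ : ℕ} {u v : Φ} (hu : (univ.filter fun b => c u b ≠ 0).card ≤ κ)
    (hv : (univ.filter fun b => c v b ≠ 0).card ≤ κ) :
    (univ.filter fun b => c u b ≠ c v b).card ≤ 2 * κ := by
  classical
  have h3 : (univ.filter fun b => c u b ≠ c v b) ⊆
      (univ.filter fun b => c u b ≠ 0) ∪ (univ.filter fun b => c v b ≠ 0) := by
    intro b hb
    simp only [mem_filter, mem_univ, true_and, mem_union] at hb ⊢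
    by_contra hcon
    push Not at hcon
    exact hb (hcon.1.trans hcon.2.symm)
  refine (card_le_card h3).trans ((card_union_le _ _).trans ?_)
  omega

lemma load_le (P : HAlg c d A L) (κ : ℕ) (s : Fin 3 × Fin m → ℕ)
    (hκ : ∀ u ∈ P.F s, (univ.filter fun b => c u b ≠ 0).card ≤ κ) :
    ∑ b, (HD P b s).card ≤ 2 * κ * (P.F s).card ^ 2 := by
  classical
  rw [sum_HD]
  calc _ ≤ ∑ p ∈ (P.F s ×ˢ P.F s).filter (fun p => P.compat p.1 p.2), 2 * κ := by
        refine sum_le_sum fun p hp => ?_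
        have hp' := mem_product.1 (mem_filter.1 hp).1
        exact card_diff_le (hκ _ hp'.1) (hκ _ hp'.2)
    _ ≤ ∑ p ∈ P.F s ×ˢ P.F s, 2 * κ := sum_le_sum_of_subset (filter_subset _ _)
    _ = 2 * κ * (P.F s).card ^ 2 := by
      rw [sum_const, card_product, smul_eq_mul]; ring

lemma cov_le (P : HAlg c d A L) (κ : ℕ) (s : Fin 3 × Fin m → ℕ)
    (hκ : ∀ u ∈ P.F s, (univ.filter fun b => c u b ≠ 0).card ≤ κ) (S : Finset (Lab m))
    (hS : S ⊆ labs m) (hcov : ∀ l ∈ S, Covd P s l) : S.card ≤ κ ^ 2 * (P.F s).card := by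
  classical
  set X : Finset (Σ _ : Φ, (Fin 3 × Fin m) × (Fin 3 × Fin m)) := (P.F s).sigma fun u =>
    (univ.filter fun b => c u b ≠ 0) ×ˢ (univ.filter fun b => c u b ≠ 0) with hX
  have h1 : X.card ≤ κ ^ 2 * (P.F s).card := by
    rw [hX, card_sigma]
    calc _ ≤ ∑ u ∈ P.F s, κ ^ 2 := by
          refine sum_le_sum fun u hu => ?_
          rw [card_product, sq]
          exact Nat.mul_le_mul (hκ u hu) (hκ u hu)
      _ = κ ^ 2 * (P.F s).card := by rw [sum_const, smul_eq_mul, mul_comm]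
  refine le_trans (card_le_card_of_forall_subsingleton
    (fun l x => ∃ r r', r ≠ r' ∧ x.2.1 = (r, l r) ∧ x.2.2 = (r', l r')) ?_ ?_) h1
  · intro l hl
    obtain ⟨u, hu, v, hv, huv⟩ := hcov l hl
    have h2 : ∀ r, c u (r, l r) ≠ 0 ∨ c v (r, l r) ≠ 0 := by
      intro r
      by_contra hcon
      push Not at hcon
      exact huv r (hcon.1.trans hcon.2.symm)
    have h3 : ∃ w ∈ P.F s, ∃ r r', r ≠ r' ∧ c w (r, l r) ≠ 0 ∧ c w (r', l r') ≠ 0 := by
      have a0 := h2 0
      have a1 := h2 1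
      have a2 := h2 2
      rcases a0 with a0 | a0
      · rcases a1 with a1 | a1
        · exact ⟨u, hu, 0, 1, by decide, a0, a1⟩
        · rcases a2 with a2 | a2
          · exact ⟨u, hu, 0, 2, by decide, a0, a2⟩
          · exact ⟨v, hv, 1, 2, by decide, a1, a2⟩
      · rcases a1 with a1 | a1
        · rcases a2 with a2 | a2
          · exact ⟨u, hu, 1, 2, by decide, a1, a2⟩
          · exact ⟨v, hv, 0, 2, by decide, a0, a2⟩
        · exact ⟨v, hv, 0, 1, by decide, a0, a1⟩
    obtain ⟨w, hw, r, r', hr, e1, e2⟩ := h3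
    refine ⟨⟨w, ((r, l r), (r', l r'))⟩, ?_, r, r', hr, rfl, rfl⟩
    rw [hX, mem_sigma, mem_product, mem_filter, mem_filter]
    exact ⟨hw, ⟨mem_univ _, e1⟩, ⟨mem_univ _, e2⟩⟩
  · rintro x _ l ⟨hl, r, r', hr, e1, e2⟩ l' ⟨hl', t, t', _, f1, f2⟩
    rw [e1] at f1
    rw [e2] at f2
    simp only [Prod.mk.injEq] at f1 f2
    obtain ⟨g1, g2⟩ := f1
    obtain ⟨g3, g4⟩ := f2
    subst g1
    subst g3
    have k1 := (mem_filter.1 (hS hl)).2
    have k2 := (mem_filter.1 (hS hl')).2
    have v1 : (l r).val = (l' r).val := congrArg Fin.val g2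
    have v2 : (l r').val = (l' r').val := congrArg Fin.val g4
    have hall : ∀ i : Fin 3, (l i).val = (l' i).val := by
      fin_cases r <;> fin_cases r' <;> simp only [Fin.zero_eta, Fin.mk_one, Fin.reduceFinMk,
        ne_eq, not_true_eq_false] at hr v1 v2 <;>
      (intro i; fin_cases i <;> simp only [Fin.zero_eta, Fin.mk_one, Fin.reduceFinMk] <;> omega)
    funext i
    exact Fin.ext (hall i)

end Pool.Agent.J4.H80.HashComp
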